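import Pool.Agent.H459R3.NS.Ibp

/-!
The energy identity for the difference of a divergence-free field and the auxiliary flow at a fixed
time (helper33).
-/

set_option autoImplicit false

open MeasureTheory Set Filter Topology
open scoped ContDiff

namespace Pool.Agent.Helper33S

open H459R3.NS

/-! ### Pointwise algebra -/

/-- the integrand of the energy balance -/
def lhs (w v : Fin 3 → ℝ) (W Vm LL : Fin 3 → Fin 3 → ℝ) (y : Fin 3 → ℝ) (Y : Fin 3 → Fin 3 → ℝ)
    (Q : Fin 3 → ℝ) : ℝ :=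
  ∑ i, (-2 * (∑ j, (W i j + Vm i j) ^ 2) -
    2 * ((w i + v i) * ((∑ j, LL i j) - (∑ j, (Y j j * y i + y j * Y i j)) - Q i + ∑ j, LL i j)) -
    2 * (∑ j, (w i + v i) * ((w j + v j) * Vm i j)) +
    2 * (v i * ((∑ j, LL i j) - (∑ j, (Y j j * y i + y j * Y i j)) - Q i)))

/-- the main terms -/
def rhs (w : Fin 3 → ℝ) (W : Fin 3 → Fin 3 → ℝ) (z y f : Fin 3 → ℝ) (F : Fin 3 → Fin 3 → ℝ) : ℝ :=
  (∑ i, ∑ j, (-2 * W i j ^ 2 + 2 * (w j * (z i * W i j)) + 2 * (w j * (w i * F i j)) +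
    2 * ((z j * z i - y j * y i) * W i j) - 2 * ((z j * f i + f j * z i) * W i j))) -
    2 * ∑ i, w i * (f i * ∑ j, F j j)

/-- the divergence terms -/
def dvg (w v : Fin 3 → ℝ) (W Vm LL : Fin 3 → Fin 3 → ℝ) (z : Fin 3 → ℝ) (Zm : Fin 3 → Fin 3 → ℝ)
    (y : Fin 3 → ℝ) (Y : Fin 3 → Fin 3 → ℝ) (f : Fin 3 → ℝ) (F : Fin 3 → Fin 3 → ℝ) (q : ℝ)
    (Q : Fin 3 → ℝ) (j : Fin 3) : ℝ :=
  (∑ i, (-2 * ((2 * W i j + Vm i j) * Vm i j + (2 * w i + v i) * LL i j) +
    2 * (W i j * (y j * y i) + w i * (Y j j * y i + y j * Y i j)) -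
    ((W j j + Vm j j) * (v i * v i) + (w j + v j) * (Vm i j * v i + v i * Vm i j)) -
    2 * (W i j * (w j * z i) + w i * (W j j * z i + w j * Zm i j)) -
    2 * (W i j * (v j * v i) + w i * (Vm j j * v i + v j * Vm i j)) +
    2 * (W i j * (f i * f j) + w i * (F i j * f j + f i * F j j)) -
    (W j j * (f i * f i) + w j * (F i j * f i + f i * F i j)))) +
    2 * (W j j * q + w j * Q j)

theorem alg_id (w v : Fin 3 → ℝ) (W Vm LL : Fin 3 → Fin 3 → ℝ) (z : Fin 3 → ℝ)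
    (Zm : Fin 3 → Fin 3 → ℝ) (y : Fin 3 → ℝ) (Y : Fin 3 → Fin 3 → ℝ) (f : Fin 3 → ℝ)
    (F : Fin 3 → Fin 3 → ℝ) (q : ℝ) (Q : Fin 3 → ℝ) (hv : ∀ i, v i = z i - f i)
    (hV : ∀ i j, Vm i j = Zm i j - F i j) (hF : ∀ i j, F i j = F j i)
    (hW : ∑ j, W j j = 0) (hVd : ∑ j, Vm j j = 0) :
    lhs w v W Vm LL y Y Q = rhs w W z y f F + ∑ j, dvg w v W Vm LL z Zm y Y f F q Q j := by
  have e1 : F 1 0 = F 0 1 := hF 1 0
  have e2 : F 2 0 = F 0 2 := hF 2 0
  have e3 : F 2 1 = F 1 2 := hF 2 1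
  rw [Fin.sum_univ_three] at hW hVd
  have hZ : ∀ i j, Zm i j = Vm i j + F i j := fun i j => by rw [hV]; ring
  have hz : ∀ i, z i = v i + f i := fun i => by rw [hv]; ring
  have hW2 : W 2 2 = -W 0 0 - W 1 1 := by linarith
  have hV2 : Vm 2 2 = -Vm 0 0 - Vm 1 1 := by linarith
  unfold lhs rhs dvg
  simp only [Fin.sum_univ_three, hZ, hz, e1, e2, e3, hW2, hV2]
  ring

/-- the bound of the main terms -/
theorem rhs_le (w : Fin 3 → ℝ) (W : Fin 3 → Fin 3 → ℝ) (z y f : Fin 3 → ℝ)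
    (F : Fin 3 → Fin 3 → ℝ) {m ε b : ℝ} (hz : ∀ i, |z i| ≤ m)
    (hd : ∀ i j, |z i * z j - y i * y j| ≤ ε) (hF : ∀ i j, |F i j| ≤ b) :
    rhs w W z y f F ≤ -(∑ i, ∑ j, W i j ^ 2) + (12 * m ^ 2 + 9 * b) * ∑ i, w i ^ 2 +
      36 * ε ^ 2 + (24 * m ^ 2 + 3 * b) * ∑ i, f i ^ 2 := by
  have hb : 0 ≤ b := (abs_nonneg _).trans (hF 0 0)
  -- products
  have p1 : ∀ (a c d k : ℝ), |a| ≤ k → 2 * (c * (a * d)) ≤ d ^ 2 / 4 + 4 * k ^ 2 * c ^ 2 := by
    intro a c d k ha
    have h1 : a ^ 2 ≤ k ^ 2 := sq_le_sq' (by linarith [neg_abs_le a]) ((le_abs_self a).trans ha)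
    nlinarith [sq_nonneg (d / 2 - 2 * (a * c)), mul_nonneg (sub_nonneg.2 h1) (sq_nonneg c)]
  have t1 : ∀ i j, 2 * (w j * (z i * W i j)) ≤ W i j ^ 2 / 4 + 4 * m ^ 2 * w j ^ 2 :=
    fun i j => p1 _ _ _ _ (hz i)
  have t2 : ∀ i j, 2 * (w j * (w i * F i j)) ≤ b * (w i ^ 2 + w j ^ 2) := by
    intro i j
    have h1 := hF i j
    have h2 := abs_le.1 h1
    nlinarith [sq_nonneg (w i - w j), sq_nonneg (w i + w j),
      mul_nonneg (sub_nonneg.2 h2.2) (sq_nonneg (w i + w j)),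
      mul_nonneg (by linarith [h2.1] : (0 : ℝ) ≤ F i j + b) (sq_nonneg (w i - w j))]
  have t3 : ∀ i j, 2 * ((z j * z i - y j * y i) * W i j) ≤ W i j ^ 2 / 4 + 4 * ε ^ 2 := by
    intro i j
    have h := p1 (z j * z i - y j * y i) 1 (W i j) ε (hd j i)
    linarith
  have t4 : ∀ i j, -2 * ((z j * f i + f j * z i) * W i j) ≤
      W i j ^ 2 / 2 + 4 * m ^ 2 * (f i ^ 2 + f j ^ 2) := by
    intro i j
    have h1 := p1 (-z j) (f i) (W i j) m (by rw [abs_neg]; exact hz j)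
    have h2 := p1 (-z i) (f j) (W i j) m (by rw [abs_neg]; exact hz i)
    linarith
  have t5 : ∀ i, -2 * (w i * (f i * ∑ j, F j j)) ≤ 3 * b * (w i ^ 2 + f i ^ 2) := by
    intro i
    have h1 : |∑ j, F j j| ≤ 3 * b := by
      refine (Finset.abs_sum_le_sum_abs _ _).trans ?_
      refine (Finset.sum_le_sum fun j _ => hF j j).trans (le_of_eq ?_)
      simp
    obtain ⟨h2, h3⟩ := abs_le.1 h1
    nlinarith [mul_nonneg (sub_nonneg.2 h3) (sq_nonneg (w i - f i)),
      mul_nonneg (by linarith : (0 : ℝ) ≤ (∑ j, F j j) + 3 * b) (sq_nonneg (w i + f i)),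
      mul_nonneg (sub_nonneg.2 h3) (sq_nonneg (w i + f i)),
      mul_nonneg (by linarith : (0 : ℝ) ≤ (∑ j, F j j) + 3 * b) (sq_nonneg (w i - f i))]
  unfold rhs
  have s1 : ∑ i, ∑ j, (-2 * W i j ^ 2 + 2 * (w j * (z i * W i j)) + 2 * (w j * (w i * F i j)) +
      2 * ((z j * z i - y j * y i) * W i j) - 2 * ((z j * f i + f j * z i) * W i j)) ≤
      ∑ i, ∑ j, (-W i j ^ 2 + 4 * m ^ 2 * w j ^ 2 + b * (w i ^ 2 + w j ^ 2) + 4 * ε ^ 2 +
        4 * m ^ 2 * (f i ^ 2 + f j ^ 2)) := by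
    refine Finset.sum_le_sum fun i _ => Finset.sum_le_sum fun j _ => ?_
    have h1 := t1 i j
    have h2 := t2 i j
    have h3 := t3 i j
    have h4 := t4 i j
    linarith
  have s2 : -2 * ∑ i, w i * (f i * ∑ j, F j j) ≤ ∑ i, 3 * b * (w i ^ 2 + f i ^ 2) := by
    rw [Finset.mul_sum]
    exact Finset.sum_le_sum fun i _ => t5 i
  simp only [Fin.sum_univ_three] at s1 s2 ⊢
  linarith

/-! ### Derivatives -/

theorem sps {f g : V → ℝ} (hf : SP f) (hg : SP g) : SP (fun x => f x - g x) where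
  smooth := hf.smooth.sub hg.smooth
  per := fun i x => by
    beta_reduce
    rw [hf.per i x, hg.per i x]

theorem spc (c : ℝ) {f : V → ℝ} (hf : SP f) : SP (fun x => c * f x) where
  smooth := contDiff_const.mul hf.smooth
  per := fun i x => by
    beta_reduce
    rw [hf.per i x]

theorem pd_add' {f g : V → ℝ} (hf : SP f) (hg : SP g) (j : Fin 3) (x : V) :
    pd j (fun y => f y + g y) x = pd j f x + pd j g x := by
  unfold pd
  have h : HasFDerivAt (fun y => f y + g y) _ x := (hf.diff x).hasFDerivAt.add (hg.diff x).hasFDerivAt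
  rw [h.fderiv]
  rfl

theorem pd_sub' {f g : V → ℝ} (hf : SP f) (hg : SP g) (j : Fin 3) (x : V) :
    pd j (fun y => f y - g y) x = pd j f x - pd j g x := by
  unfold pd
  have h : HasFDerivAt (fun y => f y - g y) _ x := (hf.diff x).hasFDerivAt.sub (hg.diff x).hasFDerivAt
  rw [h.fderiv]
  rfl

theorem pd_cm {f : V → ℝ} (hf : SP f) (c : ℝ) (j : Fin 3) (x : V) :
    pd j (fun y => c * f y) x = c * pd j f x := by
  unfold pd
  have h : HasFDerivAt (fun y => c * f y) _ x := (hf.diff x).hasFDerivAt.const_mul c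
  rw [h.fderiv]
  simp

theorem pd3 {a b c : V → ℝ} (ha : SP a) (hb : SP b) (hc : SP c) (j : Fin 3) (x : V) :
    pd j (fun y => a y * (b y * c y)) x =
      pd j a x * (b x * c x) + a x * (pd j b x * c x + b x * pd j c x) := by
  rw [pd_mul ha (hb.mul hc), pd_mul hb hc]
  ring

theorem int_cube_pd {f : V → ℝ} (hf : SP f) (j : Fin 3) : ∫ x in cube, pd j f x = 0 :=
  integral_pd (hf.smooth.of_le (by norm_cast)) hf.per j

/-! ### The identity -/

section
variable {w v z y : Fin 3 → V → ℝ} {φ q : V → ℝ}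

/-- the vector field whose divergence appears -/
noncomputable def GG (w v z y : Fin 3 → V → ℝ) (φ q : V → ℝ) (j : Fin 3) (x : V) : ℝ :=
  (∑ i, ((-2) * ((2 * w i x + v i x) * pd j (v i) x) + 2 * (w i x * (y j x * y i x)) +
    (-1) * ((w j x + v j x) * (v i x * v i x)) + (-2) * (w i x * (w j x * z i x)) +
    (-2) * (w i x * (v j x * v i x)) + 2 * (w i x * (pd i φ x * pd j φ x)) +
    (-1) * (w j x * (pd i φ x * pd i φ x)))) + 2 * (w j x * q x)

theorem GG_pd (hw : ∀ i, SP (w i)) (hv : ∀ i, SP (v i)) (hz : ∀ i, SP (z i)) (hy : ∀ i, SP (y i))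
    (hφ : SP φ) (hq : SP q) (j : Fin 3) :
    SP (GG w v z y φ q j) ∧ ∀ x, pd j (GG w v z y φ q j) x =
      dvg (fun i => w i x) (fun i => v i x) (fun i j => pd j (w i) x) (fun i j => pd j (v i) x)
        (fun i j => pd j (pd j (v i)) x) (fun i => z i x) (fun i j => pd j (z i) x)
        (fun i => y i x) (fun i j => pd j (y i) x) (fun i => pd i φ x)
        (fun i j => pd j (pd i φ) x) (q x) (fun i => pd i q x) j := by
  have hwv : ∀ i, SP fun x => w i x + v i x := fun i => (hw i).add (hv i)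
  have h2wv : ∀ i, SP fun x => 2 * w i x + v i x := fun i => (spc 2 (hw i)).add (hv i)
  have hf : ∀ i, SP (pd i φ) := fun i => hφ.pd i
  have s1 : ∀ i, SP fun x => (-2) * ((2 * w i x + v i x) * pd j (v i) x) := fun i =>
    spc _ ((h2wv i).mul ((hv i).pd j))
  have s2 : ∀ i, SP fun x => 2 * (w i x * (y j x * y i x)) := fun i =>
    spc _ ((hw i).mul ((hy j).mul (hy i)))
  have s3 : ∀ i, SP fun x => (-1) * ((w j x + v j x) * (v i x * v i x)) := fun i =>
    spc _ ((hwv j).mul ((hv i).mul (hv i)))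
  have s4 : ∀ i, SP fun x => (-2) * (w i x * (w j x * z i x)) := fun i =>
    spc _ ((hw i).mul ((hw j).mul (hz i)))
  have s5 : ∀ i, SP fun x => (-2) * (w i x * (v j x * v i x)) := fun i =>
    spc _ ((hw i).mul ((hv j).mul (hv i)))
  have s6 : ∀ i, SP fun x => 2 * (w i x * (pd i φ x * pd j φ x)) := fun i =>
    spc _ ((hw i).mul ((hf i).mul (hf j)))
  have s7 : ∀ i, SP fun x => (-1) * (w j x * (pd i φ x * pd i φ x)) := fun i =>
    spc _ ((hw j).mul ((hf i).mul (hf i)))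
  have s8 : SP fun x => 2 * (w j x * q x) := spc _ ((hw j).mul hq)
  have t2 := fun i => (s1 i).add (s2 i)
  have t3 := fun i => (t2 i).add (s3 i)
  have t4 := fun i => (t3 i).add (s4 i)
  have t5 := fun i => (t4 i).add (s5 i)
  have t6 := fun i => (t5 i).add (s6 i)
  have t7 := fun i => (t6 i).add (s7 i)
  have t8 := SP.sum (s := Finset.univ) fun i _ => t7 i
  refine ⟨t8.add s8, fun x => ?_⟩
  unfold GG
  rw [pd_add' t8 s8, pd_sum (fun i _ => t7 i), pd_cm ((hw j).mul hq), pd_mul (hw j) hq]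
  unfold dvg
  congr 1
  · refine Finset.sum_congr rfl fun i _ => ?_
    rw [pd_add' (t6 i) (s7 i), pd_add' (t5 i) (s6 i), pd_add' (t4 i) (s5 i),
      pd_add' (t3 i) (s4 i), pd_add' (t2 i) (s3 i), pd_add' (s1 i) (s2 i),
      pd_cm ((h2wv i).mul ((hv i).pd j)), pd_mul (h2wv i) ((hv i).pd j),
      pd_add' (spc 2 (hw i)) (hv i), pd_cm (hw i),
      pd_cm ((hw i).mul ((hy j).mul (hy i))), pd3 (hw i) (hy j) (hy i),
      pd_cm ((hwv j).mul ((hv i).mul (hv i))), pd3 (hwv j) (hv i) (hv i),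
      pd_add' (hw j) (hv j),
      pd_cm ((hw i).mul ((hw j).mul (hz i))), pd3 (hw i) (hw j) (hz i),
      pd_cm ((hw i).mul ((hv j).mul (hv i))), pd3 (hw i) (hv j) (hv i),
      pd_cm ((hw i).mul ((hf i).mul (hf j))), pd3 (hw i) (hf i) (hf j),
      pd_cm ((hw j).mul ((hf i).mul (hf i))), pd3 (hw j) (hf i) (hf i)]
    ring
  · ring

/-- The energy balance at a fixed time. -/
theorem bal (hw : ∀ i, SP (w i)) (hv : ∀ i, SP (v i)) (hz : ∀ i, SP (z i)) (hy : ∀ i, SP (y i))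
    (hφ : SP φ) (hq : SP q) (hvz : ∀ i x, v i x = z i x - pd i φ x)
    (hW : ∀ x, ∑ j, pd j (w j) x = 0) (hVd : ∀ x, ∑ j, pd j (v j) x = 0)
    {m ε b : ℝ} (hzm : ∀ i x, |z i x| ≤ m)
    (hd : ∀ i j x, |z i x * z j x - y i x * y j x| ≤ ε)
    (hF : ∀ i j x, |pd j (pd i φ) x| ≤ b) :
    ∫ x in cube, lhs (fun i => w i x) (fun i => v i x) (fun i j => pd j (w i) x)
        (fun i j => pd j (v i) x) (fun i j => pd j (pd j (v i)) x) (fun i => y i x)
        (fun i j => pd j (y i) x) (fun i => pd i q x) ≤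
      -(∑ i, ∑ j, ∫ x in cube, pd j (w i) x ^ 2) +
        (12 * m ^ 2 + 9 * b) * (∑ i, ∫ x in cube, w i x ^ 2) + 36 * ε ^ 2 +
        (24 * m ^ 2 + 3 * b) * ∑ i, ∫ x in cube, pd i φ x ^ 2 := by
  have hG := fun j => GG_pd hw hv hz hy hφ hq j
  have hVm : ∀ i j x, pd j (v i) x = pd j (z i) x - pd j (pd i φ) x := by
    intro i j x
    have e : v i = fun x => z i x - pd i φ x := funext fun x => hvz i x
    rw [e, pd_sub' (hz i) (hφ.pd i)]
  have e1 : ∀ x, lhs (fun i => w i x) (fun i => v i x) (fun i j => pd j (w i) x)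
        (fun i j => pd j (v i) x) (fun i j => pd j (pd j (v i)) x) (fun i => y i x)
        (fun i j => pd j (y i) x) (fun i => pd i q x) =
      rhs (fun i => w i x) (fun i j => pd j (w i) x) (fun i => z i x) (fun i => y i x)
        (fun i => pd i φ x) (fun i j => pd j (pd i φ) x) + ∑ j, pd j (GG w v z y φ q j) x := by
    intro x
    rw [alg_id _ _ _ _ _ (fun i => z i x) (fun i j => pd j (z i) x) _ _ (fun i => pd i φ x)
      (fun i j => pd j (pd i φ) x) (q x) _ (fun i => hvz i x) (fun i j => hVm i j x)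
      (fun i j => congrFun (pd_comm hφ j i) x) (hW x) (hVd x)]
    congr 1
    exact Finset.sum_congr rfl fun j _ => ((hG j).2 x).symm
  have c1 : ∀ i, Continuous (w i) := fun i => (hw i).cont
  have c2 : ∀ i, Continuous (z i) := fun i => (hz i).cont
  have c3 : ∀ i, Continuous (y i) := fun i => (hy i).cont
  have c4 : ∀ i j, Continuous (pd j (w i)) := fun i j => ((hw i).pd j).cont
  have c5 : ∀ i, Continuous (pd i φ) := fun i => (hφ.pd i).cont
  have c6 : ∀ i j, Continuous (pd j (pd i φ)) := fun i j => ((hφ.pd i).pd j).cont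
  have cr : Continuous fun x => rhs (fun i => w i x) (fun i j => pd j (w i) x) (fun i => z i x)
      (fun i => y i x) (fun i => pd i φ x) (fun i j => pd j (pd i φ) x) := by
    unfold rhs
    fun_prop
  simp_rw [e1]
  rw [integral_add (integrableOn_cube cr) (integrable_finsetSum _ fun j _ =>
    ((hG j).1.pd j).int), integral_finsetSum _ fun j _ => ((hG j).1.pd j).int,
    Finset.sum_congr rfl fun j _ => int_cube_pd (hG j).1 j, Finset.sum_const_zero, add_zero]
  have i1 : ∀ i j, IntegrableOn (fun x => pd j (w i) x ^ 2) cube := fun i j =>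
    integrableOn_cube ((c4 i j).pow 2)
  have i2 : ∀ i, IntegrableOn (fun x => w i x ^ 2) cube := fun i =>
    integrableOn_cube ((c1 i).pow 2)
  have i3 : ∀ i, IntegrableOn (fun x => pd i φ x ^ 2) cube := fun i =>
    integrableOn_cube ((c5 i).pow 2)
  have e2 : -(∑ i, ∑ j, ∫ x in cube, pd j (w i) x ^ 2) +
        (12 * m ^ 2 + 9 * b) * (∑ i, ∫ x in cube, w i x ^ 2) + 36 * ε ^ 2 +
        (24 * m ^ 2 + 3 * b) * (∑ i, ∫ x in cube, pd i φ x ^ 2) =
      ∫ x in cube, (-(∑ i, ∑ j, pd j (w i) x ^ 2) + (12 * m ^ 2 + 9 * b) * (∑ i, w i x ^ 2) +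
        36 * ε ^ 2 + (24 * m ^ 2 + 3 * b) * ∑ i, pd i φ x ^ 2) := by
    have q1 : IntegrableOn (fun x => -(∑ i, ∑ j, pd j (w i) x ^ 2)) cube :=
      integrableOn_cube (by fun_prop)
    have q2 : IntegrableOn (fun x => (12 * m ^ 2 + 9 * b) * (∑ i, w i x ^ 2)) cube :=
      integrableOn_cube (by fun_prop)
    have q3 : IntegrableOn (fun _ : V => 36 * ε ^ 2) cube := integrableOn_cube (by fun_prop)
    have q4 : IntegrableOn (fun x => (24 * m ^ 2 + 3 * b) * ∑ i, pd i φ x ^ 2) cube :=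
      integrableOn_cube (by fun_prop)
    have q12 : IntegrableOn (fun x => -(∑ i, ∑ j, pd j (w i) x ^ 2) +
        (12 * m ^ 2 + 9 * b) * (∑ i, w i x ^ 2)) cube := q1.add q2
    have q123 : IntegrableOn (fun x => -(∑ i, ∑ j, pd j (w i) x ^ 2) +
        (12 * m ^ 2 + 9 * b) * (∑ i, w i x ^ 2) + 36 * ε ^ 2) cube := q12.add q3
    rw [integral_add q123 q4, integral_add q12 q3, integral_add q1 q2,
      integral_neg, integral_const_mul (12 * m ^ 2 + 9 * b), integral_const_mul (24 * m ^ 2 + 3 * b),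
      integral_finsetSum _ (fun i _ => integrable_finsetSum _ fun j _ => i1 i j),
      integral_finsetSum _ (fun i _ => i2 i), integral_finsetSum _ (fun i _ => i3 i)]
    congr 2
    · congr 2
      refine Finset.sum_congr rfl fun i _ => ?_
      rw [integral_finsetSum _ fun j _ => i1 i j]
    · rw [setIntegral_const, Measure.real, volume_cube]
      simp
  rw [e2]
  refine setIntegral_mono (integrableOn_cube cr) (integrableOn_cube (by fun_prop)) fun x => ?_
  exact rhs_le _ _ _ _ _ _ (fun i => hzm i x) (fun i j => hd i j x) fun i j => hF i j x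

end

end Pool.Agent.Helper33S
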