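import Pool.Agent.Helper33S.Crit

/-!
The count of points near which the velocity is large by the dissipation of a part of the velocity
(helper33).
-/

set_option autoImplicit false

open MeasureTheory Set Metric
open scoped ContDiff NNReal ENNReal

namespace Pool.Agent.Helper33S

open H459R3.NS W221.NS Pool.Agent.Y8 Pool.Agent.Y590.NS Pool.Agent.Y8.FB
open Pool.Agent.Y46.NS (X_cont)

theorem t_CNT2 (hcrit : S_CRIT4) (hwfl : S_WFL) : ∃ β C : ℝ, 0 < β ∧ 0 < C ∧
    ∀ E r : ℝ, 0 < r → (1 + E ^ 2) * r ≤ 1 → ∃ Q η : ℝ, 0 < η ∧ η ≤ r ^ 2 / 64 ∧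
    ∀ (T D : ℝ) (G : Set ℝ) (u : ℝ → V → V) (p : ℝ → V → ℝ), Turb 1 T E D G u p →
    ∀ s : ℝ, r ^ 2 < s → s < T → ∀ S : Finset V, (∀ x ∈ S, x ∈ cube) →
      (∀ x ∈ S, ∀ y ∈ S, x ≠ y → r ≤ ‖x - y‖) →
    ∀ (ta : V → ℝ) (ya : V → V), (∀ x ∈ S, ta x ∈ G ∧ s - η < ta x ∧ ta x < s ∧
      ‖ya x - x‖ < η ∧ Q < ‖u (ta x) (ya x)‖) →
    ∀ (H : Set ℝ) (w : ℝ → V → V), IsOpen H → H ⊆ G → G ∩ Ioo (s - r ^ 2) s ⊆ H →
      ContDiffOn ℝ ∞ (fun z : ℝ × V => w z.1 z.2) (H ×ˢ univ) → (∀ t ∈ H, Per (w t)) →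
    ∀ b : ℝ, b * r ^ 4 ≤ β →
      (∀ t ∈ H ∩ Ioo (s - r ^ 2) s, ∀ x, gsq (u t) x ≤ 2 * gsq (w t) x + b) →
      IntegrableOn (fun t => enstrophy (w t)) (Ioo (s - r ^ 2) s) →
        S.card * r ≤ C * ∫ t in Ioo (s - r ^ 2) s, enstrophy (w t) := by
  obtain ⟨ε, hε, hcrit⟩ := hcrit
  obtain ⟨K₀, _, hwfl⟩ := hwfl
  obtain ⟨K, hK, hmo⟩ := mo_bd
  obtain ⟨CP, hCP, hper⟩ := per_ball
  refine ⟨ε / 8192, 131072 / ε * (CP * (K + 11) ^ 3), by positivity, by positivity, ?_⟩
  intro E r hr hrE
  have hE2 : 0 ≤ E ^ 2 := sq_nonneg E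
  have hr1 : r ≤ 1 := by nlinarith [mul_nonneg hE2 hr.le]
  have hr2 : 0 < r ^ 2 := by positivity
  obtain ⟨C', hC', hwfl⟩ := hwfl E r hr hr1
  obtain ⟨Q, hQ0, hcrit⟩ := hcrit E r (K₀ * |E| / √(r ^ 3) + 1) hr hr1
  set B := K * |E| / √(r ^ 3) with hBd
  have hB0 : 0 ≤ B := by positivity
  set η := min (r ^ 2 / 64) (r / (16 * (B + 1))) with hη
  have hη0 : 0 < η := by positivity
  have hη1 : η ≤ r ^ 2 / 64 := min_le_left _ _
  have hη2 : B * η ≤ r / 16 := by
    calc B * η ≤ (B + 1) * (r / (16 * (B + 1))) :=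
          mul_le_mul (by linarith) (min_le_right _ _) hη0.le (by positivity)
      _ = r / 16 := by field_simp
  have hη3 : η ≤ r / 16 := by
    refine hη1.trans ?_
    nlinarith
  refine ⟨Q, η, hη0, hη1, ?_⟩
  intro T D G u p h s hs1 hs2 S hSc hsep ta ya hS H w hHo hHG hGH hw hwp b hb hgb hwi
  have hsT : s ∈ Ioo 0 T := ⟨by linarith, hs2⟩
  have ht0T : ∀ x ∈ S, ta x ∈ Ioo 0 T := fun x hx => h.subG (hS x hx).1
  obtain ⟨X, Y, hfl⟩ := hwfl T D G u p h s hsT
  have hsub : Ioo (s - r ^ 2) s ⊆ Ioo 0 T := fun t ht => ⟨by linarith [ht.1], by linarith [ht.2]⟩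
  have hws : ∀ t ∈ H, ContDiff ℝ ∞ (w t) := fun t ht => sl_sm hw ht
  -- the sets of labels
  set L : V → Set V := fun z => (X (ta z)) ⁻¹' (ball (ya z) (r / 4)) with hL
  have hLmem : ∀ z y, y ∈ L z ↔ ‖X (ta z) y - ya z‖ < r / 4 := by
    intro z y
    rw [hL]
    simp only [mem_preimage, mem_ball, dist_eq_norm]
  have hLmeas : ∀ z ∈ S, MeasurableSet (L z) := fun z hz =>
    (X_cont hfl (ht0T z hz)).measurable measurableSet_ball
  have hLvol : ∀ z ∈ S, volume (L z) = ENNReal.ofReal ((r / 2) ^ 3) := by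
    intro z hz
    have h1 := Measure.map_apply (μ := (volume : Measure V))
      (X_cont hfl (ht0T z hz)).measurable (measurableSet_ball (x := ya z) (ε := r / 4))
    rw [hfl.meas (ta z) (ht0T z hz)] at h1
    rw [hL]
    simp only
    rw [← h1, vol_ball _ (by positivity)]
    congr 2
    ring
  have hspeed : ∀ y : V, ∀ a ∈ Ioo 0 T, ∀ b ∈ Ioo 0 T, ‖X b y - X a y‖ ≤ B * |b - a| :=
    fun y a ha b hb => fluid_speed h (fun τ hτ x => hmo E (u τ) (h.spv hτ) (h.energy_le τ hτ) r x
      hr hr1) (fluid_of_path h (hfl.path y)) ha hb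
  have hdisj : (S : Set V).PairwiseDisjoint L := by
    intro z hz w hw hzw
    rw [Function.onFun, Set.disjoint_left]
    intro y hy hy'
    have h6 := (hLmem z y).1 hy
    have h7 := (hLmem w y).1 hy'
    have h8 := hsep z hz w hw hzw
    obtain ⟨-, a1, a2, a3, -⟩ := hS z hz
    obtain ⟨-, b1, b2, b3, -⟩ := hS w hw
    have h9 := hspeed y _ (ht0T w hw) _ (ht0T z hz)
    have h10 : |ta z - ta w| ≤ η := by
      rw [abs_le]
      constructor <;> linarith
    have h11 : ‖X (ta z) y - X (ta w) y‖ ≤ r / 16 :=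
      h9.trans ((mul_le_mul_of_nonneg_left h10 hB0).trans hη2)
    have h4 : ‖z - w‖ ≤ ‖ya z - z‖ + ‖X (ta z) y - ya z‖ + ‖X (ta z) y - X (ta w) y‖ +
        ‖X (ta w) y - ya w‖ + ‖ya w - w‖ := by
      have e : z - w = -(ya z - z) - (X (ta z) y - ya z) + (X (ta z) y - X (ta w) y) +
          (X (ta w) y - ya w) + (ya w - w) := by abel
      rw [e]
      refine (norm_add_le _ _).trans (add_le_add_left ?_ _)
      refine (norm_add_le _ _).trans (add_le_add_left ?_ _)
      refine (norm_add_le _ _).trans (add_le_add_left ?_ _)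
      refine (norm_sub_le _ _).trans (add_le_add_left ?_ _)
      rw [norm_neg]
    linarith
  set QQ : Set V := ⋃ z ∈ S, L z with hQ
  have hQm : MeasurableSet QQ := Finset.measurableSet_biUnion _ hLmeas
  have hXc : ContinuousOn (fun z : ℝ × V => X z.1 z.2) (H ×ˢ univ) :=
    hfl.cont.mono (Set.prod_mono (hHG.trans h.subG) (le_refl _))
  obtain ⟨g, hg⟩ : ∃ g : ℝ × V → ℝ≥0∞, g = fun q : ℝ × V =>
      H.indicator (fun t => ENNReal.ofReal (B2 (X t q.2) (8 * r) (w t))) q.1 := ⟨_, rfl⟩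
  have hgm : Measurable g := by
    rw [hg]
    exact meas_B2 hHo hw hXc (8 * r)
  obtain ⟨Ψ, hΨ⟩ : ∃ Ψ : V → ℝ≥0∞, Ψ = fun y => ∫⁻ t in Ioo (s - r ^ 2) s, g (t, y) := ⟨_, rfl⟩
  have hΨm : Measurable Ψ := by
    rw [hΨ]
    exact hgm.lintegral_prod_left'
  have haeG : ∀ᵐ τ ∂(volume.restrict (Ioo (s - r ^ 2) s)), τ ∈ G :=
    aeT h (by linarith) hs2.le
  have hB2nn : ∀ (a : V) (ρ : ℝ) (w : V → V), 0 ≤ B2 a ρ w := fun a ρ w =>
    integral_nonneg fun z => gsq_nn w z
  have hincl : ∀ y ∈ QQ, ENNReal.ofReal (ε / 2 * r) ≤ 2 * Ψ y := by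
    intro y hy
    rw [hQ, mem_iUnion₂] at hy
    obtain ⟨z, hz, hyz⟩ := hy
    have hye : ε * r ≤ ∫ t in Ioo (s - r ^ 2) s, B2 (X t y) (8 * r) (u t) := by
      obtain ⟨a0, a1, a2, a3, a4⟩ := hS z hz
      refine hcrit T D G u p h s hs1 hs2 (fun t => X t y) (fun t => Y t y) C'
        (hfl.path y) (ta z) a0 (by linarith) a2 (ya z) ?_ a4
      rw [mem_ball, dist_eq_norm, norm_sub_rev]
      exact (hLmem z y).1 hyz
    have hint : IntegrableOn (fun t => B2 (X t y) (8 * r) (u t)) (Ioo (s - r ^ 2) s) := by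
      by_contra hc
      rw [integral_undef hc] at hye
      have : 0 < ε * r := by positivity
      linarith
    have hpt : ∀ᵐ t ∂(volume.restrict (Ioo (s - r ^ 2) s)),
        ENNReal.ofReal (B2 (X t y) (8 * r) (u t)) ≤
          2 * g (t, y) + ENNReal.ofReal (b * (2 * (8 * r)) ^ 3) := by
      filter_upwards [haeG, ae_restrict_mem measurableSet_Ioo] with t ht ht2
      have htH : t ∈ H := hGH ⟨ht, ht2⟩
      rw [hg]
      simp only [indicator_of_mem htH]
      have i1 := ballint (gsq_sm (h.spv ht).1).continuous (X t y) (8 * r)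
      have i2 := (ballint (gsq_sm (hws t htH)).continuous (X t y) (8 * r)).const_mul 2
      have i3 : IntegrableOn (fun _ : V => b) (ball (X t y) (8 * r)) :=
        ballint continuous_const _ _
      have i23 : IntegrableOn (fun x => 2 * gsq (w t) x + b) (ball (X t y) (8 * r)) := i2.add i3
      have k1 : B2 (X t y) (8 * r) (u t) ≤ 2 * B2 (X t y) (8 * r) (w t) +
          b * (2 * (8 * r)) ^ 3 := by
        unfold B2
        refine (setIntegral_mono i1 i23 fun x => hgb t ⟨htH, ht2⟩ x).trans (le_of_eq ?_)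
        rw [integral_add i2 i3, integral_const_mul, setIntegral_const, Measure.real,
          vol_ball _ (by positivity), ENNReal.toReal_ofReal (by positivity), smul_eq_mul]
        ring
      refine (ENNReal.ofReal_le_ofReal k1).trans (ENNReal.ofReal_add_le.trans ?_)
      rw [ENNReal.ofReal_mul (by norm_num), ENNReal.ofReal_ofNat]
    have k2 : ENNReal.ofReal (ε * r) ≤ 2 * Ψ y + ENNReal.ofReal (ε / 2 * r) := by
      calc ENNReal.ofReal (ε * r) ≤
            ENNReal.ofReal (∫ t in Ioo (s - r ^ 2) s, B2 (X t y) (8 * r) (u t)) :=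
            ENNReal.ofReal_le_ofReal hye
        _ = ∫⁻ t in Ioo (s - r ^ 2) s, ENNReal.ofReal (B2 (X t y) (8 * r) (u t)) :=
            ofReal_integral_eq_lintegral_ofReal hint
              (ae_of_all _ fun t => hB2nn _ _ _)
        _ ≤ ∫⁻ t in Ioo (s - r ^ 2) s,
              (2 * g (t, y) + ENNReal.ofReal (b * (2 * (8 * r)) ^ 3)) := lintegral_mono_ae hpt
        _ = 2 * Ψ y + ENNReal.ofReal (b * (2 * (8 * r)) ^ 3) * ENNReal.ofReal (r ^ 2) := by
            rw [lintegral_add_right _ measurable_const, lintegral_const_mul' _ _ (by norm_num),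
              setLIntegral_const, Real.volume_Ioo, hΨ]
            congr 3
            ring
        _ ≤ 2 * Ψ y + ENNReal.ofReal (ε / 2 * r) := by
            rw [← ENNReal.ofReal_mul' hr2.le]
            refine add_le_add_right (ENNReal.ofReal_le_ofReal ?_) _
            have : b * (2 * (8 * r)) ^ 3 * r ^ 2 = 4096 * (b * r ^ 4) * r := by ring
            rw [this]
            have := mul_le_mul_of_nonneg_right (mul_le_mul_of_nonneg_left hb
              (by norm_num : (0 : ℝ) ≤ 4096)) hr.le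
            linarith
    have k3 : ENNReal.ofReal (ε * r) = ENNReal.ofReal (ε / 2 * r) + ENNReal.ofReal (ε / 2 * r) := by
      rw [← ENNReal.ofReal_add (by positivity) (by positivity)]
      congr 1
      ring
    rw [k3] at k2
    exact ENNReal.le_of_add_le_add_right ENNReal.ofReal_ne_top k2
  -- the sum of the volumes
  have h1 : ENNReal.ofReal (ε / 2 * r) * volume QQ ≤ 2 * ∫⁻ y in QQ, Ψ y := by
    rw [← setLIntegral_const, ← lintegral_const_mul' _ _ (by norm_num)]
    exact setLIntegral_mono' hQm hincl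
  have hvolQ : volume QQ = ENNReal.ofReal (S.card * (r / 2) ^ 3) := by
    rw [hQ, measure_biUnion_finset hdisj hLmeas, Finset.sum_congr rfl hLvol, Finset.sum_const,
      nsmul_eq_mul, ENNReal.ofReal_mul (Nat.cast_nonneg _), ENNReal.ofReal_natCast]
  have hton : ∫⁻ y in QQ, Ψ y =
      ∫⁻ t in Ioo (s - r ^ 2) s, ∫⁻ y in QQ, g (t, y) := by
    rw [hΨ]
    exact lintegral_lintegral_swap (f := fun y t => g (t, y))
      (hgm.comp measurable_swap).aemeasurable
  set A := CP * (K + 11) ^ 3 with hA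
  have hA0 : 0 < A := by positivity
  have hslice : ∀ t ∈ Ioo (s - r ^ 2) s, ∫⁻ y in QQ, g (t, y) ≤
      ENNReal.ofReal ((2 * (8 * r)) ^ 3) * ENNReal.ofReal (A * enstrophy (w t)) := by
    intro t ht
    by_cases htH : t ∈ H
    · have e : ∀ y, g (t, y) = ∫⁻ x in ball (X t y) (8 * r), ENNReal.ofReal (gsq (w t) x) := by
        intro y
        rw [hg]
        simp only [indicator_of_mem htH]
        unfold B2
        rw [ofReal_integral_eq_lintegral_ofReal
          (ballint (gsq_sm (hws t htH)).continuous _ _) (ae_of_all _ fun z => gsq_nn _ z)]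
      simp_rw [e]
      refine (slice_le (X_cont hfl (hsub ht)) (hfl.meas t (hsub ht)) hQm
        (measurableSet_ball (x := (0 : V)) (ε := K + 10)) (by positivity) ?_
        (gsq_sm (hws t htH)).continuous.measurable.ennreal_ofReal).trans ?_
      · intro y hy x hx
        rw [hQ, mem_iUnion₂] at hy
        obtain ⟨z, hz, hyz⟩ := hy
        have h2 := (hLmem z y).1 hyz
        obtain ⟨-, a1, a2, a3, -⟩ := hS z hz
        have h4 := hspeed y _ (ht0T z hz) _ (hsub ht)
        have h1 : |t - ta z| < r ^ 2 := by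
          rw [abs_lt]
          constructor
          · linarith [ht.1]
          · linarith [ht.2]
        have hrs : √(r ^ 3) = r * √r := by
          rw [show r ^ 3 = r ^ 2 * r by ring, Real.sqrt_mul (by positivity), Real.sqrt_sq hr.le]
        have hsr : 0 < √r := Real.sqrt_pos.2 hr
        have hEr : |E| * √r ≤ 1 := by
          rw [← abs_of_pos hsr, ← abs_mul, abs_le_one_iff_mul_self_le_one]
          have : E * √r * (E * √r) = E ^ 2 * (√r) ^ 2 := by ring
          rw [this, Real.sq_sqrt hr.le]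
          nlinarith
        have h5 : B * |t - ta z| ≤ K := by
          calc B * |t - ta z| ≤ K * |E| / √(r ^ 3) * r ^ 2 := by
                rw [hBd]
                gcongr
            _ = K * (|E| * √r) := by
                rw [hrs]
                have : r ^ 2 = r * (√r * √r) := by rw [Real.mul_self_sqrt hr.le]; ring
                rw [this]
                field_simp
            _ ≤ K * 1 := by gcongr
            _ = K := mul_one K
        rw [mem_ball, dist_zero_right]
        have h6 := cube_norm (hSc z hz)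
        have e : x = (x - X t y) + (X t y - X (ta z) y) + (X (ta z) y - ya z) + (ya z - z) + z := by
          abel
        have h7 : ‖x - X t y‖ < 8 * r := by rwa [dist_eq_norm] at hx
        calc ‖x‖ = ‖(x - X t y) + (X t y - X (ta z) y) + (X (ta z) y - ya z) + (ya z - z) + z‖ := by
              rw [← e]
          _ ≤ ‖x - X t y‖ + ‖X t y - X (ta z) y‖ + ‖X (ta z) y - ya z‖ + ‖ya z - z‖ + ‖z‖ := by
            refine (norm_add_le _ _).trans (add_le_add_left ?_ _)
            refine (norm_add_le _ _).trans (add_le_add_left ?_ _)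
            refine (norm_add_le _ _).trans (add_le_add_left ?_ _)
            exact norm_add_le _ _
          _ < K + 10 := by linarith
      · refine mul_le_mul_right ?_ _
        refine (hper (gsq (w t)) (gsq_sm (hws t htH)).continuous (gsq_per (hwp t htH))
          (gsq_nn (w t)) (K + 10) (by positivity)).trans ?_
        rw [← enst_eq (hws t htH)]
        refine ENNReal.ofReal_le_ofReal (le_of_eq ?_)
        rw [hA]
        ring
    · have e : ∀ y, g (t, y) = 0 := by
        intro y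
        rw [hg]
        simp only [indicator_of_notMem htH]
      simp [e]
  have h2 : ∫⁻ t in Ioo (s - r ^ 2) s, ∫⁻ y in QQ, g (t, y) ≤
      ENNReal.ofReal ((2 * (8 * r)) ^ 3) *
        ENNReal.ofReal (∫ t in Ioo (s - r ^ 2) s, A * enstrophy (w t)) := by
    rw [ofReal_integral_eq_lintegral_ofReal (hwi.const_mul A)
      (ae_of_all _ fun t => mul_nonneg hA0.le (enst_nn _)),
      ← lintegral_const_mul' _ _ ENNReal.ofReal_ne_top]
    exact setLIntegral_mono' measurableSet_Ioo hslice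
  set I := ∫ t in Ioo (s - r ^ 2) s, enstrophy (w t) with hI
  have hI0 : 0 ≤ I := integral_nonneg fun t => enst_nn _
  rw [integral_const_mul] at h2
  have h3 : ENNReal.ofReal (ε / 2 * r) * ENNReal.ofReal (S.card * (r / 2) ^ 3) ≤
      2 * (ENNReal.ofReal ((2 * (8 * r)) ^ 3) * ENNReal.ofReal (A * I)) := by
    rw [← hvolQ]
    exact h1.trans (mul_le_mul_right (hton.le.trans h2) _)
  rw [← ENNReal.ofReal_mul (by positivity), ← ENNReal.ofReal_mul (by positivity),
    ← ENNReal.ofReal_ofNat 2, ← ENNReal.ofReal_mul (by norm_num),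
    ENNReal.ofReal_le_ofReal_iff (by positivity)] at h3
  have h4 : (S.card : ℝ) * r * r ^ 3 ≤ 131072 / ε * A * I * r ^ 3 := by
    have e1 : (S.card : ℝ) * r * r ^ 3 = 16 / ε * (ε / 2 * r * (S.card * (r / 2) ^ 3)) := by
      field_simp
      norm_num
    have e2 : 131072 / ε * A * I * r ^ 3 = 16 / ε * (2 * ((2 * (8 * r)) ^ 3 * (A * I))) := by
      ring
    rw [e1, e2]
    exact mul_le_mul_of_nonneg_left h3 (by positivity)
  exact le_of_mul_le_mul_right h4 (by positivity)

end Pool.Agent.Helper33S
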