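import Pool.Agent.Y8.FB.Past
import Pool.Agent.W382.ME.COUNT2

/-!
The criterion for large velocities near the path of a particle, with an explicit bound
(helper33); the proof of `Pool.Agent.Y574.NS.t_CRIT3` with the size of the bound.
-/

set_option autoImplicit false

open MeasureTheory Set Metric
open scoped ContDiff

namespace Pool.Agent.Helper33S

open H459R3.NS W221.NS Pool.Agent.Y8 Pool.Agent.Y458.NS
open Pool.Agent.Y574.NS (B2_frv8)

/-- the local energy in the moving frame -/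
theorem A2_bdp : ∃ C₄ : ℝ, 0 < C₄ ∧ ∀ (u : V → V), SPV u → ∀ (E M r : ℝ), energy u ≤ E ^ 2 →
    0 < r → r ≤ 1 → ∀ a c : V, (∀ i, |c i| ≤ M) →
    A2 0 4 (fun z i => r * (u (a + r • z) i - c i)) ≤
      2 * r ^ 2 * ((r ^ 3)⁻¹ * (C₄ * E ^ 2) + 1536 * M ^ 2) := by
  obtain ⟨C₄, hC₄, hb⟩ := ball_le 4
  refine ⟨C₄, hC₄, ?_⟩
  intro u hu E M r hE hr hr1 a c hc
  have hv := hu.1
  have hcn : Continuous (nsq u) := W382.ME.nsq_cont hv
  unfold A2
  have hcont : Continuous (fun z => nsq u (a + r • z)) := hcn.comp (by fun_prop)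
  have hpt : ∀ z, nsq (fun z i => r * (u (a + r • z) i - c i)) z
      ≤ 2 * r ^ 2 * (nsq u (a + r • z) + 3 * M ^ 2) := by
    intro z
    unfold nsq
    simp only [Fin.sum_univ_three]
    have hci : ∀ i, c i ^ 2 ≤ M ^ 2 := fun i => by
      rw [← sq_abs (c i)]
      exact pow_le_pow_left₀ (abs_nonneg _) (hc i) 2
    have key : ∀ i, (r * (u (a + r • z) i - c i)) ^ 2 ≤
        2 * r ^ 2 * (u (a + r • z) i ^ 2 + M ^ 2) := by
      intro i
      have e1 : (u (a + r • z) i - c i) ^ 2 ≤ 2 * (u (a + r • z) i ^ 2 + M ^ 2) := by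
        nlinarith [sq_nonneg (u (a + r • z) i + c i), hci i]
      calc (r * (u (a + r • z) i - c i)) ^ 2 = r ^ 2 * (u (a + r • z) i - c i) ^ 2 := by ring
        _ ≤ r ^ 2 * (2 * (u (a + r • z) i ^ 2 + M ^ 2)) := by gcongr
        _ = _ := by ring
    linarith [key 0, key 1, key 2]
  have hcd : Continuous (fun z : V => nsq (fun z i => r * (u (a + r • z) i - c i)) z) := by
    unfold nsq
    refine continuous_finsetSum _ fun i _ => ?_
    have : Continuous (fun y => u y i) := (contDiff_pi.1 hv i).continuous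
    have h2 : Continuous (fun y : V => u (a + r • y) i) := this.comp (by fun_prop)
    fun_prop
  have hvol : volume.real (ball (0 : V) 4) = 512 := by
    rw [Measure.real, Real.volume_pi_ball _ (by norm_num)]
    simp
    norm_num
  have hball : ∫ y in ball a (r * 4), nsq u y ≤ C₄ * E ^ 2 := by
    have h1 : ∫ y in ball a (r * 4), nsq u y ≤ ∫ y in ball a 4, nsq u y :=
      setIntegral_mono_set (ballint hcn _ _) (ae_of_all _ fun z => nsq_nn _ z)
        (ball_subset_ball (by linarith)).eventuallyLE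
    have h2 := hb (nsq u) hcn (nsq_per hu.2) (nsq_nn u) a
    rw [← energy_eq hv] at h2
    exact h1.trans (h2.trans (mul_le_mul_of_nonneg_left hE hC₄.le))
  calc ∫ z in ball (0 : V) 4, nsq (fun z i => r * (u (a + r • z) i - c i)) z
      ≤ ∫ z in ball (0 : V) 4, 2 * r ^ 2 * (nsq u (a + r • z) + 3 * M ^ 2) := by
        apply setIntegral_mono_on (ballint hcd _ _) (ballint (by fun_prop) _ _) measurableSet_ball
        exact fun z _ => hpt z
    _ = 2 * r ^ 2 * ((∫ z in ball (0 : V) 4, nsq u (a + r • z)) + 512 * (3 * M ^ 2)) := by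
        rw [integral_const_mul, integral_add (ballint hcont _ _) (ballint continuous_const _ _),
          setIntegral_const, hvol, smul_eq_mul]
    _ ≤ 2 * r ^ 2 * ((r ^ 3)⁻¹ * (C₄ * E ^ 2) + 512 * (3 * M ^ 2)) := by
        rw [W382.ME.cov _ _ hr]
        gcongr
    _ = _ := by ring

/-- the criterion with an explicit bound -/
def S_CRIT4 : Prop := ∃ ε : ℝ, 0 < ε ∧ ∀ E r B : ℝ, 0 < r → r ≤ 1 → ∃ Q : ℝ, 0 ≤ Q ∧
  ∀ (T D : ℝ) (G : Set ℝ) (u : ℝ → V → V) (p : ℝ → V → ℝ), Turb 1 T E D G u p →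
    ∀ s : ℝ, r ^ 2 < s → s < T → ∀ (X Y : ℝ → V) (C : ℝ), FPath T r B C G u p X Y →
      ∀ τ ∈ G, s - r ^ 2 / 16 < τ → τ < s → ∀ y ∈ ball (X τ) (r / 4), Q < ‖u τ y‖ →
        ε * r ≤ ∫ t in Ioo (s - r ^ 2) s, B2 (X t) (8 * r) (u t)

theorem t_CRIT4 (hF : S_WFR2) (hL : S_WLOCAL) : S_CRIT4 := by
  obtain ⟨ε₁, C₁, hε₁, hC₁, hloc⟩ := hL
  obtain ⟨C₄, hC₄, hA2⟩ := A2_bdp
  refine ⟨ε₁, hε₁, ?_⟩
  intro E r B hr hr1
  obtain ⟨A, hAd⟩ : ∃ A : ℝ, A = 2 * r ^ 2 * ((r ^ 3)⁻¹ * (C₄ * E ^ 2) + 1536 * B ^ 2) := ⟨_, rfl⟩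
  obtain ⟨C₂, hC₂⟩ : ∃ C₂, C₂ = C₁ * (1 + √A) := ⟨_, rfl⟩
  have hC₂0 : 0 ≤ C₂ := by rw [hC₂]; positivity
  refine ⟨C₂ / r + |B|, by positivity, ?_⟩
  intro T D G u p h s hs0 hsT X Y C hX τ₀ hτ₀ hτ1 hτ2 y₀ hy₀ hbig
  by_contra hlt
  rw [not_le] at hlt
  have hr2 : 0 < r ^ 2 := by positivity
  have hs00 : 0 < s := by linarith
  have hB0 : 0 ≤ B := (norm_nonneg _).trans (hX.bd s ⟨hs00, hsT⟩)
  obtain ⟨H, hH⟩ : ∃ H : Set ℝ, H = {t | t ∈ Ioo (-1 : ℝ) 0 ∧ s + r ^ 2 * t ∈ G} := ⟨_, rfl⟩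
  obtain ⟨k, hwl⟩ : ∃ k, WL2 H (frv r s X u) (frq r s X p) k := by
    rw [hH]
    exact hF T E D G u p h r s hr hs0 hsT X Y B C hX
  have hXc : ContinuousOn X G := hX.sm.continuousOn
  -- integrability
  obtain ⟨F, hFd⟩ : ∃ F : ℝ → ℝ, F = G.indicator (fun τ => B2 (X τ) (8 * r) (u τ)) := ⟨_, rfl⟩
  have hFi : Integrable F := by
    rw [hFd]
    exact (integrable_indicator_iff h.openG.measurableSet).2 (B2_mov_int h hXc _)
  have hFi2 : Integrable (fun t => r * F (s + r ^ 2 * t)) :=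
    ((hFi.comp_add_left s).comp_mul_left' hr2.ne').const_mul r
  have haeH : ∀ᵐ t ∂(volume.restrict (Ioo (-1 : ℝ) 0)), t ∈ H := by
    rw [ae_restrict_iff' measurableSet_Ioo]
    have h1 : ∀ᵐ t : ℝ, t ∉ Ioo (-1 : ℝ) 0 \ H := measure_eq_zero_iff_ae_notMem.1 hwl.fullH
    filter_upwards [h1] with t ht htJ
    by_contra hc
    exact ht ⟨htJ, hc⟩
  have hae1 : (fun t => r * F (s + r ^ 2 * t)) =ᵐ[volume.restrict (Ioo (-1 : ℝ) 0)]
      (fun t => B2 0 8 (frv r s X u t)) := by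
    filter_upwards [haeH] with t ht
    rw [hH] at ht
    rw [hFd, indicator_of_mem ht.2, B2_frv8 hr (sl_sm h.smooth_u ht.2)]
  have hae2 : (fun t => B2 0 8 (frv r s X u t)) =ᵐ[volume.restrict (Ioo (-1 : ℝ) 0)]
      (fun t => r * B2 (X (s + r ^ 2 * t)) (8 * r) (u (s + r ^ 2 * t))) := by
    filter_upwards [haeH] with t ht
    rw [hH] at ht
    exact B2_frv8 hr (sl_sm h.smooth_u ht.2)
  have hΓi : IntegrableOn (fun t => B2 0 8 (frv r s X u t)) (Ioo (-1) 0) :=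
    (hFi2.integrableOn (s := Ioo (-1 : ℝ) 0)).congr hae1
  have hΓe : ∫ t in Ioo (-1 : ℝ) 0, B2 0 8 (frv r s X u t) ≤ ε₁ := by
    rw [integral_congr_ae hae2, integral_const_mul]
    have e1 : ∫ t in Ioo (-1 : ℝ) 0, B2 (X (s + r ^ 2 * t)) (8 * r) (u (s + r ^ 2 * t)) =
        (r ^ 2)⁻¹ * ∫ t in Ioo (s - r ^ 2) s, B2 (X t) (8 * r) (u t) := by
      rw [← integral_Ioc_eq_integral_Ioo, ← integral_Ioc_eq_integral_Ioo,
        ← intervalIntegral.integral_of_le (by norm_num), ← intervalIntegral.integral_of_le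
        (by linarith), intervalIntegral.integral_comp_add_mul
          (f := fun t => B2 (X t) (8 * r) (u t)) (c := r ^ 2) (by positivity) s, smul_eq_mul]
      congr 2
      · ring
      · ring
    rw [e1]
    have e2 : r * ((r ^ 2)⁻¹ * ∫ t in Ioo (s - r ^ 2) s, B2 (X t) (8 * r) (u t)) =
        (∫ t in Ioo (s - r ^ 2) s, B2 (X t) (8 * r) (u t)) / r := by
      field_simp
    rw [e2, div_le_iff₀ hr]
    exact hlt.le
  have hbd0 := hloc H (frv r s X u) (frq r s X p) k hwl hΓi hΓe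
  -- the velocity is bounded
  have hvel : ∀ τ ∈ G, s - r ^ 2 / 16 < τ → τ < s → ∀ z ∈ ball (0 : V) (1 / 4), ∀ i,
      |u τ (X τ + r • z) i| ≤ C₂ / r + B := by
    intro τ hτ h1 h2 z hz i
    obtain ⟨t, ht⟩ : ∃ t, t = (τ - s) / r ^ 2 := ⟨_, rfl⟩
    have htτ : s + r ^ 2 * t = τ := by
      rw [ht]
      field_simp
      ring
    have ht1 : -1 / 16 < t := by
      rw [ht, lt_div_iff₀ hr2]
      linarith
    have ht2 : t < 0 := by
      rw [ht]
      exact div_neg_of_neg_of_pos (by linarith) hr2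
    have htH : t ∈ H := by
      rw [hH]
      exact ⟨⟨by linarith, ht2⟩, by rw [htτ]; exact hτ⟩
    have h5 : ∀ i, deriv (fun τ => X τ i) τ = Y τ i := fun i =>
      (hasDerivAt_pi.1 (hX.hd τ (h.subG hτ)) i).deriv
    have h7 : ∀ i, |Y τ i| ≤ B := fun i =>
      (norm_le_pi_norm (Y τ) i).trans (hX.bd τ (h.subG hτ))
    have hfr : frv r s X u t = fun z i => r * (u τ (X τ + r • z) i - Y τ i) := by
      funext z i
      unfold frv
      rw [htτ, h5]
    have hA : A2 0 4 (frv r s X u t) ≤ A := by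
      rw [hfr, hAd]
      exact hA2 (u τ) (h.spv hτ) E B r (h.energy_le τ hτ) hr hr1 (X τ) (Y τ) h7
    have h3 : |frv r s X u t z i| ≤ C₂ := by
      refine (hbd0 t htH ht1 z hz i).trans ?_
      rw [hC₂]
      refine mul_le_mul_of_nonneg_left ?_ hC₁.le
      have := Real.sqrt_le_sqrt hA
      linarith
    rw [hfr, abs_mul, abs_of_pos hr] at h3
    have h6 : |u τ (X τ + r • z) i - Y τ i| ≤ C₂ / r := by
      rw [le_div_iff₀ hr, mul_comm]
      exact h3
    have h8 : u τ (X τ + r • z) i = (u τ (X τ + r • z) i - Y τ i) + Y τ i := by ring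
    rw [h8]
    exact (abs_add_le _ _).trans (add_le_add h6 (h7 i))
  -- the contradiction
  obtain ⟨z, hz⟩ : ∃ z : V, z = r⁻¹ • (y₀ - X τ₀) := ⟨_, rfl⟩
  have hzy : X τ₀ + r • z = y₀ := by
    rw [hz, smul_smul, mul_inv_cancel₀ hr.ne', one_smul]
    abel
  have hzb : z ∈ ball (0 : V) (1 / 4) := by
    rw [mem_ball, dist_zero_right, hz, norm_smul, Real.norm_eq_abs, abs_of_pos (inv_pos.2 hr),
      inv_mul_lt_iff₀ hr]
    have h5 := mem_ball.1 hy₀
    rw [dist_eq_norm] at h5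
    linarith
  have h6 : ‖u τ₀ y₀‖ ≤ C₂ / r + B := by
    rw [pi_norm_le_iff_of_nonneg (by positivity)]
    intro i
    have h7 := hvel τ₀ hτ₀ hτ1 hτ2 z hzb i
    rw [hzy] at h7
    exact h7
  linarith [le_abs_self B]

end Pool.Agent.Helper33S
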