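import Pool.Agent.Helper33S.Phys

/-!
The auxiliary flow: a solution of the projected Navier-Stokes equations (up to a small error) whose
initial field is bounded but not divergence-free (helper33).
-/

set_option autoImplicit false

open MeasureTheory Set Filter Topology
open scoped ContDiff

namespace Pool.Agent.Helper33S

open H459R3.NS (V K3 ph ee S cube Per SP SPV fr pd lap ee_add norm_ee ee_continuous ee_per norm_S_le
  S_continuous summable_term ph_single rap_fr S_fr n2 n2_fr n2_sq integral_norm_sq)
open Pool.Agent.H356R3.NS (SFam RD TT SF cvv dS fj coef sq_nonneg' sq_pos pw pw_pos one_le_pw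
  norm_fj_le norm_coef_le nk_le_pw cvv_summ SF_mul)

/-- The auxiliary flow on `[0, h]`: `Z` solves the projected equations with the field `Z'` in the
nonlinear term, `φ` is the potential of its divergence. -/
structure Flow (h M ε P : ℝ) (f : V → V) (Z Z' : ℝ → V → V) (φ q : ℝ → V → ℝ) : Prop where
  sZ : ∀ i, ContDiffOn ℝ ∞ (fun z : ℝ × V => Z z.1 z.2 i) (Ici 0 ×ˢ univ)
  sZ' : ∀ i, ContDiffOn ℝ ∞ (fun z : ℝ × V => Z' z.1 z.2 i) (Ici 0 ×ˢ univ)
  sφ : ContDiffOn ℝ ∞ (fun z : ℝ × V => φ z.1 z.2) (Ici 0 ×ˢ univ)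
  sg : ∀ i, ContDiffOn ℝ ∞ (fun z : ℝ × V => pd i (φ z.1) z.2) (Ici 0 ×ˢ univ)
  sq : ContDiffOn ℝ ∞ (fun z : ℝ × V => q z.1 z.2) (Ici 0 ×ˢ univ)
  pZ : ∀ t i, Per (fun x => Z t x i)
  pZ' : ∀ t i, Per (fun x => Z' t x i)
  pφ : ∀ t, Per (φ t)
  pq : ∀ t, Per (q t)
  eZ : ∀ t, 0 < t → ∀ x i, deriv (fun s => Z s x i) t = lap (fun y => Z t y i) x
    - ∑ j, pd j (fun y => Z' t y j * Z' t y i) x - pd i (q t) x
  eφ : ∀ t, 0 < t → ∀ x, deriv (fun s => φ s x) t = lap (φ t) x
  div : ∀ t, 0 ≤ t → ∀ x, ∑ i, pd i (fun y => Z t y i) x = lap (φ t) x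
  init : ∀ x i, Z 0 x i = f x i
  bZ : ∀ t, 0 ≤ t → t ≤ h → ∀ x i, |Z t x i| ≤ 2 * M
  bD : ∀ t, 0 ≤ t → t ≤ h → ∀ x i j, |Z t x i * Z t x j - Z' t x i * Z' t x j| ≤ ε
  bg : ∀ t, 0 < t → t ≤ h → ∀ x i j, |pd j (fun y => Z t y i) x| ≤ 3 * M / √t
  bφ : ∀ t, 0 < t → ∀ x i j, |pd i (pd j (φ t)) x| ≤ 33 * M / √t
  l2 : ∀ t, 0 ≤ t → ∑ i, ∫ x in cube, pd i (φ t) x ^ 2 ≤ P

theorem zz_zero (a : Fin 3 → K3 → ℂ) (n : ℕ) (i : Fin 3) (k : K3) :
    zz a (n + 1) i k 0 = a i k := by
  rw [zz_succ]
  unfold HT DP hh
  simp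

theorem sum_fj_sq (k : K3) : ∑ j, fj k j * fj k j = -((c4 * H356R3.NS.sq k : ℝ) : ℂ) := by
  unfold fj c4 H356R3.NS.sq
  push_cast
  rw [Finset.mul_sum, ← Finset.sum_neg_distrib]
  refine Finset.sum_congr rfl fun j _ => ?_
  linear_combination (4 * (Real.pi : ℂ) ^ 2 * (k j : ℂ) ^ 2) * Complex.I_mul_I

theorem sum_coef (k : K3) (j m : Fin 3) : ∑ i, fj k i * coef k i j m = 0 := by
  by_cases hk : k = 0
  · subst hk
    simp [fj]
  have h1 := sum_fj_sq k
  have h2 : -((c4 * H356R3.NS.sq k : ℝ) : ℂ) * iv k = -1 := by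
    unfold iv
    have h3 : c4 * H356R3.NS.sq k ≠ 0 := (mul_pos c4_pos (sq_pos hk)).ne'
    rw [neg_mul, ← Complex.ofReal_mul, mul_inv_cancel₀ h3, Complex.ofReal_one]
  have h3 : ∑ i, fj k i * coef k i j m =
      -(fj k j * ∑ i, (if m = i then 1 else 0) * fj k i) -
        (∑ i, fj k i * fj k i) * (fj k j * (fj k m * iv k)) := by
    rw [Finset.sum_mul, Finset.mul_sum, ← Finset.sum_neg_distrib, ← Finset.sum_sub_distrib]
    refine Finset.sum_congr rfl fun i _ => ?_
    rw [coef_eq]
    ring
  have h4 : ∑ i, (if m = i then (1 : ℂ) else 0) * fj k i = fj k m := by simp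
  rw [h3, h4, h1]
  linear_combination (-(fj k j * fj k m)) * h2

/-- the potential -/
noncomputable def ph0 (a : Fin 3 → K3 → ℂ) (k : K3) : ℂ := -(iv k * ∑ m, fj k m * a m k)

theorem ph0_rd {a : Fin 3 → K3 → ℂ} (ha : ∀ i, Rd (a i)) : Rd (ph0 a) := by
  have h1 : Rd fun k => ∑ m, fj k m * a m k := by
    have e : (fun k => ∑ m, fj k m * a m k) =
        fun k => fj k 0 * a 0 k + (fj k 1 * a 1 k + fj k 2 * a 2 k) := by
      funext k
      rw [Fin.sum_univ_three]
      ring
    rw [e]
    exact ((ha 0).fj 0).add (((ha 1).fj 1).add ((ha 2).fj 2))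
  have h2 := h1.iv.const (-1)
  have e : ph0 a = fun k => -1 * (iv k * ∑ m, fj k m * a m k) := by
    funext k
    unfold ph0
    ring
  rw [e]
  exact h2

theorem lap_rf {c : SFam} (hc : RD c) (t : ℝ) (x : V) :
    lap (rf c t) x = ∑ j, rf (dS j (dS j c)) t x := by
  unfold lap
  refine Finset.sum_congr rfl fun j _ => ?_
  rw [rf_pd hc, rf_pd (RD_dS hc j)]

theorem rf_congr {c d : SFam} {t : ℝ} (h : ∀ k, c k t = d k t) (x : V) : rf c t x = rf d t x := by
  unfold rf
  rw [SF_eq, SF_eq]
  congr 2
  funext k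
  exact h k

theorem rf_lap {c : SFam} (hc : RD c) (t : ℝ) (x : V) :
    lap (rf c t) x = rf (fun k t => -((c4 * H356R3.NS.sq k : ℝ) : ℂ) * c k t) t x := by
  rw [lap_rf hc, ← rf_fsum fun j => RD_dS (RD_dS hc j) j]
  refine rf_congr (fun k => ?_) x
  rw [← sum_fj_sq, Finset.sum_mul]
  refine Finset.sum_congr rfl fun j _ => ?_
  unfold dS
  ring

theorem flow_exists {h M : ℝ} (hs : 3456 * M * √h ≤ 1) {f g : V → V}
    (hf : ∀ i, SP fun x => f x i) (hg : ∀ i, SP fun x => g x i)
    (hdiv : ∀ x, ∑ i, pd i (fun y => f y i + g y i) x = 0) (hfM : ∀ x i, |f x i| ≤ M) (n : ℕ) :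
    ∃ (Z Z' : ℝ → V → V) (φ q : ℝ → V → ℝ),
      Flow h M (4 * M * (M / 2 ^ n)) (∑ i, ∫ x in cube, g x i ^ 2) f Z Z' φ q := by
  have hM0 : 0 ≤ M := (abs_nonneg _).trans (hfM 0 0)
  obtain ⟨a, ha⟩ : ∃ a : Fin 3 → K3 → ℂ, a = fun i => fr fun x => f x i := ⟨_, rfl⟩
  have ra : ∀ i, Rd (a i) := fun i => by rw [ha]; exact rd_fr (hf i)
  have sa : ∀ i k, a i (-k) = star (a i k) := fun i k => by rw [ha]; exact fr_sy k
  have hSa : ∀ i x, S (a i) x = ((f x i : ℝ) : ℂ) := fun i x => by rw [ha]; exact S_fr (hf i) x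
  have hSM : ∀ i x, ‖S (a i) x‖ ≤ M := fun i x => by
    rw [hSa, Complex.norm_real, Real.norm_eq_abs]
    exact hfM x i
  -- the families
  obtain ⟨c, hc⟩ : ∃ c : Fin 3 → SFam, c = zz a (n + 1) := ⟨_, rfl⟩
  obtain ⟨c', hc'⟩ : ∃ c' : Fin 3 → SFam, c' = zz a n := ⟨_, rfl⟩
  have cT : ∀ i m, TT m (c i) := fun i m => by rw [hc]; exact zz_TT ra _ i m
  have cT' : ∀ i m, TT m (c' i) := fun i m => by rw [hc']; exact zz_TT ra _ i m
  have cR : ∀ i, RD (c i) := fun i => (cT i 0).rd
  have cR' : ∀ i, RD (c' i) := fun i => (cT' i 0).rd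
  have cS : ∀ i, Sy (c i) := fun i => by rw [hc]; exact zz_sy sa _ i
  have cS' : ∀ i, Sy (c' i) := fun i => by rw [hc']; exact zz_sy sa _ i
  obtain ⟨pf, hpf⟩ : ∃ pf : SFam, pf = HT (ph0 a) := ⟨_, rfl⟩
  have rph := ph0_rd ra
  have pT : ∀ m, TT m pf := fun m => by rw [hpf]; exact HT_TT rph m
  have pR : RD pf := (pT 0).rd
  have sph : ∀ k, ph0 a (-k) = star (ph0 a k) := by
    intro k
    unfold ph0
    rw [star_neg, star_mul', star_sum, iv_neg, iv_star]
    congr 2
    refine Finset.sum_congr rfl fun m _ => ?_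
    rw [star_mul', fj_neg, sa]
  have pS : Sy pf := by rw [hpf]; exact Sy.HT sph
  obtain ⟨qf, hqf⟩ : ∃ qf : SFam, qf = fun k t => ∑ j, ∑ m,
      (fj k j * (fj k m * iv k)) * cvv (c' j) (c' m) k t := ⟨_, rfl⟩
  have qpoly : ∀ (j m : Fin 3) (k : K3), ‖fj k j * (fj k m * iv k)‖ ≤
      (2 * Real.pi) * (2 * Real.pi) * pw k ^ 2 := by
    intro j m k
    rw [norm_mul, norm_mul]
    have h1 := norm_fj_le k j
    have h2 := norm_fj_le k m
    have h3 := norm_iv_le k
    rw [pow_zero, mul_one] at h3
    rw [pow_one] at h1 h2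
    have h4 := pw_pos k
    have hpi := Real.pi_pos
    calc ‖fj k j‖ * (‖fj k m‖ * ‖iv k‖) ≤ (2 * Real.pi * pw k) * ((2 * Real.pi * pw k) * 1) := by
          gcongr
      _ = _ := by ring
  have qT : ∀ m, TT m qf := fun m => by
    rw [hqf]
    exact TT.sum _ fun j _ => TT.sum _ fun l _ => TT.mul (qpoly j l) ((cT' j m).conv (cT' l m))
  have qR : RD qf := (qT 0).rd
  have dSc : ∀ (d : SFam), RD d → ∀ t x i, pd i (rf d t) x = rf (dS i d) t x :=
    fun d hd t x i => congrFun (rf_pd hd t i) x
  have e0 : ∀ (d : Fin 3 → SFam) (t : ℝ) (i : Fin 3),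
      (fun y : V => rf (d i) t y) = rf (d i) t := fun _ _ _ => rfl
  have hsup : ∀ i t, 0 ≤ t → t ≤ h → ∀ x, |rf (c i) t x| ≤ 2 * M := by
    intro i t ht hth x
    rw [rf_abs (cS i), hc]
    exact zz_sup ra hSM hs _ i t hth x
  have hsup' : ∀ i t, 0 ≤ t → t ≤ h → ∀ x, |rf (c' i) t x| ≤ 2 * M := by
    intro i t ht hth x
    rw [rf_abs (cS' i), hc']
    exact zz_sup ra hSM hs _ i t hth x
  have hdif : ∀ i t, 0 ≤ t → t ≤ h → ∀ x, |rf (c i) t x - rf (c' i) t x| ≤ M / 2 ^ n := by
    intro i t ht hth x
    have h1 := zz_dif ra hSM hs n i t ht hth x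
    have h2 := rf_S (cS i) t x
    have h3 := rf_S (cS' i) t x
    rw [hc] at h2
    rw [hc'] at h3
    rw [← h2, ← h3, ← Complex.ofReal_sub, Complex.norm_real, Real.norm_eq_abs] at h1
    rw [hc, hc']
    exact h1
  refine ⟨fun t x i => rf (c i) t x, fun t x i => rf (c' i) t x, rf pf, rf qf, ?_⟩
  exact
    { sZ := fun i => rf_smooth (cT i)
      sZ' := fun i => rf_smooth (cT' i)
      sφ := rf_smooth pT
      sg := fun i => by
        have h1 := rf_smooth (c := dS i pf) fun m => (pT m).dS i
        refine h1.congr fun z _ => ?_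
        exact dSc pf pR z.1 z.2 i
      sq := rf_smooth qT
      pZ := fun t i => rf_per _ _
      pZ' := fun t i => rf_per _ _
      pφ := fun t => rf_per _ _
      pq := fun t => rf_per _ _
      eZ := by
        intro t ht x i
        -- the derivative family
        have hd : ∀ k t, 0 < t → HasDerivAt (c i k)
            (-((c4 * H356R3.NS.sq k : ℝ) : ℂ) * c i k t +
              ∑ j, ∑ m, coef k i j m * cvv (c' j) (c' m) k t) t := by
          intro k t ht
          have e1 : c i k = fun t => HT (a i) k t +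
              ∑ j, ∑ m, DP (fun k => coef k i j m) (cvv (c' j) (c' m)) k t := by
            rw [hc, hc']
            rfl
          have h1 := HT_deriv (a i) k ht
          have hct : ∀ j m k, Continuous (cvv (c' j) (c' m) k) := fun j m k => by
            rw [hc']
            exact FF_ct ra n j m k
          have h2 : ∀ j m, HasDerivAt (DP (fun k => coef k i j m) (cvv (c' j) (c' m)) k)
              (-((c4 * H356R3.NS.sq k : ℝ) : ℂ) *
                DP (fun k => coef k i j m) (cvv (c' j) (c' m)) k t +
                coef k i j m * cvv (c' j) (c' m) k t) t := fun j m =>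
            DP_deriv (hct j m) _ k ht
          have h3 := h1.fun_add (HasDerivAt.fun_sum fun j (_ : j ∈ Finset.univ) =>
            HasDerivAt.fun_sum fun m (_ : m ∈ Finset.univ) => h2 j m)
          rw [e1]
          refine h3.congr_deriv ?_
          simp only [Finset.sum_add_distrib, ← Finset.mul_sum]
          ring
        have rdR : RD fun k t => -((c4 * H356R3.NS.sq k : ℝ) : ℂ) * c i k t +
              ∑ j, ∑ m, coef k i j m * cvv (c' j) (c' m) k t := by
          have h1 : TT 0 fun k t => -((c4 * H356R3.NS.sq k : ℝ) : ℂ) * c i k t +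
              ∑ j, ∑ m, coef k i j m * cvv (c' j) (c' m) k t :=
            (TT.mul nsq_le (cT i 0)).add (TT.sum _ fun j _ => TT.sum _ fun l _ =>
              TT.mul (coef_poly i j l) ((cT' j 0).conv (cT' l 0)))
          exact h1.rd
        have h1 := rf_dt (cR i) rdR hd ht x
        show deriv (fun s => rf (c i) s x) t = _
        rw [h1.deriv]
        -- the right hand side
        have e1 : lap (rf (c i) t) x =
            rf (fun k t => -((c4 * H356R3.NS.sq k : ℝ) : ℂ) * c i k t) t x := rf_lap (cR i) t x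
        have e2 : ∀ j, pd j (fun y => rf (c' j) t y * rf (c' i) t y) x =
            rf (dS j (cvv (c' j) (c' i))) t x := by
          intro j
          have h2 : (fun y => rf (c' j) t y * rf (c' i) t y) = rf (cvv (c' j) (c' i)) t := by
            funext y
            exact (rf_mul (cR' j) (cR' i) (cS' j) (cS' i) t y).symm
          rw [h2]
          exact dSc _ ((cR' j).conv (cR' i)) t x j
        have e3 : pd i (rf qf t) x = rf (dS i qf) t x := dSc qf qR t x i
        have rA : RD fun k t => -((c4 * H356R3.NS.sq k : ℝ) : ℂ) * c i k t :=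
          (cR i).mul nsq_le
        have rB : ∀ j, RD (dS j (cvv (c' j) (c' i))) := fun j => RD_dS ((cR' j).conv (cR' i)) j
        have rBs : RD fun k t => ∑ j, dS j (cvv (c' j) (c' i)) k t := by
          have h1 : TT 0 fun k t => ∑ j, dS j (cvv (c' j) (c' i)) k t :=
            TT.sum _ fun j _ => ((cT' j 0).conv (cT' i 0)).dS j
          exact h1.rd
        have rN : ∀ {d : SFam}, RD d → RD fun k t => -d k t := by
          intro d hd m
          obtain ⟨b, hb, hb'⟩ := hd m
          exact ⟨b, hb, fun k t => by rw [norm_neg]; exact hb' k t⟩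
        show _ = lap (rf (c i) t) x - ∑ j, pd j (fun y => rf (c' j) t y * rf (c' i) t y) x -
          pd i (rf qf t) x
        rw [e1, e3]
        simp only [e2]
        rw [← rf_fsum rB, sub_eq_add_neg, sub_eq_add_neg, ← rf_neg, ← rf_neg,
          ← rf_add rA (rN rBs), ← rf_add (rA.add (rN rBs)) (rN (RD_dS qR i))]
        refine rf_congr (fun k => ?_) x
        have e4 : ∑ j, ∑ m, coef k i j m * cvv (c' j) (c' m) k t =
            -(∑ j, dS j (cvv (c' j) (c' i)) k t) - dS i qf k t := by
          unfold dS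
          rw [hqf]
          simp only
          rw [Finset.mul_sum, ← Finset.sum_neg_distrib, ← Finset.sum_sub_distrib]
          refine Finset.sum_congr rfl fun j _ => ?_
          rw [Finset.mul_sum]
          have h5 : fj k j * cvv (c' j) (c' i) k t =
              ∑ m, (if m = i then 1 else 0) * (fj k j * cvv (c' j) (c' m) k t) := by simp
          rw [h5, ← Finset.sum_neg_distrib, ← Finset.sum_sub_distrib]
          refine Finset.sum_congr rfl fun m _ => ?_
          rw [coef_eq]
          ring
        rw [e4]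
        ring
      eφ := by
        intro t ht x
        have hd : ∀ k t, 0 < t → HasDerivAt (pf k)
            (-((c4 * H356R3.NS.sq k : ℝ) : ℂ) * pf k t) t := by
          intro k t ht
          rw [hpf]
          exact HT_deriv _ k ht
        have h1 := rf_dt pR (pR.mul nsq_le) hd ht x
        rw [h1.deriv, rf_lap pR]
      div := by
        intro t ht x
        show ∑ i, pd i (rf (c i) t) x = lap (rf pf t) x
        rw [rf_lap pR, Finset.sum_congr rfl fun i _ => dSc (c i) (cR i) t x i,
          ← rf_fsum fun i => RD_dS (cR i) i]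
        refine rf_congr (fun k => ?_) x
        have e1 : ∀ i, c i k t = HT (a i) k t +
              ∑ j, ∑ m, coef k i j m * (∫ s in (0 : ℝ)..(max t 0), hh (max t 0 - s) k *
                cvv (c' j) (c' m) k s) := by
          intro i
          rw [hc, hc']
          rfl
        have e2 : ∑ i, dS i (c i) k t = (∑ i, fj k i * HT (a i) k t) +
            ∑ j, ∑ m, (∑ i, fj k i * coef k i j m) * (∫ s in (0 : ℝ)..(max t 0),
              hh (max t 0 - s) k * cvv (c' j) (c' m) k s) := by
          unfold dS
          simp only [e1, mul_add, Finset.sum_add_distrib]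
          congr 1
          simp only [Finset.mul_sum, Finset.sum_mul]
          rw [Finset.sum_comm]
          refine Finset.sum_congr rfl fun j _ => ?_
          rw [Finset.sum_comm]
          refine Finset.sum_congr rfl fun m _ => ?_
          refine Finset.sum_congr rfl fun i _ => ?_
          ring
        rw [e2]
        simp only [sum_coef, zero_mul, Finset.sum_const_zero, add_zero]
        rw [hpf]
        unfold HT ph0
        by_cases hk : k = 0
        · subst hk
          simp [fj, H356R3.NS.sq_zero]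
        have h2 : ((c4 * H356R3.NS.sq k : ℝ) : ℂ) * iv k = 1 := by
          unfold iv
          have h3 : c4 * H356R3.NS.sq k ≠ 0 := (mul_pos c4_pos (sq_pos hk)).ne'
          rw [← Complex.ofReal_mul, mul_inv_cancel₀ h3, Complex.ofReal_one]
        have h3 : ∑ i, fj k i * (hh (max t 0) k * a i k) =
            hh (max t 0) k * ∑ m, fj k m * a m k := by
          rw [Finset.mul_sum]
          exact Finset.sum_congr rfl fun m _ => by ring
        rw [h3]
        linear_combination (-(hh (max t 0) k * ∑ m, fj k m * a m k)) * h2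
      init := by
        intro x i
        have h1 := rf_S (cS i) 0 x
        have h2 : (fun k => c i k 0) = a i := by
          funext k
          rw [hc]
          exact zz_zero a n i k
        rw [h2, hSa] at h1
        exact Complex.ofReal_injective h1
      bZ := fun t ht hth x i => hsup i t ht hth x
      bD := by
        intro t ht hth x i j
        have p1 := hdif i t ht hth x
        have p2 := hdif j t ht hth x
        have p3 := hsup j t ht hth x
        have p4 := hsup' i t ht hth x
        show |rf (c i) t x * rf (c j) t x - rf (c' i) t x * rf (c' j) t x| ≤ _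
        have e5 : rf (c i) t x * rf (c j) t x - rf (c' i) t x * rf (c' j) t x =
            (rf (c i) t x - rf (c' i) t x) * rf (c j) t x +
              rf (c' i) t x * (rf (c j) t x - rf (c' j) t x) := by ring
        rw [e5]
        refine (abs_add_le _ _).trans ?_
        rw [abs_mul, abs_mul]
        calc _ ≤ (M / 2 ^ n) * (2 * M) + (2 * M) * (M / 2 ^ n) := by
              refine add_le_add ?_ ?_
              · exact mul_le_mul p1 p3 (abs_nonneg _) (by positivity)
              · exact mul_le_mul p4 p2 (abs_nonneg _) (by positivity)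
          _ = _ := by ring
      bg := by
        intro t ht hth x i j
        show |pd j (rf (c i) t) x| ≤ _
        rw [dSc (c i) (cR i), rf_abs ((cS i).dS j), hc]
        exact zz_gr ra hSM hs (n + 1) i j t ht hth x
      bφ := by
        intro t ht x i j
        rw [rf_pd pR, dSc _ (RD_dS pR j), rf_abs ((pS.dS j).dS i)]
        have e1 : (fun k => dS i (dS j pf) k t) = fun k => ∑ m,
            (-1) * (fj k i * (fj k j * (fj k m * (iv k * (hh t k * a m k))))) := by
          funext k
          unfold dS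
          rw [hpf]
          unfold HT ph0
          rw [max_eq_left ht.le]
          simp only [Finset.mul_sum, ← Finset.sum_neg_distrib]
          refine Finset.sum_congr rfl fun m _ => ?_
          ring
        rw [e1, S_fsum fun m => ((((((ra m).hh ht.le).iv).fj m).fj j).fj i).sum.mul_left _]
        refine (norm_sum_le _ _).trans ?_
        have b : ∀ m, ‖S (fun k => (-1) *
            (fj k i * (fj k j * (fj k m * (iv k * (hh t k * a m k)))))) x‖ ≤ 11 * M / √t := by
          intro m
          have h1 := inv_bd (ra m) (hSM m) ht i j m x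
          have e2 : S (fun k => (-1) *
              (fj k i * (fj k j * (fj k m * (iv k * (hh t k * a m k)))))) x =
              -S (fun k => fj k i * (fj k j * (fj k m * (iv k * (hh t k * a m k))))) x := by
            unfold S
            rw [← tsum_neg]
            exact tsum_congr fun k => by ring
          rw [e2, norm_neg]
          exact h1
        refine (Finset.sum_le_sum fun m _ => b m).trans (le_of_eq ?_)
        simp only [Finset.sum_const, Finset.card_univ, Fintype.card_fin, nsmul_eq_mul]
        push_cast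
        ring
      l2 := by
        intro t ht
        obtain ⟨b, hb⟩ : ∃ b : Fin 3 → K3 → ℂ, b = fun i => fr fun x => g x i := ⟨_, rfl⟩
        have rb : ∀ i, Rd (b i) := fun i => by rw [hb]; exact rd_fr (hg i)
        have hab : ∀ k, ∑ m, fj k m * a m k = -∑ m, fj k m * b m k := by
          intro k
          have h1 : ∀ m, fj k m * a m k + fj k m * b m k =
              fr (pd m fun y => f y m + g y m) k := by
            intro m
            rw [fr_fj ((hf m).add (hg m)), fr_add (hf m).smooth.continuous
              (hg m).smooth.continuous, ha, hb]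
            ring
          have h2 : ∑ m, fr (pd m fun y => f y m + g y m) k = 0 := by
            have h3 : ∀ m, IntegrableOn (fun x => ee (-k) x *
                ((pd m (fun y => f y m + g y m) x : ℝ) : ℂ)) cube := fun m =>
              H459R3.NS.integrableOn_cube ((ee_continuous _).mul
                (Complex.continuous_ofReal.comp (((hf m).add (hg m)).pd m).smooth.continuous))
            unfold fr H459R3.NS.fc
            rw [← integral_finsetSum _ fun m _ => h3 m]
            have h4 : ∀ x, ∑ m, ee (-k) x * ((pd m (fun y => f y m + g y m) x : ℝ) : ℂ) = 0 := by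
              intro x
              rw [← Finset.mul_sum, ← Complex.ofReal_sum, hdiv x, Complex.ofReal_zero, mul_zero]
            simp_rw [h4]
            simp
          have h3 : ∑ m, (fj k m * a m k + fj k m * b m k) = 0 := by
            rw [Finset.sum_congr rfl fun m _ => h1 m, h2]
          rw [Finset.sum_add_distrib] at h3
          exact eq_neg_of_add_eq_zero_left h3
        have e1 : ∀ i, ∫ x in cube, pd i (rf pf t) x ^ 2 =
            ∑' k, ‖fj k i * pf k t‖ ^ 2 := by
          intro i
          have h1 := integral_norm_sq (b := fun k => fj k i * pf k t) ((RD.rd pR t).fj i).sum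
          rw [n2_sq] at h1
          rw [← h1]
          congr 1
          funext x
          rw [dSc pf pR, ← sq_abs, rf_abs (pS.dS i)]
          rfl
        have e2 : ∀ i, ∫ x in cube, g x i ^ 2 = ∑' k, ‖b i k‖ ^ 2 := by
          intro i
          have h1 := n2_fr (hg i)
          rw [n2_sq] at h1
          rw [← h1, hb]
        simp only [e1, e2]
        have s1 : ∀ i, Summable fun k => ‖fj k i * pf k t‖ ^ 2 := fun i =>
          H459R3.NS.summable_sq ((RD.rd pR t).fj i).sum
        have s2 : ∀ i, Summable fun k => ‖b i k‖ ^ 2 := fun i => H459R3.NS.summable_sq (rb i).sum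
        rw [← Summable.tsum_finsetSum fun i _ => s1 i, ← Summable.tsum_finsetSum fun i _ => s2 i]
        refine (summable_sum fun i _ => s1 i).tsum_le_tsum (fun k => ?_)
          (summable_sum fun i _ => s2 i)
        by_cases hk : k = 0
        · subst hk
          have : ∀ i, fj 0 i = 0 := fun i => by simp [fj]
          simp only [this, zero_mul, norm_zero, ne_eq, OfNat.ofNat_ne_zero, not_false_eq_true,
            zero_pow, Finset.sum_const_zero]
          exact Finset.sum_nonneg fun _ _ => sq_nonneg _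
        -- `Σ |fj|² = c4 |k|²`
        have hp : 0 < c4 * H356R3.NS.sq k := mul_pos c4_pos (sq_pos hk)
        have hn : ∑ i, ‖fj k i‖ ^ 2 = c4 * H356R3.NS.sq k := by
          unfold fj c4 H356R3.NS.sq
          rw [Finset.mul_sum]
          refine Finset.sum_congr rfl fun i _ => ?_
          rw [norm_mul, norm_mul, norm_mul, Complex.norm_I, Complex.norm_intCast,
            Complex.norm_real]
          simp only [Complex.norm_ofNat, Real.norm_eq_abs, abs_of_pos Real.pi_pos, mul_one]
          rw [mul_pow, mul_pow, sq_abs]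
          ring
        have e3 : ‖pf k t‖ ≤ (c4 * H356R3.NS.sq k)⁻¹ * ‖∑ m, fj k m * b m k‖ := by
          rw [hpf]
          unfold HT ph0
          rw [hab, norm_mul, norm_neg, norm_mul, norm_neg]
          have h1 := norm_hh_le (le_max_right t 0) k
          have h2 : ‖iv k‖ = (c4 * H356R3.NS.sq k)⁻¹ := by
            unfold iv
            rw [Complex.norm_real, Real.norm_of_nonneg (inv_nonneg.2 hp.le)]
          rw [h2]
          have h3 : 0 ≤ (c4 * H356R3.NS.sq k)⁻¹ * ‖∑ m, fj k m * b m k‖ := by positivity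
          nlinarith
        have e4 : ‖∑ m, fj k m * b m k‖ ^ 2 ≤ (c4 * H356R3.NS.sq k) * ∑ m, ‖b m k‖ ^ 2 := by
          rw [← hn]
          have h1 : ‖∑ m, fj k m * b m k‖ ≤ ∑ m, ‖fj k m‖ * ‖b m k‖ := by
            refine (norm_sum_le _ _).trans (le_of_eq ?_)
            exact Finset.sum_congr rfl fun m _ => norm_mul _ _
          refine (pow_le_pow_left₀ (norm_nonneg _) h1 2).trans ?_
          exact Finset.sum_mul_sq_le_sq_mul_sq _ _ _
        calc ∑ i, ‖fj k i * pf k t‖ ^ 2 = (∑ i, ‖fj k i‖ ^ 2) * ‖pf k t‖ ^ 2 := by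
              rw [Finset.sum_mul]
              exact Finset.sum_congr rfl fun i _ => by rw [norm_mul, mul_pow]
          _ ≤ (c4 * H356R3.NS.sq k) *
              ((c4 * H356R3.NS.sq k)⁻¹ * ‖∑ m, fj k m * b m k‖) ^ 2 := by
              rw [hn]
              refine mul_le_mul_of_nonneg_left ?_ hp.le
              exact pow_le_pow_left₀ (norm_nonneg _) e3 2
          _ = (c4 * H356R3.NS.sq k)⁻¹ * ‖∑ m, fj k m * b m k‖ ^ 2 := by
              field_simp
          _ ≤ (c4 * H356R3.NS.sq k)⁻¹ * ((c4 * H356R3.NS.sq k) * ∑ m, ‖b m k‖ ^ 2) :=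
              mul_le_mul_of_nonneg_left e4 (inv_nonneg.2 hp.le)
          _ = ∑ m, ‖b m k‖ ^ 2 := by
              rw [← mul_assoc, inv_mul_cancel₀ hp.ne', one_mul] }

end Pool.Agent.Helper33S
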