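import Pool.Agent.Helper33S.Alg
import Pool.Agent.Helper33S.Flow
import Pool.Agent.N976.EQ.E4
import Pool.Agent.Y8.Lei2
import Pool.Agent.Y8.En

/-!
The energy of the difference of a suitable weak solution and the auxiliary flow: one step in time
(helper33).
-/

set_option autoImplicit false

open MeasureTheory Set Metric Filter Topology
open scoped ContDiff

namespace Pool.Agent.Helper33S

open H459R3.NS W221.NS Pool.Agent.Y8
open Pool.Agent.N976.EQ.E4 (ze ze_smooth ze_cpt ze_nonneg ze_mean ze_pd ze_lap mul_int DD_val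
  int_nsq int_gsq pd_cpt)

theorem ze_ball : ∃ R : ℝ, 0 < R ∧ ∀ z ∉ ball (0 : V) R, ze z = 0 := by
  obtain ⟨R, hR⟩ := (ze_cpt.isBounded).subset_ball (0 : V)
  refine ⟨max R 1, by positivity, fun z hz => ?_⟩
  refine image_eq_zero_of_notMem_tsupport fun h => hz ?_
  exact ball_subset_ball (le_max_left _ _) (hR h)

theorem pdm {f g : V → ℝ} (hf : ContDiff ℝ ∞ f) (hg : ContDiff ℝ ∞ g) (j : Fin 3) (x : V) :
    pd j (fun y => f y * g y) x = f x * pd j g x + pd j f x * g x := by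
  unfold pd
  have h : HasFDerivAt (fun y => f y * g y) _ x :=
    ((hf.differentiable (by simp)) x).hasFDerivAt.mul ((hg.differentiable (by simp)) x).hasFDerivAt
  rw [h.fderiv]
  simp only [_root_.add_apply, _root_.smul_apply, smul_eq_mul]
  ring

theorem pd_sm {f : V → ℝ} (hf : ContDiff ℝ ∞ f) (j : Fin 3) : ContDiff ℝ ∞ (pd j f) := by
  unfold pd
  exact (hf.fderiv_right (m := ∞) (by simp)).clm_apply contDiff_const

theorem lap_m {f g : V → ℝ} (hf : ContDiff ℝ ∞ f) (hg : ContDiff ℝ ∞ g) (x : V) :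
    lap (fun y => f y * g y) x = f x * lap g x + 2 * (∑ j, pd j f x * pd j g x) + lap f x * g x := by
  unfold lap
  rw [Finset.mul_sum, Finset.mul_sum, Finset.sum_mul, ← Finset.sum_add_distrib,
    ← Finset.sum_add_distrib]
  refine Finset.sum_congr rfl fun j _ => ?_
  have e : pd j (fun y => f y * g y) = fun y => f y * pd j g y + pd j f y * g y :=
    funext fun y => pdm hf hg j y
  have a1 : ContDiff ℝ ∞ fun y => f y * pd j g y := hf.mul (pd_sm hg j)
  have a2 : ContDiff ℝ ∞ fun y => pd j f y * g y := (pd_sm hf j).mul hg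
  rw [e]
  have e2 : pd j (fun y => f y * pd j g y + pd j f y * g y) x =
      pd j (fun y => f y * pd j g y) x + pd j (fun y => pd j f y * g y) x := by
    unfold pd
    have h := ((a1.differentiable (by simp)) x).hasFDerivAt.fun_add
      ((a2.differentiable (by simp)) x).hasFDerivAt
    unfold pd at h
    rw [h.fderiv]
    rfl
  rw [e2, pdm hf (pd_sm hg j), pdm (pd_sm hf j) hg]
  ring

/-- the momentum equation tested with a periodic function -/
theorem dm_val {uu : V → V} (hu : ∀ i, SP fun x => uu x i) {pp : V → ℝ} (hp : SP pp) {v : V → ℝ}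
    (hv : SP v) {vd : V → ℝ} (hvd : SP vd) (i : Fin 3) :
    ∫ x, (uu x i * (ze x * vd x + 1 * lap (fun y => ze y * v y) x) +
        uu x i * adv uu (fun y => ze y * v y) x + pp x * pd i (fun y => ze y * v y) x) =
      ∫ x in cube, (uu x i * (vd x + lap v x) + uu x i * (∑ j, uu x j * pd j v x) +
        pp x * pd i v x) := by
  have A : SP fun x => uu x i * (vd x + lap v x) + uu x i * (∑ j, uu x j * pd j v x) +
      pp x * pd i v x :=
    (((hu i).mul (hvd.add hv.lap)).add ((hu i).mul (SP.sum fun j _ => (hu j).mul (hv.pd j)))).add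
      (hp.mul (hv.pd i))
  have B : ∀ j, SP fun x => 2 * (uu x i * pd j v x) + uu x i * (uu x j * v x) := fun j =>
    (spc 2 ((hu i).mul (hv.pd j))).add ((hu i).mul ((hu j).mul hv))
  have C : SP fun x => uu x i * v x := (hu i).mul hv
  have D : SP fun x => pp x * v x := hp.mul hv
  have hpt : ∀ x, uu x i * (ze x * vd x + 1 * lap (fun y => ze y * v y) x) +
        uu x i * adv uu (fun y => ze y * v y) x + pp x * pd i (fun y => ze y * v y) x =
      (uu x i * (vd x + lap v x) + uu x i * (∑ j, uu x j * pd j v x) + pp x * pd i v x) * ze x +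
        (∑ j, (2 * (uu x i * pd j v x) + uu x i * (uu x j * v x)) * pd j ze x) +
        (uu x i * v x) * lap ze x + (pp x * v x) * pd i ze x := by
    intro x
    rw [lap_m ze_smooth hv.smooth]
    unfold adv
    simp only [pdm ze_smooth hv.smooth, Fin.sum_univ_three]
    ring
  simp_rw [hpt]
  have cl : Continuous (lap ze) := by
    unfold lap
    exact continuous_finsetSum _ fun j _ => (pd_sm (pd_sm ze_smooth j) j).continuous
  have kl : HasCompactSupport (lap ze) := by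
    obtain ⟨R, hR, h0⟩ := ze_ball
    refine HasCompactSupport.intro (isCompact_closedBall (0 : V) R) fun x hx => ?_
    exact lap_zero' ze_smooth hR h0 fun h => hx (ball_subset_closedBall h)
  have i1 := mul_int A.cont ze_smooth.continuous ze_cpt
  have i2 : ∀ j, Integrable fun x =>
      (2 * (uu x i * pd j v x) + uu x i * (uu x j * v x)) * pd j ze x := fun j =>
    mul_int (B j).cont (pd_sm ze_smooth j).continuous (pd_cpt ze_cpt j)
  have i2' := integrable_finsetSum (μ := (volume : Measure V)) Finset.univ fun j _ => i2 j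
  have i3 := mul_int C.cont cl kl
  have i4 := mul_int D.cont (pd_sm ze_smooth i).continuous (pd_cpt ze_cpt i)
  have i12 : Integrable fun x => (uu x i * (vd x + lap v x) +
      uu x i * (∑ j, uu x j * pd j v x) + pp x * pd i v x) * ze x +
        (∑ j, (2 * (uu x i * pd j v x) + uu x i * (uu x j * v x)) * pd j ze x) := i1.add i2'
  have i123 : Integrable fun x => (uu x i * (vd x + lap v x) +
      uu x i * (∑ j, uu x j * pd j v x) + pp x * pd i v x) * ze x +
        (∑ j, (2 * (uu x i * pd j v x) + uu x i * (uu x j * v x)) * pd j ze x) +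
        (uu x i * v x) * lap ze x := i12.add i3
  rw [integral_add i123 i4, integral_add i12 i3, integral_add i1 i2',
    integral_finsetSum _ fun j _ => i2 j, Finset.sum_congr rfl fun j _ => ze_pd (B j).cont (B j).per j,
    ze_lap C.cont C.per, ze_pd D.cont D.per, ze_mean A.cont A.per]
  simp

/-! ### The fields -/

/-- the divergence-free part of the auxiliary flow, started at the time `t₁` -/
noncomputable def VV (t₁ : ℝ) (Z : ℝ → V → V) (φ : ℝ → V → ℝ) (t : ℝ) (x : V) : V :=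
  fun i => Z (t - t₁) x i - pd i (φ (t - t₁)) x

/-- the difference -/
noncomputable def WW (u : ℝ → V → V) (t₁ : ℝ) (Z : ℝ → V → V) (φ : ℝ → V → ℝ) (t : ℝ) (x : V) : V :=
  fun i => u t x i - VV t₁ Z φ t x i

section

variable {T E D : ℝ} {G : Set ℝ} {u : ℝ → V → V} {p : ℝ → V → ℝ} {h₀ M ε P t₁ : ℝ} {f : V → V}
  {Z Z' : ℝ → V → V} {φ q : ℝ → V → ℝ}

theorem Flow.spZ (hF : Flow h₀ M ε P f Z Z' φ q) {t : ℝ} (ht : 0 ≤ t) (i : Fin 3) :
    SP fun x => Z t x i := ⟨sl_sm (F := fun t x => Z t x i) (hF.sZ i) ht, hF.pZ t i⟩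

theorem Flow.spZ' (hF : Flow h₀ M ε P f Z Z' φ q) {t : ℝ} (ht : 0 ≤ t) (i : Fin 3) :
    SP fun x => Z' t x i := ⟨sl_sm (F := fun t x => Z' t x i) (hF.sZ' i) ht, hF.pZ' t i⟩

theorem Flow.spφ (hF : Flow h₀ M ε P f Z Z' φ q) {t : ℝ} (ht : 0 ≤ t) : SP (φ t) :=
  ⟨sl_sm hF.sφ ht, hF.pφ t⟩

theorem Flow.spq (hF : Flow h₀ M ε P f Z Z' φ q) {t : ℝ} (ht : 0 ≤ t) : SP (q t) :=
  ⟨sl_sm hF.sq ht, hF.pq t⟩

theorem Flow.spV (hF : Flow h₀ M ε P f Z Z' φ q) {t : ℝ} (ht : t₁ ≤ t) (i : Fin 3) :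
    SP fun x => VV t₁ Z φ t x i :=
  sps (hF.spZ (sub_nonneg.2 ht) i) ((hF.spφ (sub_nonneg.2 ht)).pd i)

theorem Flow.divV (hF : Flow h₀ M ε P f Z Z' φ q) {t : ℝ} (ht : t₁ ≤ t) (x : V) :
    ∑ i, pd i (fun y => VV t₁ Z φ t y i) x = 0 := by
  have h0 : 0 ≤ t - t₁ := sub_nonneg.2 ht
  have e : ∀ i, pd i (fun y => VV t₁ Z φ t y i) x =
      pd i (fun y => Z (t - t₁) y i) x - pd i (pd i (φ (t - t₁))) x := fun i =>
    pd_sub' (hF.spZ h0 i) ((hF.spφ h0).pd i) i x
  rw [Finset.sum_congr rfl fun i _ => e i, Finset.sum_sub_distrib, hF.div _ h0]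
  unfold lap
  ring

/-- the time derivative of the gradient of the potential -/
theorem Flow.dtφ (hF : Flow h₀ M ε P f Z Z' φ q) {t : ℝ} (ht : 0 < t) (i : Fin 3) (x : V) :
    deriv (fun s => pd i (φ s) x) t = pd i (lap (φ t)) x := by
  have hs : ContDiffOn ℝ ∞ (fun z : ℝ × V => φ z.1 z.2) (Ico 0 (t + 1) ×ˢ univ) :=
    hF.sφ.mono (prod_mono Ico_subset_Ici_self subset_rfl)
  have h := dt_pd hs (t := t) ⟨ht, by linarith⟩ i x
  have e : dt φ t = lap (φ t) := funext fun y => hF.eφ t ht y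
  rw [e] at h
  exact h

theorem Flow.smV (hF : Flow h₀ M ε P f Z Z' φ q) (i : Fin 3) :
    ContDiffOn ℝ ∞ (fun z : ℝ × V => VV t₁ Z φ z.1 z.2 i) (Ici t₁ ×ˢ univ) := by
  have hm : ContDiffOn ℝ ∞ (fun z : ℝ × V => (z.1 - t₁, z.2)) (Ici t₁ ×ˢ univ) := by
    refine ContDiff.contDiffOn ?_
    fun_prop
  have hmap : MapsTo (fun z : ℝ × V => (z.1 - t₁, z.2)) (Ici t₁ ×ˢ univ) (Ici 0 ×ˢ univ) :=
    fun z hz => ⟨show (0 : ℝ) ≤ z.1 - t₁ from sub_nonneg.2 hz.1, mem_univ _⟩
  exact ((hF.sZ i).comp hm hmap).sub ((hF.sg i).comp hm hmap)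

/-- the time derivative of the divergence-free part -/
theorem Flow.dtV (hF : Flow h₀ M ε P f Z Z' φ q) {t : ℝ} (ht : t₁ < t) (i : Fin 3) (x : V) :
    deriv (fun s => VV t₁ Z φ s x i) t = lap (fun y => VV t₁ Z φ t y i) x -
      (∑ j, pd j (fun y => Z' (t - t₁) y j * Z' (t - t₁) y i) x) - pd i (q (t - t₁)) x := by
  have h0 : 0 < t - t₁ := sub_pos.2 ht
  have hH : IsOpen (Ioi (0 : ℝ)) := isOpen_Ioi
  have hsub : (Ioi (0 : ℝ)) ×ˢ (univ : Set V) ⊆ Ici 0 ×ˢ univ :=
    Set.prod_mono Ioi_subset_Ici_self (le_refl _)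
  have sZ := (hF.sZ i).mono hsub
  have sg := (hF.sg i).mono hsub
  have d1 := (dt_hd' (F := fun t x => Z t x i) hH sZ h0 x)
  have d2 := (dt_hd' (F := fun t x => pd i (φ t) x) hH sg h0 x)
  have d3 : HasDerivAt (fun s : ℝ => s - t₁) 1 t := (hasDerivAt_id t).sub_const t₁
  have d4 := (HasDerivAt.scomp t d1 d3).fun_sub (HasDerivAt.scomp t d2 d3)
  have e1 : deriv (fun s => VV t₁ Z φ s x i) t =
      deriv (fun s => Z s x i) (t - t₁) - deriv (fun s => pd i (φ s) x) (t - t₁) := by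
    have : (fun s => VV t₁ Z φ s x i) = fun s => ((fun s => Z s x i) ∘ fun s => s - t₁) s -
        ((fun s => pd i (φ s) x) ∘ fun s => s - t₁) s := rfl
    rw [this, d4.deriv]
    simp
  have hφ := hF.spφ h0.le
  have e2 : lap (fun y => VV t₁ Z φ t y i) x =
      lap (fun y => Z (t - t₁) y i) x - pd i (lap (φ (t - t₁))) x := by
    have e3 : pd i (lap (φ (t - t₁))) x = ∑ j, pd j (pd j (pd i (φ (t - t₁)))) x := by
      have : lap (φ (t - t₁)) = fun y => ∑ j, pd j (pd j (φ (t - t₁))) y := rfl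
      rw [this, pd_sum (fun j _ => (hφ.pd j).pd j) i x]
      refine Finset.sum_congr rfl fun j _ => ?_
      rw [pd_comm (hφ.pd j) i j, pd_comm hφ i j]
    rw [e3]
    unfold lap
    rw [← Finset.sum_sub_distrib]
    refine Finset.sum_congr rfl fun j _ => ?_
    have e4 : pd j (fun y => VV t₁ Z φ t y i) = fun y => pd j (fun y => Z (t - t₁) y i) y -
        pd j (pd i (φ (t - t₁))) y :=
      funext fun y => pd_sub' (hF.spZ h0.le i) (hφ.pd i) j y
    rw [e4, pd_sub' ((hF.spZ h0.le i).pd j) ((hφ.pd i).pd j)]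
  rw [e1, e2, hF.eZ _ h0, hF.dtφ h0]
  ring

theorem tspU (h : Turb 1 T E D G u p) {t : ℝ} (ht : t ∈ G) (i : Fin 3) : SP fun x => u t x i :=
  ⟨(contDiff_pi.1 (h.spv ht).1) i, fun j x => by
    show u t (x + Pi.single j 1) i = u t x i
    rw [(h.spv ht).2 j x]⟩

theorem energy_c (v : V → V) : energy v = ∑ i, ∫ x in cube, v x i ^ 2 := rfl

end

end Pool.Agent.Helper33S
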