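import Pool.Agent.Helper33S.En
import Pool.Agent.Y496.NS.TU

/-!
The energy of the difference of a suitable weak solution and the auxiliary flow: the energy
inequality (helper33).
-/

set_option autoImplicit false

open MeasureTheory Set Metric Filter Topology
open scoped ContDiff

namespace Pool.Agent.Helper33S

open H459R3.NS W221.NS Pool.Agent.Y8
open Pool.Agent.N976.EQ.E4 (ze ze_smooth ze_cpt ze_nonneg ze_mean ze_pd ze_lap mul_int DD_val
  int_nsq int_gsq pd_cpt cube_cpt cube_meas)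

/-! ### Integrals over the cube depending on time -/

theorem cint_cont {A : Set ℝ} [LocallyCompactSpace A] {F : ℝ → V → ℝ}
    (hF : ContinuousOn (fun z : ℝ × V => F z.1 z.2) (A ×ˢ univ)) :
    ContinuousOn (fun t => ∫ x in cube, F t x) A := by
  rw [continuousOn_iff_continuous_domRestrict] at hF ⊢
  have h3 : Continuous (fun z : A × V =>
      (⟨(z.1.1, z.2), ⟨z.1.2, trivial⟩⟩ : (A ×ˢ univ : Set (ℝ × V)))) := by
    fun_prop
  have h4 := hF.comp h3
  exact continuous_parametric_integral_of_continuous (X := A)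
    (f := fun (t : A) (x : V) => F t x) h4 cube_cpt

section
variable {H : Set ℝ} {F : ℝ → V → ℝ}

theorem dt_per (hH : IsOpen H) (hp : ∀ t ∈ H, Per (F t)) {t : ℝ} (ht : t ∈ H) :
    Per fun x => deriv (fun s => F s x) t := by
  intro j x
  refine Filter.EventuallyEq.deriv_eq ?_
  filter_upwards [hH.mem_nhds ht] with s hs
  exact hp s hs j x

theorem hd_cube (hH : IsOpen H)
    (hF : ContDiffOn ℝ ∞ (fun z : ℝ × V => F z.1 z.2) (H ×ˢ univ))
    (hp : ∀ t ∈ H, Per (F t)) {t : ℝ} (ht : t ∈ H) :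
    HasDerivAt (fun s => ∫ x in cube, F s x) (∫ x in cube, deriv (fun s => F s x) t) t := by
  obtain ⟨R, hR, h0⟩ := ze_ball
  have hF2 : ContDiffOn ℝ ∞ (fun z : ℝ × V => F z.1 z.2 * ze z.2) (H ×ˢ univ) :=
    hF.mul (ze_smooth.comp contDiff_snd).contDiffOn
  have h := hd_int (F := fun t x => F t x * ze x) (a := 0) (R := R) hH hF2
    (fun t _ z hz => by rw [h0 z hz, mul_zero]) ht
  have e1 : ∫ x, deriv (fun s => F s x * ze x) t = ∫ x in cube, deriv (fun s => F s x) t := by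
    rw [← ze_mean (sl_ct (F := fun t x => deriv (fun s => F s x) t)
      (dt_joint hH hF).continuousOn ht) (dt_per hH hp ht)]
    refine integral_congr_ae (Filter.Eventually.of_forall fun x => ?_)
    exact ((dt_hd' hH hF ht x).mul_const _).deriv
  rw [e1] at h
  refine h.congr_of_eventuallyEq ?_
  filter_upwards [hH.mem_nhds ht] with s hs
  exact (ze_mean (sl_sm hF hs).continuous (hp s hs)).symm

theorem ftc_cube (hH : IsOpen H)
    (hF : ContDiffOn ℝ ∞ (fun z : ℝ × V => F z.1 z.2) (H ×ˢ univ))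
    (hp : ∀ t ∈ H, Per (F t)) {s t : ℝ} (hst : s ≤ t) (hI : Icc s t ⊆ H) :
    IntegrableOn (fun τ => ∫ x in cube, deriv (fun s => F s x) τ) (Ioo s t) ∧
    (∫ x in cube, F t x) - (∫ x in cube, F s x) =
      ∫ τ in Ioo s t, ∫ x in cube, deriv (fun s => F s x) τ := by
  have : LocallyCompactSpace H := hH.locallyCompactSpace
  have c : ContinuousOn (fun τ => ∫ x in cube, deriv (fun s => F s x) τ) H :=
    cint_cont (F := fun t x => deriv (fun s => F s x) t) (dt_joint hH hF).continuousOn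
  have ci : IntervalIntegrable (fun τ => ∫ x in cube, deriv (fun s => F s x) τ) volume s t := by
    refine ContinuousOn.intervalIntegrable ?_
    rw [uIcc_of_le hst]
    exact c.mono hI
  have h := intervalIntegral.integral_eq_sub_of_hasDerivAt (a := s) (b := t)
    (f := fun s => ∫ x in cube, F s x) (f' := fun τ => ∫ x in cube, deriv (fun s => F s x) τ)
    (fun τ hτ => hd_cube hH hF hp (hI (by rwa [uIcc_of_le hst] at hτ))) ci
  rw [intervalIntegral.integral_of_le hst, integral_Ioc_eq_integral_Ioo] at h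
  refine ⟨?_, h.symm⟩
  exact (c.mono hI).integrableOn_compact isCompact_Icc |>.mono_set Ioo_subset_Icc_self

end

/-! ### The fields -/

/-- the time derivative of the divergence-free part -/
noncomputable def Vd (t₁ : ℝ) (Z : ℝ → V → V) (φ : ℝ → V → ℝ) (t : ℝ) (i : Fin 3) (x : V) : ℝ :=
  deriv (fun s => VV t₁ Z φ s x i) t

section

variable {T E D : ℝ} {G : Set ℝ} {u : ℝ → V → V} {p : ℝ → V → ℝ} {h₀ M ε P t₁ : ℝ} {f : V → V}
  {Z Z' : ℝ → V → V} {φ q : ℝ → V → ℝ}

theorem Flow.smV' (hF : Flow h₀ M ε P f Z Z' φ q) (i : Fin 3) :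
    ContDiffOn ℝ ∞ (fun z : ℝ × V => VV t₁ Z φ z.1 z.2 i) (Ioi t₁ ×ˢ univ) :=
  (hF.smV i).mono (Set.prod_mono Ioi_subset_Ici_self (le_refl _))

theorem Flow.spVd (hF : Flow h₀ M ε P f Z Z' φ q) {t : ℝ} (ht : t₁ < t) (i : Fin 3) :
    SP (Vd t₁ Z φ t i) where
  smooth := sl_sm (F := fun t x => deriv (fun s => VV t₁ Z φ s x i) t)
    (dt_joint (F := fun t x => VV t₁ Z φ t x i) isOpen_Ioi (hF.smV' i)) ht
  per := dt_per (F := fun t x => VV t₁ Z φ t x i) isOpen_Ioi
    (fun _ hs => (hF.spV (le_of_lt hs) i).per) ht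

/-- the energy of the difference -/
theorem enW_eq (h : Turb 1 T E D G u p) (hF : Flow h₀ M ε P f Z Z' φ q) {t : ℝ} (ht : t ∈ G)
    (h1 : t₁ ≤ t) : energy (WW u t₁ Z φ t) =
      energy (u t) - 2 * (∑ i, ∫ x in cube, u t x i * VV t₁ Z φ t x i) +
        ∑ i, ∫ x in cube, VV t₁ Z φ t x i ^ 2 := by
  unfold energy WW
  rw [Finset.mul_sum, ← Finset.sum_sub_distrib, ← Finset.sum_add_distrib]
  refine Finset.sum_congr rfl fun i _ => ?_
  have c1 := (tspU h ht i).cont
  have c2 := (hF.spV (t₁ := t₁) h1 i).cont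
  have i1 : IntegrableOn (fun x => u t x i ^ 2) cube := integrableOn_cube (c1.pow 2)
  have i2 : IntegrableOn (fun x => 2 * (u t x i * VV t₁ Z φ t x i)) cube :=
    integrableOn_cube ((c1.mul c2).const_mul 2)
  have i3 : IntegrableOn (fun x => VV t₁ Z φ t x i ^ 2) cube := integrableOn_cube (c2.pow 2)
  have i12 : IntegrableOn (fun x => u t x i ^ 2 - 2 * (u t x i * VV t₁ Z φ t x i)) cube :=
    i1.sub i2
  rw [← integral_const_mul, ← integral_sub i1 i2, ← integral_add i12 i3]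
  refine setIntegral_congr_fun cube_meas fun x _ => ?_
  beta_reduce
  ring

/-- the integrand of the energy inequality of the difference -/
noncomputable def II (u : ℝ → V → V) (p : ℝ → V → ℝ) (t₁ : ℝ) (Z : ℝ → V → V) (φ : ℝ → V → ℝ)
    (τ : ℝ) : ℝ :=
  -2 * enstrophy (u τ) - 2 * (∑ i, ∫ x in cube, (u τ x i * (Vd t₁ Z φ τ i x +
    lap (fun y => VV t₁ Z φ τ y i) x) + u τ x i * (∑ j, u τ x j * pd j
      (fun y => VV t₁ Z φ τ y i) x) + p τ x * pd i (fun y => VV t₁ Z φ τ y i) x)) +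
  ∑ i, ∫ x in cube, deriv (fun s => VV t₁ Z φ s x i ^ 2) τ

/-- the energy inequality of the difference -/
theorem en_step (hT : S_TCUT) (h : Turb 1 T E D G u p) (hF : Flow h₀ M ε P f Z Z' φ q)
    {s t : ℝ} (hs : s ∈ G) (ht : t ∈ G) (h1 : t₁ < s) (hst : s ≤ t) :
    IntegrableOn (II u p t₁ Z φ) (Ioo s t) ∧
    energy (WW u t₁ Z φ t) - energy (WW u t₁ Z φ s) ≤ ∫ τ in Ioo s t, II u p t₁ Z φ τ := by
  obtain ⟨R, hR, h0⟩ := ze_ball
  have hae : ∀ᵐ τ ∂(volume.restrict (Ioo s t)), τ ∈ G :=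
    aeT h (h.subG hs).1.le (h.subG ht).2.le
  have h1t : t₁ < t := h1.trans_le hst
  -- the energy of `u`
  have sze : ContDiffOn ℝ ∞ (fun z : ℝ × V => (1 : ℝ) * ze z.2) (Ioo t₁ (t + 1) ×ˢ univ) :=
    (contDiff_const.mul (ze_smooth.comp contDiff_snd)).contDiffOn
  obtain ⟨ia, ea⟩ := lei (Φ := fun _ x => (1 : ℝ) * ze x) hT h sze (a := 0) hR
    (fun t _ z hz => by rw [h0 z hz, mul_zero]) hs ht h1 hst (by linarith)
    (fun τ _ z => mul_nonneg zero_le_one (ze_nonneg z))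
  have hDD : ∀ᵐ τ ∂(volume.restrict (Ioo s t)),
      DD 1 u p (fun _ x => (1 : ℝ) * ze x) τ = -2 * enstrophy (u τ) := by
    filter_upwards [hae] with τ hτ
    have := DD_val h (θ := fun _ => (1 : ℝ)) contDiff_const hτ
    rw [this]
    simp
  have ia' : IntegrableOn (fun τ => -2 * enstrophy (u τ)) (Ioo s t) := ia.congr hDD
  rw [integral_congr_ae hDD] at ea
  have een : ∀ τ ∈ G, ∫ z, nsq (u τ) z * (1 * ze z) = energy (u τ) := by
    intro τ hτ
    simp_rw [one_mul]
    rw [ze_mean (Pool.Agent.N976.EQ.E4.nsq_cont (h.spv hτ).1)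
      (Pool.Agent.N976.EQ.E4.nsq_per (h.spv hτ).2), int_nsq (h.spv hτ).1]
  rw [een t ht, een s hs] at ea
  -- the product
  have sΦ : ∀ i, ContDiffOn ℝ ∞ (fun z : ℝ × V => ze z.2 * VV t₁ Z φ z.1 z.2 i)
      (Ioo t₁ (t + 1) ×ˢ univ) := fun i =>
    (ze_smooth.comp contDiff_snd).contDiffOn.mul
      ((hF.smV' i).mono (Set.prod_mono Ioo_subset_Ioi_self (le_refl _)))
  have hm := fun i => wmom (Φ := fun τ x => ze x * VV t₁ Z φ τ x i) hT h i (sΦ i) (a := 0) hR
    (fun t _ z hz => by rw [h0 z hz, zero_mul]) hs ht h1 hst (by linarith)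
  have hDM : ∀ i, ∀ᵐ τ ∂(volume.restrict (Ioo s t)),
      DM 1 u p (fun τ x => ze x * VV t₁ Z φ τ x i) i τ =
        ∫ x in cube, (u τ x i * (Vd t₁ Z φ τ i x + lap (fun y => VV t₁ Z φ τ y i) x) +
          u τ x i * (∑ j, u τ x j * pd j (fun y => VV t₁ Z φ τ y i) x) +
          p τ x * pd i (fun y => VV t₁ Z φ τ y i) x) := by
    intro i
    filter_upwards [hae, ae_restrict_mem measurableSet_Ioo] with τ hτ hτ2
    have h1τ : t₁ < τ := h1.trans hτ2.1
    have e := dm_val (tspU h hτ) (h.sp hτ) (hF.spV (t₁ := t₁) h1τ.le i) (hF.spVd h1τ i) i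
    rw [← e]
    unfold DM
    have e2 : ∀ x, deriv (fun s => ze x * VV t₁ Z φ s x i) τ = ze x * Vd t₁ Z φ τ i x := fun x =>
      ((dt_hd' (F := fun t x => VV t₁ Z φ t x i) isOpen_Ioi (hF.smV' i) h1τ x).const_mul
        (ze x)).deriv
    simp_rw [e2]
  have im : ∀ i, IntegrableOn (fun τ => ∫ x in cube, (u τ x i * (Vd t₁ Z φ τ i x +
      lap (fun y => VV t₁ Z φ τ y i) x) + u τ x i * (∑ j, u τ x j * pd j
      (fun y => VV t₁ Z φ τ y i) x) + p τ x * pd i (fun y => VV t₁ Z φ τ y i) x)) (Ioo s t) :=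
    fun i => (hm i).1.congr (hDM i)
  have em : ∀ i, (∫ x in cube, u t x i * VV t₁ Z φ t x i) -
      (∫ x in cube, u s x i * VV t₁ Z φ s x i) = ∫ τ in Ioo s t, ∫ x in cube,
        (u τ x i * (Vd t₁ Z φ τ i x + lap (fun y => VV t₁ Z φ τ y i) x) +
          u τ x i * (∑ j, u τ x j * pd j (fun y => VV t₁ Z φ τ y i) x) +
          p τ x * pd i (fun y => VV t₁ Z φ τ y i) x) := by
    intro i
    have e1 := (hm i).2
    rw [integral_congr_ae (hDM i)] at e1
    rw [← e1]
    have e3 : ∀ τ ∈ G, t₁ < τ → ∫ z, u τ z i * (ze z * VV t₁ Z φ τ z i) =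
        ∫ x in cube, u τ x i * VV t₁ Z φ τ x i := by
      intro τ hτ hτ1
      have hS := (tspU h hτ i).mul (hF.spV (t₁ := t₁) hτ1.le i)
      rw [← ze_mean hS.cont hS.per]
      refine integral_congr_ae (Filter.Eventually.of_forall fun x => ?_)
      beta_reduce
      ring
    rw [e3 t ht h1t, e3 s hs h1]
  -- the energy of the divergence-free part
  have sV : ∀ i, ContDiffOn ℝ ∞ (fun z : ℝ × V => VV t₁ Z φ z.1 z.2 i ^ 2) (Ioi t₁ ×ˢ univ) :=
    fun i => (hF.smV' i).pow 2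
  have hv := fun i => ftc_cube (F := fun τ x => VV t₁ Z φ τ x i ^ 2) isOpen_Ioi (sV i)
    (fun τ hτ j x => congrArg (fun r : ℝ => r ^ 2)
      ((hF.spV (t₁ := t₁) (t := τ) (le_of_lt hτ) i).per j x)) hst
    (fun τ hτ => h1.trans_le hτ.1)
  have im' := (integrable_finsetSum (μ := volume.restrict (Ioo s t)) Finset.univ
    fun i _ => im i).const_mul 2
  have iv' := integrable_finsetSum (μ := volume.restrict (Ioo s t)) Finset.univ
    fun i _ => (hv i).1
  have i12 : Integrable (fun τ => -2 * enstrophy (u τ) - 2 * (∑ i, ∫ x in cube, (u τ x i *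
    (Vd t₁ Z φ τ i x + lap (fun y => VV t₁ Z φ τ y i) x) + u τ x i * (∑ j, u τ x j * pd j
      (fun y => VV t₁ Z φ τ y i) x) + p τ x * pd i (fun y => VV t₁ Z φ τ y i) x)))
      (volume.restrict (Ioo s t)) := ia'.sub im'
  refine ⟨i12.add iv', ?_⟩
  unfold II
  rw [integral_add i12 iv', integral_sub ia' im', integral_const_mul 2,
    integral_finsetSum _ fun i _ => im i, integral_finsetSum _ fun i _ => (hv i).1,
    enW_eq h hF ht h1t.le, enW_eq h hF hs h1.le,
    ← Finset.sum_congr rfl fun i _ => em i, ← Finset.sum_congr rfl fun i _ => (hv i).2,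
    Finset.sum_sub_distrib, Finset.sum_sub_distrib]
  linarith

end

end Pool.Agent.Helper33S
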