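import Pool.Agent.Helper33S.En2

/-!
The energy of the difference of a suitable weak solution and the auxiliary flow: the bound of the
right-hand side (helper33).
-/

set_option autoImplicit false

open MeasureTheory Set Metric Filter Topology
open scoped ContDiff

namespace Pool.Agent.Helper33S

open H459R3.NS W221.NS Pool.Agent.Y8
open Pool.Agent.N976.EQ.E4 (int_nsq int_gsq cube_meas)

section

variable {T E D : ℝ} {G : Set ℝ} {u : ℝ → V → V} {p : ℝ → V → ℝ} {h₀ M ε P t₁ : ℝ} {f : V → V}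
  {Z Z' : ℝ → V → V} {φ q : ℝ → V → ℝ}

theorem II_eq (h : Turb 1 T E D G u p) (hF : Flow h₀ M ε P f Z Z' φ q) {τ : ℝ} (hτ : τ ∈ G)
    (h1 : t₁ < τ) : II u p t₁ Z φ τ =
      ∫ x in cube, lhs (fun i => WW u t₁ Z φ τ x i) (fun i => VV t₁ Z φ τ x i)
        (fun i j => pd j (fun y => WW u t₁ Z φ τ y i) x)
        (fun i j => pd j (fun y => VV t₁ Z φ τ y i) x)
        (fun i j => pd j (pd j (fun y => VV t₁ Z φ τ y i)) x) (fun i => Z' (τ - t₁) x i)
        (fun i j => pd j (fun y => Z' (τ - t₁) y i) x) (fun i => pd i (q (τ - t₁)) x) := by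
  have h0 : 0 ≤ τ - t₁ := (sub_pos.2 h1).le
  have su := fun i => tspU h hτ i
  have sp := h.sp hτ
  have sv := fun i => hF.spV (t₁ := t₁) h1.le i
  have sd := fun i => hF.spVd (t₁ := t₁) h1 i
  have sz' := fun i => hF.spZ' h0 i
  have sA : ∀ i, SP fun x => u τ x i * (Vd t₁ Z φ τ i x + lap (fun y => VV t₁ Z φ τ y i) x) +
      u τ x i * (∑ j, u τ x j * pd j (fun y => VV t₁ Z φ τ y i) x) +
      p τ x * pd i (fun y => VV t₁ Z φ τ y i) x := fun i =>
    (((su i).mul ((sd i).add (sv i).lap)).add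
      ((su i).mul (SP.sum fun j _ => (su j).mul ((sv i).pd j)))).add (sp.mul ((sv i).pd i))
  have e1 : ∀ i x, deriv (fun s => VV t₁ Z φ s x i ^ 2) τ =
      2 * (VV t₁ Z φ τ x i * Vd t₁ Z φ τ i x) := by
    intro i x
    have d := (dt_hd' (F := fun t x => VV t₁ Z φ t x i) isOpen_Ioi (hF.smV' i) h1 x).fun_pow 2
    rw [d.deriv]
    unfold Vd
    push_cast
    ring
  have e2 : enstrophy (u τ) = ∫ x in cube, ∑ i, ∑ j, pd j (fun y => u τ y i) x ^ 2 := by
    rw [← int_gsq (h.spv hτ).1]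
    rfl
  have i1 : IntegrableOn (fun x => ∑ i, ∑ j, pd j (fun y => u τ y i) x ^ 2) cube :=
    integrableOn_cube (continuous_finsetSum _ fun i _ => continuous_finsetSum _ fun j _ =>
      (((su i).pd j).cont.pow 2))
  have i2 := integrable_finsetSum (μ := volume.restrict cube) Finset.univ fun i _ => (sA i).int
  have i3 : ∀ i, IntegrableOn (fun x => 2 * (VV t₁ Z φ τ x i * Vd t₁ Z φ τ i x)) cube := fun i =>
    (spc 2 ((sv i).mul (sd i))).int
  have i3' := integrable_finsetSum (μ := volume.restrict cube) Finset.univ fun i _ => i3 i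
  unfold II
  simp_rw [e1]
  rw [e2, ← integral_const_mul, ← integral_finsetSum _ fun i _ => (sA i).int,
    ← integral_const_mul, ← integral_finsetSum _ fun i _ => i3 i]
  have i12 : Integrable (fun x => -2 * (∑ i, ∑ j, pd j (fun y => u τ y i) x ^ 2) -
      2 * ∑ i, (u τ x i * (Vd t₁ Z φ τ i x + lap (fun y => VV t₁ Z φ τ y i) x) +
        u τ x i * (∑ j, u τ x j * pd j (fun y => VV t₁ Z φ τ y i) x) +
        p τ x * pd i (fun y => VV t₁ Z φ τ y i) x)) (volume.restrict cube) :=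
    (i1.const_mul (-2)).sub (i2.const_mul 2)
  rw [← integral_sub (i1.const_mul (-2)) (i2.const_mul 2), ← integral_add i12 i3']
  refine setIntegral_congr_fun cube_meas fun x _ => ?_
  beta_reduce
  have d0 := hF.divV (t₁ := t₁) h1.le x
  have dV : ∀ i, Vd t₁ Z φ τ i x = (∑ j, pd j (pd j (fun y => VV t₁ Z φ τ y i)) x) -
      (∑ j, (pd j (fun y => Z' (τ - t₁) y j) x * Z' (τ - t₁) x i +
        Z' (τ - t₁) x j * pd j (fun y => Z' (τ - t₁) y i) x)) - pd i (q (τ - t₁)) x := by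
    intro i
    have e := hF.dtV h1 i x
    unfold Vd
    rw [e]
    congr 2
    refine Finset.sum_congr rfl fun j _ => ?_
    rw [pd_mul (sz' j) (sz' i)]
    ring
  have dW : ∀ i j, pd j (fun y => WW u t₁ Z φ τ y i) x =
      pd j (fun y => u τ y i) x - pd j (fun y => VV t₁ Z φ τ y i) x := fun i j =>
    pd_sub' (su i) (sv i) j x
  have dl : ∀ i, lap (fun y => VV t₁ Z φ τ y i) x =
      ∑ j, pd j (pd j (fun y => VV t₁ Z φ τ y i)) x := fun i => rfl
  have dw : ∀ i, WW u t₁ Z φ τ x i = u τ x i - VV t₁ Z φ τ x i := fun i => rfl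
  unfold lhs
  simp only [dV, dW, dl, dw, sub_add_cancel]
  have e3 : p τ x * pd 0 (fun y => VV t₁ Z φ τ y 0) x + p τ x * pd 1 (fun y => VV t₁ Z φ τ y 1) x +
      p τ x * pd 2 (fun y => VV t₁ Z φ τ y 2) x = 0 := by
    rw [Fin.sum_univ_three] at d0
    rw [← mul_add, ← mul_add, d0, mul_zero]
  simp only [Fin.sum_univ_three]
  linear_combination (-2) * e3

/-- the bound of the right-hand side -/
theorem II_le (h : Turb 1 T E D G u p) (hF : Flow h₀ M ε P f Z Z' φ q) (hM : 0 ≤ M) {τ : ℝ}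
    (hτ : τ ∈ G) (h1 : t₁ < τ) (h2 : τ - t₁ ≤ h₀) : II u p t₁ Z φ τ ≤
      -enstrophy (WW u t₁ Z φ τ) + (48 * M ^ 2 + 297 * (M / √(τ - t₁))) *
        energy (WW u t₁ Z φ τ) + 36 * ε ^ 2 + (96 * M ^ 2 + 99 * (M / √(τ - t₁))) * P := by
  have h0 : 0 < τ - t₁ := sub_pos.2 h1
  have sw : ∀ i, SP fun x => WW u t₁ Z φ τ x i := fun i =>
    sps (tspU h hτ i) (hF.spV (t₁ := t₁) h1.le i)
  rw [II_eq h hF hτ h1]
  have hW : ∀ x, ∑ j, pd j (fun y => WW u t₁ Z φ τ y j) x = 0 := by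
    intro x
    have e : ∀ j, pd j (fun y => WW u t₁ Z φ τ y j) x = pd j (fun y => u τ y j) x -
        pd j (fun y => VV t₁ Z φ τ y j) x := fun j =>
      pd_sub' (tspU h hτ j) (hF.spV (t₁ := t₁) h1.le j) j x
    rw [Finset.sum_congr rfl fun j _ => e j, Finset.sum_sub_distrib, h.divfree τ hτ x,
      hF.divV (t₁ := t₁) h1.le x, sub_zero]
  have key := bal (w := fun i x => WW u t₁ Z φ τ x i) (v := fun i x => VV t₁ Z φ τ x i)
    (z := fun i x => Z (τ - t₁) x i) (y := fun i x => Z' (τ - t₁) x i) (φ := φ (τ - t₁))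
    (q := q (τ - t₁)) sw (fun i => hF.spV (t₁ := t₁) h1.le i) (fun i => hF.spZ h0.le i)
    (fun i => hF.spZ' h0.le i) (hF.spφ h0.le) (hF.spq h0.le) (fun i x => rfl) hW
    (fun x => hF.divV (t₁ := t₁) h1.le x) (m := 2 * M) (ε := ε) (b := 33 * M / √(τ - t₁))
    (fun i x => hF.bZ _ h0.le h2 x i) (fun i j x => hF.bD _ h0.le h2 x i j)
    (fun i j x => hF.bφ _ h0 x j i)
  refine key.trans ?_
  have hl := hF.l2 _ h0.le
  have hb : 0 ≤ M / √(τ - t₁) := by positivity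
  have e1 : 33 * M / √(τ - t₁) = 33 * (M / √(τ - t₁)) := by ring
  rw [e1]
  have e2 : energy (WW u t₁ Z φ τ) = ∑ i, ∫ x in cube, WW u t₁ Z φ τ x i ^ 2 := rfl
  have e3 : enstrophy (WW u t₁ Z φ τ) =
      ∑ i, ∑ j, ∫ x in cube, pd j (fun y => WW u t₁ Z φ τ y i) x ^ 2 := rfl
  rw [e2, e3]
  have := mul_le_mul_of_nonneg_left hl (show 0 ≤ 24 * (2 * M) ^ 2 + 3 * (33 * (M / √(τ - t₁))) by
    positivity)
  linarith

end

end Pool.Agent.Helper33S
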