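import Pool.Agent.Helper33S.En3

/-!
The energy of the difference of a suitable weak solution and the auxiliary flow: the bounds
(helper33).
-/

set_option autoImplicit false

open MeasureTheory Set Metric Filter Topology
open scoped ContDiff

namespace Pool.Agent.Helper33S

open H459R3.NS W221.NS Pool.Agent.Y8
open Pool.Agent.N976.EQ.E4 (int_nsq int_gsq cube_meas)

theorem sqrt_int {t₁ s t h₀ : ℝ} (h1 : t₁ < s) (hst : s ≤ t) (ht : t - t₁ ≤ h₀) :
    IntegrableOn (fun τ => 1 / √(τ - t₁)) (Ioo s t) ∧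
      ∫ τ in Ioo s t, 1 / √(τ - t₁) ≤ 2 * √h₀ := by
  have hd : ∀ τ, t₁ < τ → HasDerivAt (fun τ => 2 * √(τ - t₁)) (1 / √(τ - t₁)) τ := by
    intro τ hτ
    have h0 : 0 < τ - t₁ := sub_pos.2 hτ
    have d := (((hasDerivAt_id' τ).sub_const t₁).sqrt h0.ne').const_mul (2 : ℝ)
    have e : (1 : ℝ) / √(τ - t₁) = 2 * (1 / (2 * √(τ - t₁))) := by
      have : √(τ - t₁) ≠ 0 := (Real.sqrt_pos.2 h0).ne'
      field_simp
    rw [e]
    exact d
  have c : ContinuousOn (fun τ => 1 / √(τ - t₁)) (Icc s t) := by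
    intro τ hτ
    have h0 : 0 < τ - t₁ := sub_pos.2 (h1.trans_le hτ.1)
    have : √(τ - t₁) ≠ 0 := (Real.sqrt_pos.2 h0).ne'
    have c2 : ContinuousAt (fun τ => 1 / √(τ - t₁)) τ := by
      refine ContinuousAt.div continuousAt_const ?_ this
      fun_prop
    exact c2.continuousWithinAt
  have ci : IntervalIntegrable (fun τ => 1 / √(τ - t₁)) volume s t := by
    refine ContinuousOn.intervalIntegrable ?_
    rwa [uIcc_of_le hst]
  have h := intervalIntegral.integral_eq_sub_of_hasDerivAt (a := s) (b := t)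
    (f := fun τ => 2 * √(τ - t₁)) (f' := fun τ => 1 / √(τ - t₁))
    (fun τ hτ => hd τ (by rw [uIcc_of_le hst] at hτ; exact h1.trans_le hτ.1)) ci
  rw [intervalIntegral.integral_of_le hst, integral_Ioc_eq_integral_Ioo] at h
  refine ⟨c.integrableOn_compact isCompact_Icc |>.mono_set Ioo_subset_Icc_self, ?_⟩
  rw [h]
  have a1 : √(t - t₁) ≤ √h₀ := Real.sqrt_le_sqrt ht
  have a2 := Real.sqrt_nonneg (s - t₁)
  linarith

section

variable {T E D : ℝ} {G : Set ℝ} {u : ℝ → V → V} {p : ℝ → V → ℝ} {h₀ M ε P t₁ : ℝ} {f : V → V}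
  {Z Z' : ℝ → V → V} {φ q : ℝ → V → ℝ}

theorem exG (h : Turb 1 T E D G u p) {a b : ℝ} (ha : 0 ≤ a) (hab : a < b) (hb : b ≤ T) :
    ∃ s ∈ G, a < s ∧ s < b := by
  by_contra hc
  push Not at hc
  have h1 : Ioo a b ⊆ Ioo 0 T \ G := fun s hs =>
    ⟨⟨ha.trans_lt hs.1, hs.2.trans_le hb⟩, fun h2 => (hc s h2 hs.1).not_gt hs.2⟩
  have h2 := measure_mono_null h1 h.fullG
  rw [Real.volume_Ioo, ENNReal.ofReal_eq_zero] at h2
  linarith

theorem spvW (h : Turb 1 T E D G u p) (hF : Flow h₀ M ε P f Z Z' φ q) {τ : ℝ} (hτ : τ ∈ G)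
    (h1 : t₁ ≤ τ) : SPV (WW u t₁ Z φ τ) := by
  have sw : ∀ i, SP fun x => WW u t₁ Z φ τ x i := fun i =>
    sps (tspU h hτ i) (hF.spV (t₁ := t₁) h1 i)
  exact ⟨contDiff_pi.2 fun i => (sw i).smooth, fun j x => funext fun i => (sw i).per j x⟩

theorem spvV (hF : Flow h₀ M ε P f Z Z' φ q) {τ : ℝ}
    (h1 : t₁ ≤ τ) : SPV (VV t₁ Z φ τ) := by
  have sw := fun i => hF.spV (t₁ := t₁) h1 i
  exact ⟨contDiff_pi.2 fun i => (sw i).smooth, fun j x => funext fun i => (sw i).per j x⟩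

/-- the gradient of the divergence-free part -/
theorem gsqV_le (hF : Flow h₀ M ε P f Z Z' φ q) {τ : ℝ} (h1 : t₁ < τ)
    (h2 : τ - t₁ ≤ h₀) (x : V) : gsq (VV t₁ Z φ τ) x ≤ 11664 * M ^ 2 / (τ - t₁) := by
  have h0 : 0 < τ - t₁ := sub_pos.2 h1
  have key : ∀ i j, pd j (fun y => VV t₁ Z φ τ y i) x ^ 2 ≤ 1296 * M ^ 2 / (τ - t₁) := by
    intro i j
    have e : pd j (fun y => VV t₁ Z φ τ y i) x =
        pd j (fun y => Z (τ - t₁) y i) x - pd j (pd i (φ (τ - t₁))) x :=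
      pd_sub' (hF.spZ h0.le i) ((hF.spφ h0.le).pd i) j x
    have b1 := hF.bg _ h0 h2 x i j
    have b2 := hF.bφ _ h0 x j i
    have b3 : |pd j (fun y => VV t₁ Z φ τ y i) x| ≤ 36 * (M / √(τ - t₁)) := by
      rw [e]
      refine (abs_sub _ _).trans ?_
      have : 36 * (M / √(τ - t₁)) = 3 * M / √(τ - t₁) + 33 * M / √(τ - t₁) := by ring
      rw [this]
      exact add_le_add b1 b2
    have b4 := sq_le_sq' (by linarith [(abs_le.1 b3).1]) (abs_le.1 b3).2
    refine b4.trans (le_of_eq ?_)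
    rw [mul_pow, div_pow, Real.sq_sqrt h0.le]
    ring
  unfold gsq
  refine (Finset.sum_le_sum fun i _ => Finset.sum_le_sum fun j _ => key i j).trans
    (le_of_eq ?_)
  simp only [Finset.sum_const, Finset.card_univ, Fintype.card_fin, nsmul_eq_mul]
  ring

theorem gsq_two (h : Turb 1 T E D G u p) (hF : Flow h₀ M ε P f Z Z' φ q) {τ : ℝ} (hτ : τ ∈ G)
    (h1 : t₁ ≤ τ) (x : V) :
    gsq (u τ) x ≤ 2 * gsq (WW u t₁ Z φ τ) x + 2 * gsq (VV t₁ Z φ τ) x ∧
    gsq (WW u t₁ Z φ τ) x ≤ 2 * gsq (u τ) x + 2 * gsq (VV t₁ Z φ τ) x := by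
  have dW : ∀ i j, pd j (fun y => WW u t₁ Z φ τ y i) x =
      pd j (fun y => u τ y i) x - pd j (fun y => VV t₁ Z φ τ y i) x := fun i j =>
    pd_sub' (tspU h hτ i) (hF.spV (t₁ := t₁) h1 i) j x
  unfold gsq
  simp only [Finset.mul_sum, ← Finset.sum_add_distrib]
  constructor
  · refine Finset.sum_le_sum fun i _ => Finset.sum_le_sum fun j _ => ?_
    rw [dW]
    nlinarith [sq_nonneg (pd j (fun y => u τ y i) x - 2 * pd j (fun y => VV t₁ Z φ τ y i) x)]
  · refine Finset.sum_le_sum fun i _ => Finset.sum_le_sum fun j _ => ?_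
    rw [dW]
    nlinarith [sq_nonneg (pd j (fun y => u τ y i) x + pd j (fun y => VV t₁ Z φ τ y i) x)]

theorem smW (h : Turb 1 T E D G u p) (hF : Flow h₀ M ε P f Z Z' φ q) (i : Fin 3) :
    ContDiffOn ℝ ∞ (fun z : ℝ × V => WW u t₁ Z φ z.1 z.2 i) ((G ∩ Ioi t₁) ×ˢ univ) := by
  have h1 := (contDiffOn_pi.1 h.smooth_u) i
  exact (h1.mono (Set.prod_mono inter_subset_left (le_refl _))).sub
    ((hF.smV' i).mono (Set.prod_mono inter_subset_right (le_refl _)))

/-- the enstrophy of the difference is integrable -/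
theorem enstW_ion (h : Turb 1 T E D G u p) (hF : Flow h₀ M ε P f Z Z' φ q) {s t : ℝ}
    (h1 : t₁ < s) (hs0 : 0 ≤ s) (htT : t ≤ T) (ht : t - t₁ ≤ h₀) :
    IntegrableOn (fun τ => enstrophy (WW u t₁ Z φ τ)) (Ioo s t) := by
  have hHo : IsOpen (G ∩ Ioi t₁) := h.openG.inter isOpen_Ioi
  have : LocallyCompactSpace ↥(G ∩ Ioi t₁) := hHo.locallyCompactSpace
  have c : ContinuousOn (fun τ => enstrophy (WW u t₁ Z φ τ)) (G ∩ Ioi t₁) := by
    unfold enstrophy
    refine continuousOn_finsetSum _ fun i _ => continuousOn_finsetSum _ fun j _ => ?_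
    refine cint_cont (F := fun τ x => pd j (fun y => WW u t₁ Z φ τ y i) x ^ 2) ?_
    exact ((pd_joint (F := fun τ x => WW u t₁ Z φ τ x i) hHo (smW h hF i) j).continuousOn).pow 2
  have hm : AEStronglyMeasurable (fun τ => enstrophy (WW u t₁ Z φ τ))
      (volume.restrict (Ioo s t)) := by
    have m1 := (c.mono (inter_subset_inter_right G
      (Ioo_subset_Ioi_self.trans (Ioi_subset_Ioi h1.le)) : G ∩ Ioo s t ⊆ G ∩ Ioi t₁))
    have m2 : AEStronglyMeasurable (fun τ => enstrophy (WW u t₁ Z φ τ))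
        (volume.restrict (G ∩ Ioo s t)) :=
      m1.aestronglyMeasurable (h.openG.measurableSet.inter measurableSet_Ioo)
    have e : volume.restrict (G ∩ Ioo s t) = volume.restrict (Ioo s t) := by
      rw [← Measure.restrict_restrict h.openG.measurableSet]
      exact Measure.restrict_eq_self_of_ae_mem (aeT h hs0 htT)
    rwa [e] at m2
  have hb : IntegrableOn (fun τ => 2 * enstrophy (u τ) + 2 * (11664 * M ^ 2 / (s - t₁)))
      (Ioo s t) :=
    ((Pool.Agent.Y496.NS.TU.enst_ion h hs0 htT).const_mul 2).add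
      (integrableOn_const (by simp))
  refine hb.mono' hm ?_
  filter_upwards [aeT h hs0 htT, ae_restrict_mem measurableSet_Ioo] with τ hτ hτ2
  have h1τ : t₁ < τ := h1.trans hτ2.1
  rw [Real.norm_of_nonneg (Pool.Agent.Y8.enst_nn _),
    enst_eq (spvW h hF hτ h1τ.le).1, enst_eq (h.spv hτ).1]
  have k0 : ∀ x, gsq (WW u t₁ Z φ τ) x ≤ 2 * gsq (u τ) x + 2 * (11664 * M ^ 2 / (s - t₁)) := by
    intro x
    refine (gsq_two h hF hτ h1τ.le x).2.trans ?_
    have k1 := gsqV_le hF h1τ (by linarith [hτ2.2]) x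
    have k2 : 11664 * M ^ 2 / (τ - t₁) ≤ 11664 * M ^ 2 / (s - t₁) :=
      div_le_div_of_nonneg_left (by positivity) (sub_pos.2 h1) (by linarith [hτ2.1])
    linarith
  have i1 : IntegrableOn (fun x => 2 * gsq (u τ) x) cube :=
    (integrableOn_cube (gsq_sm (h.spv hτ).1).continuous).const_mul 2
  have i2 : IntegrableOn (fun _ : V => 2 * (11664 * M ^ 2 / (s - t₁))) cube :=
    integrableOn_cube continuous_const
  have i12 : IntegrableOn (fun x => 2 * gsq (u τ) x + 2 * (11664 * M ^ 2 / (s - t₁))) cube :=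
    i1.add i2
  refine (setIntegral_mono (integrableOn_cube (gsq_sm (spvW h hF hτ h1τ.le).1).continuous)
    i12 k0).trans (le_of_eq ?_)
  rw [integral_add i1 i2, integral_const_mul, setIntegral_const, Measure.real, volume_cube]
  simp

end

end Pool.Agent.Helper33S
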