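import Pool.Agent.Helper33S.En4

/-!
The energy of the difference of a suitable weak solution and the auxiliary flow: the bound of the
enstrophy of the difference (helper33).
-/

set_option autoImplicit false

open MeasureTheory Set Metric Filter Topology
open scoped ContDiff

namespace Pool.Agent.Helper33S

open H459R3.NS W221.NS Pool.Agent.Y8
open Pool.Agent.N976.EQ.E4 (int_nsq int_gsq cube_meas)

section

variable {T E D : ℝ} {G : Set ℝ} {u : ℝ → V → V} {p : ℝ → V → ℝ} {h₀ M ε P t₁ : ℝ} {f : V → V}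
  {Z Z' : ℝ → V → V} {φ q : ℝ → V → ℝ}

/-- one step, given a bound of the energy -/
theorem step_le (hT : S_TCUT) (h : Turb 1 T E D G u p) (hF : Flow h₀ M ε P f Z Z' φ q)
    (hM : 0 ≤ M) (hP : 0 ≤ P) (hs : 3456 * M * √h₀ ≤ 1) (hh : 0 ≤ h₀) {s t K : ℝ} (hsG : s ∈ G)
    (htG : t ∈ G) (h1 : t₁ < s) (hst : s ≤ t) (ht : t - t₁ ≤ h₀) (hK0 : 0 ≤ K)
    (hK : ∀ τ ∈ G, t₁ < τ → τ - t₁ ≤ h₀ → energy (WW u t₁ Z φ τ) ≤ K) :
    energy (WW u t₁ Z φ t) + ∫ τ in Ioo s t, enstrophy (WW u t₁ Z φ τ) ≤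
      energy (WW u t₁ Z φ s) + K / 4 + 36 * ε ^ 2 * h₀ + P / 4 := by
  have hs0 : 0 ≤ s := (h.subG hsG).1.le
  have htT : t ≤ T := (h.subG htG).2.le
  obtain ⟨i1, e1⟩ := en_step hT h hF hsG htG h1 hst
  have i2 := enstW_ion h hF h1 hs0 htT ht
  obtain ⟨i3, e3⟩ := sqrt_int h1 hst ht
  set c1 := 48 * M ^ 2 * K + 36 * ε ^ 2 + 96 * M ^ 2 * P with hc1
  set c2 := 297 * M * K + 99 * M * P with hc2
  have hc1' : 0 ≤ c1 := by positivity
  have hc2' : 0 ≤ c2 := by positivity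
  have i4 : IntegrableOn (fun _ : ℝ => c1) (Ioo s t) := integrableOn_const (by simp)
  have i2n : IntegrableOn (fun τ => -enstrophy (WW u t₁ Z φ τ)) (Ioo s t) := i2.neg
  have i24 : IntegrableOn (fun τ => -enstrophy (WW u t₁ Z φ τ) + c1) (Ioo s t) := i2n.add i4
  have i5 : IntegrableOn (fun τ => c2 * (1 / √(τ - t₁))) (Ioo s t) := i3.const_mul c2
  have i245 : IntegrableOn (fun τ => -enstrophy (WW u t₁ Z φ τ) + c1 + c2 * (1 / √(τ - t₁)))
    (Ioo s t) := i24.add i5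
  have key : ∫ τ in Ioo s t, II u p t₁ Z φ τ ≤
      ∫ τ in Ioo s t, (-enstrophy (WW u t₁ Z φ τ) + c1 + c2 * (1 / √(τ - t₁))) := by
    refine integral_mono_ae i1 i245 ?_
    filter_upwards [aeT h hs0 htT, ae_restrict_mem measurableSet_Ioo] with τ hτ hτ2
    have h1τ : t₁ < τ := h1.trans hτ2.1
    have h2τ : τ - t₁ ≤ h₀ := by linarith [hτ2.2]
    have k1 := II_le h hF hM hτ h1τ h2τ
    have k2 := hK τ hτ h1τ h2τ
    have k3 : 0 ≤ 48 * M ^ 2 + 297 * (M / √(τ - t₁)) := by positivity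
    have k4 := mul_le_mul_of_nonneg_left k2 k3
    have k5 : (48 * M ^ 2 + 297 * (M / √(τ - t₁))) * K + 36 * ε ^ 2 +
        (96 * M ^ 2 + 99 * (M / √(τ - t₁))) * P = c1 + c2 * (1 / √(τ - t₁)) := by
      rw [hc1, hc2]
      ring
    linarith
  rw [integral_add i24 i5, integral_add i2n i4, integral_neg, integral_const_mul c2,
    setIntegral_const, Measure.real, Real.volume_Ioo, ENNReal.toReal_ofReal (by linarith),
    smul_eq_mul] at key
  have m1 : (t - s) * c1 ≤ h₀ * c1 := mul_le_mul_of_nonneg_right (by linarith) hc1'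
  have m2 := mul_le_mul_of_nonneg_left e3 hc2'
  -- the numerical constants
  set x := M * √h₀ with hx
  have hx0 : 0 ≤ x := by positivity
  have hx1 : x ≤ 1 / 3456 := by
    rw [hx]
    linarith
  have hx2 : M ^ 2 * h₀ = x ^ 2 := by
    rw [hx, mul_pow, Real.sq_sqrt hh]
  have hx3 : x ^ 2 ≤ x * (1 / 3456) := by
    rw [sq]
    exact mul_le_mul_of_nonneg_left hx1 hx0
  have e4 : h₀ * c1 = 48 * x ^ 2 * K + 36 * ε ^ 2 * h₀ + 96 * x ^ 2 * P := by
    rw [hc1, ← hx2]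
    ring
  have e5 : c2 * (2 * √h₀) = 594 * x * K + 198 * x * P := by
    rw [hc2, hx]
    ring
  have m3 : (48 * x ^ 2 + 594 * x) * K ≤ 1 / 4 * K :=
    mul_le_mul_of_nonneg_right (by linarith) hK0
  have m4 : (96 * x ^ 2 + 198 * x) * P ≤ 1 / 4 * P :=
    mul_le_mul_of_nonneg_right (by linarith) hP
  linarith

/-- the energy of the divergence-free part -/
theorem enV_le (hF : Flow h₀ M ε P f Z Z' φ q) {τ : ℝ} (h1 : t₁ ≤ τ) (h2 : τ - t₁ ≤ h₀) :
    energy (VV t₁ Z φ τ) ≤ 24 * M ^ 2 + 2 * P := by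
  have h0 : 0 ≤ τ - t₁ := sub_nonneg.2 h1
  have hl := hF.l2 _ h0
  have key : ∀ i, ∫ x in cube, VV t₁ Z φ τ x i ^ 2 ≤
      8 * M ^ 2 + 2 * ∫ x in cube, pd i (φ (τ - t₁)) x ^ 2 := by
    intro i
    have i1 : IntegrableOn (fun x => 2 * pd i (φ (τ - t₁)) x ^ 2) cube :=
      integrableOn_cube ((((hF.spφ h0).pd i).cont.pow 2).const_mul 2)
    have i2 : IntegrableOn (fun _ : V => 8 * M ^ 2) cube := integrableOn_cube continuous_const
    have i12 : IntegrableOn (fun x => 8 * M ^ 2 + 2 * pd i (φ (τ - t₁)) x ^ 2) cube := i2.add i1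
    have i3 : IntegrableOn (fun x => VV t₁ Z φ τ x i ^ 2) cube :=
      integrableOn_cube ((hF.spV h1 i).cont.pow 2)
    refine (setIntegral_mono i3 i12 fun x => ?_).trans (le_of_eq ?_)
    · have b := abs_le.1 (hF.bZ _ h0 h2 x i)
      show (Z (τ - t₁) x i - pd i (φ (τ - t₁)) x) ^ 2 ≤ _
      nlinarith [sq_nonneg (Z (τ - t₁) x i + pd i (φ (τ - t₁)) x),
        mul_nonneg (sub_nonneg.2 b.2) (by linarith [b.1] : (0 : ℝ) ≤ Z (τ - t₁) x i + 2 * M)]
    · rw [integral_add i2 i1, integral_const_mul, setIntegral_const, Measure.real, volume_cube]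
      simp [integral_const_mul]
  unfold energy
  refine (Finset.sum_le_sum fun i _ => key i).trans ?_
  simp only [Fin.sum_univ_three] at hl ⊢
  linarith

theorem energy_two {a b c : V → V} (ha : ∀ i, Continuous fun x => a x i)
    (hb : ∀ i, Continuous fun x => b x i) (hc : ∀ i, Continuous fun x => c x i)
    (hab : ∀ x i, c x i = a x i - b x i) : energy c ≤ 2 * energy a + 2 * energy b := by
  unfold energy
  rw [Finset.mul_sum, Finset.mul_sum, ← Finset.sum_add_distrib]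
  refine Finset.sum_le_sum fun i _ => ?_
  have i1 : IntegrableOn (fun x => 2 * a x i ^ 2) cube :=
    integrableOn_cube (((ha i).pow 2).const_mul 2)
  have i2 : IntegrableOn (fun x => 2 * b x i ^ 2) cube :=
    integrableOn_cube (((hb i).pow 2).const_mul 2)
  rw [← integral_const_mul, ← integral_const_mul, ← integral_add i1 i2]
  refine setIntegral_mono (integrableOn_cube ((hc i).pow 2)) (i1.add i2) fun x => ?_
  beta_reduce
  rw [hab]
  nlinarith [sq_nonneg (a x i + b x i)]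

/-- The energy of the difference at the initial time. -/
theorem enW_init (h : Turb 1 T E D G u p) (hF : Flow h₀ M ε P f Z Z' φ q) (ht₁ : t₁ ∈ G)
    (hf : ∀ i, Continuous fun x => f x i)
    (hg : ∑ i, ∫ x in cube, (u t₁ x i - f x i) ^ 2 ≤ P) : energy (WW u t₁ Z φ t₁) ≤ 4 * P := by
  have hl := hF.l2 0 le_rfl
  have h1 : energy (WW u t₁ Z φ t₁) ≤ 2 * energy (fun x i => u t₁ x i - f x i) +
      2 * energy (fun x i => -pd i (φ 0) x) := by
    refine energy_two (fun i => (tspU h ht₁ i).cont.sub (hf i))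
      (fun i => ((hF.spφ le_rfl).pd i).cont.neg)
      (fun i => (tspU h ht₁ i).cont.sub (hF.spV le_rfl i).cont) fun x i => ?_
    unfold WW VV
    rw [sub_self, hF.init]
    ring
  have h2 : energy (fun x i => u t₁ x i - f x i) ≤ P := hg
  have h3 : energy (fun x i => -pd i (φ 0) x) ≤ P := by
    unfold energy
    simpa using hl
  linarith

/-- The energy of the difference just after the initial time. -/
theorem enW_near (h : Turb 1 T E D G u p) (hF : Flow h₀ M ε P f Z Z' φ q) (ht₁ : t₁ ∈ G)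
    (hf : ∀ i, Continuous fun x => f x i)
    (hg : ∑ i, ∫ x in cube, (u t₁ x i - f x i) ^ 2 ≤ P) {c δ : ℝ} (hc : t₁ < c) (hδ : 0 < δ) :
    ∃ s ∈ G, t₁ < s ∧ s < c ∧ energy (WW u t₁ Z φ s) < 4 * P + δ := by
  obtain ⟨a, b, hab, hsub⟩ := nb h.openG ht₁
  obtain ⟨b', hb1, hb2⟩ := exists_between hab.2
  have hI : Icc t₁ b' ⊆ G := fun s hs => hsub ⟨hab.1.trans_le hs.1, hs.2.trans_lt hb2⟩
  have c1 : ContinuousOn (fun τ => energy (WW u t₁ Z φ τ)) (Icc t₁ b') := by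
    unfold energy
    refine continuousOn_finsetSum _ fun i _ => ?_
    refine cint_cont (F := fun τ x => WW u t₁ Z φ τ x i ^ 2) ?_
    refine ContinuousOn.pow ?_ 2
    exact (((contDiffOn_pi.1 h.smooth_u) i).continuousOn.mono
      (Set.prod_mono hI (le_refl _))).sub ((hF.smV i).continuousOn.mono
      (Set.prod_mono Icc_subset_Ici_self (le_refl _)))
  have h1 := enW_init h hF ht₁ hf hg
  have h2 : ∀ᶠ s in 𝓝[Icc t₁ b'] t₁, energy (WW u t₁ Z φ s) < 4 * P + δ :=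
    (c1 t₁ (left_mem_Icc.2 hb1.le)).eventually (gt_mem_nhds (by linarith))
  have h3 : 𝓝[>] t₁ ≤ 𝓝[Icc t₁ b'] t₁ := by
    rw [← nhdsWithin_Ioc_eq_nhdsGT hb1]
    exact nhdsWithin_mono _ Ioc_subset_Icc_self
  have h4 : ∀ᶠ s in 𝓝[>] t₁, s ∈ Ioo t₁ (min c b') := Ioo_mem_nhdsGT (lt_min hc hb1)
  have h5 : ∀ᶠ s in 𝓝[>] t₁, energy (WW u t₁ Z φ s) < 4 * P + δ := h3 h2
  obtain ⟨s, hs1, hs2⟩ := (h5.and h4).exists
  exact ⟨s, hI ⟨hs2.1.le, hs2.2.le.trans (min_le_right _ _)⟩, hs2.1,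
    hs2.2.trans_le (min_le_left _ _), hs1⟩

/-- **The enstrophy of the difference.** -/
theorem enW_main (hT : S_TCUT) (h : Turb 1 T E D G u p) (hF : Flow h₀ M ε P f Z Z' φ q)
    (hM : 0 ≤ M) (hP : 0 ≤ P) (hs : 3456 * M * √h₀ ≤ 1) (hh0 : 0 ≤ h₀) (ht₁ : t₁ ∈ G)
    (hf : ∀ i, Continuous fun x => f x i)
    (hg : ∑ i, ∫ x in cube, (u t₁ x i - f x i) ^ 2 ≤ P) {a b : ℝ} (ha : t₁ < a)
    (hb : b - t₁ < h₀) (hbT : b < T) :
    IntegrableOn (fun τ => enstrophy (WW u t₁ Z φ τ)) (Ioo a b) ∧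
      ∫ τ in Ioo a b, enstrophy (WW u t₁ Z φ τ) ≤ 6 * P + 48 * ε ^ 2 * h₀ := by
  have ht0 : 0 < t₁ := (h.subG ht₁).1
  refine ⟨enstW_ion h hF ha (ht0.trans ha).le hbT.le hb.le, ?_⟩
  rcases le_or_gt b a with hba | hab
  · rw [Ioo_eq_empty (not_lt.2 hba), setIntegral_empty]
    positivity
  have hh : 0 < h₀ := by linarith
  -- the supremum
  set S := (fun τ => energy (WW u t₁ Z φ τ)) '' {τ | τ ∈ G ∧ t₁ < τ ∧ τ - t₁ ≤ h₀} with hS
  have hbdd : BddAbove S := by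
    refine ⟨2 * E ^ 2 + 2 * (24 * M ^ 2 + 2 * P), ?_⟩
    rintro _ ⟨τ, ⟨hτ, hτ1, hτ2⟩, rfl⟩
    have k1 := energy_two (a := u τ) (b := VV t₁ Z φ τ) (c := WW u t₁ Z φ τ)
      (fun i => (tspU h hτ i).cont) (fun i => (hF.spV hτ1.le i).cont)
      (fun i => (tspU h hτ i).cont.sub (hF.spV hτ1.le i).cont) (fun x i => rfl)
    have k2 := h.energy_le τ hτ
    have k3 := enV_le hF (t₁ := t₁) hτ1.le hτ2
    beta_reduce
    linarith
  have hne : S.Nonempty := by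
    obtain ⟨s, hs1, hs2, hs3⟩ := exG h ht0.le (lt_min (by linarith : t₁ < t₁ + h₀)
      (h.subG ht₁).2) (min_le_right _ _)
    exact ⟨_, s, ⟨hs1, hs2, by linarith [hs3.trans_le (min_le_left (t₁ + h₀) T)]⟩, rfl⟩
  set K := sSup S with hKdef
  have hK : ∀ τ ∈ G, t₁ < τ → τ - t₁ ≤ h₀ → energy (WW u t₁ Z φ τ) ≤ K := fun τ h1 h2 h3 =>
    le_csSup hbdd ⟨τ, ⟨h1, h2, h3⟩, rfl⟩
  have hK0 : 0 ≤ K := by
    obtain ⟨_, τ, ⟨h1, h2, h3⟩, rfl⟩ := hne
    exact (energy_nn _).trans (hK τ h1 h2 h3)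
  have hK2 : K ≤ 17 / 3 * P + 48 * ε ^ 2 * h₀ := by
    refine le_of_forall_pos_le_add fun δ hδ => ?_
    have k1 : K ≤ 4 * P + 3 / 4 * δ + K / 4 + 36 * ε ^ 2 * h₀ + P / 4 := by
      refine csSup_le hne ?_
      rintro _ ⟨τ, ⟨hτ, hτ1, hτ2⟩, rfl⟩
      obtain ⟨s, hs1, hs2, hs3, hs4⟩ := enW_near h hF ht₁ hf hg hτ1
        (by positivity : 0 < 3 / 4 * δ)
      have k2 := step_le hT h hF hM hP hs hh.le hs1 hτ hs2 hs3.le hτ2 hK0 hK
      have k3 : 0 ≤ ∫ τ in Ioo s τ, enstrophy (WW u t₁ Z φ τ) :=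
        integral_nonneg fun _ => Pool.Agent.Y8.enst_nn _
      beta_reduce
      linarith
    linarith
  -- the enstrophy
  obtain ⟨t, ht1, ht2, ht3⟩ := exG h (ht0.trans (ha.trans hab)).le
    (lt_min (by linarith : b < t₁ + h₀) hbT) (min_le_right _ _)
  have ht4 : t - t₁ ≤ h₀ := by linarith [ht3.trans_le (min_le_left (t₁ + h₀) T)]
  refine le_of_forall_pos_le_add fun δ hδ => ?_
  obtain ⟨s, hs1, hs2, hs3, hs4⟩ := enW_near h hF ht₁ hf hg ha hδ
  have k2 := step_le hT h hF hM hP hs hh.le hs1 ht1 hs2 (hs3.trans (hab.trans ht2)).le ht4 hK0 hK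
  have k3 : ∫ τ in Ioo a b, enstrophy (WW u t₁ Z φ τ) ≤
      ∫ τ in Ioo s t, enstrophy (WW u t₁ Z φ τ) :=
    setIntegral_mono_set (enstW_ion h hF hs2 (ht0.trans hs2).le (h.subG ht1).2.le ht4)
      (Filter.Eventually.of_forall fun _ => Pool.Agent.Y8.enst_nn _)
      (Ioo_subset_Ioo hs3.le ht2.le).eventuallyLE
  have k4 := energy_nn (WW u t₁ Z φ t)
  have k5 : 0 ≤ ε ^ 2 * h₀ := by positivity
  linarith

end

end Pool.Agent.Helper33S
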