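import Pool.Agent.Helper33S.Fin4

/-!
The kinetic energy of the fast part of the fluid at ONE time bounds the number of singular points
at a later time (helper33).  Proof: the solution is compared with the mild flow of its truncation
to the slow fluid; modules `Pool.Agent.Helper33S`, which use the local regularity theory in moving
frames of the starting files (`Pool.Agent.Y8` and the modules it imports).
-/

set_option autoImplicit false

open MeasureTheory Set Metric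
open scoped ContDiff

namespace Pool.Agent.Results.MP_6bf1e5_an.FastFluid

open H459R3.NS W221.NS Pool.Agent.Y8

/-- The kinetic energy, over the period cell, of the fluid with speed larger than `a`. -/
noncomputable def fastEnergy (v : V → V) (a : ℝ) : ℝ :=
  ∫ x in cube ∩ {x | a ^ 2 < nsq v x}, nsq v x

/-- Every finite set of points of `Z` with mutual distances at least `r` has at most `B / r`
points. -/
def Few (Z : Set V) (r B : ℝ) : Prop :=
  ∀ S : Finset V, (∀ x ∈ S, x ∈ Z) → (∀ x ∈ S, ∀ y ∈ S, x ≠ y → r ≤ ‖x - y‖) → S.card * r ≤ B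

/-- The weak norm of order `q` of `v` over the period cell, to the power `q`, is at most `W`. -/
def Weak (q : ℝ) (v : V → V) (W : ℝ) : Prop :=
  ∀ s : ℝ, 0 < s → s ^ q * (volume (cube ∩ {x | s ^ 2 < nsq v x})).toReal ≤ W

/-- The conclusions for a set `Z` of points at the time `t₀` and the velocities `u t`, `t ∈ A`. -/
structure Counts (C δ ν E : ℝ) (A : Set ℝ) (u : ℝ → V → V) (t₀ : ℝ) (Z : Set V) : Prop where
  /-- one earlier time bounds the number of separated points, at every small scale -/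
  slice : ∀ t ∈ A, t < t₀ → ∀ r : ℝ, 0 < r → r ^ 2 ≤ ν * (t₀ - t) → (1 + (E / ν) ^ 2) * r ≤ δ →
    Few Z r (C / ν ^ 2 * fastEnergy (u t) (δ * √(ν / (t₀ - t))))
  /-- Leray's lower bounds, for the weak norms of order `q`, multiplied by the number of points -/
  leray : ∀ S : Finset V, (∀ x ∈ S, x ∈ Z) → ∃ d > 0, ∀ t ∈ A, t₀ - d < t → t < t₀ →
    ∀ q W : ℝ, 3 ≤ q → Weak q (u t) W →
      δ ^ (q - 2) * (S.card * ν ^ ((q + 3) / 2)) ≤ C * ((t₀ - t) ^ ((q - 3) / 2) * W)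
  /-- a bound of the weak norm of order three along one sequence of times -/
  finite : ∀ M : ℝ, 0 ≤ M →
    (∀ d > 0, ∃ t ∈ A, t₀ - d < t ∧ t < t₀ ∧ Weak 3 (u t) ((M * ν) ^ 3)) →
    Z.Finite ∧ (Z.ncard : ℝ) ≤ C * M ^ 3

theorem counts_of {Z : Set V} {C δ ν E t₀ : ℝ} (hC : 0 < C) (hδ : 0 < δ) (hν : 0 < ν)
    {A : Set ℝ} {u : ℝ → V → V} (hu : ∀ t ∈ A, SPV (u t))
    (h : ∀ t ∈ A, t < t₀ → ∀ r : ℝ, 0 < r → r ^ 2 ≤ ν * (t₀ - t) → (1 + (E / ν) ^ 2) * r ≤ δ →
      Helper33S.Few Z r (C / ν ^ 2 * Helper33S.fast (u t) (δ ^ 2 * ν / (t₀ - t)))) :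
    Counts (3 * C + 3 * C / δ) δ ν E A u t₀ Z := by
  have h0 : 0 < 3 * C / δ := by positivity
  have hW : ∀ (q : ℝ) (v : V → V) (W : ℝ), Weak q v W → 0 ≤ W := by
    intro q v W hw
    have h1 := hw 1 one_pos
    rw [Real.one_rpow, one_mul] at h1
    exact ENNReal.toReal_nonneg.trans h1
  refine ⟨?_, ?_, ?_⟩
  · intro t ht h1 r hr h2 h3 S hS hsep
    have h4 := h t ht h1 r hr h2 h3 S hS hsep
    have e : (δ * √(ν / (t₀ - t))) ^ 2 = δ ^ 2 * ν / (t₀ - t) := by
      have : 0 ≤ ν / (t₀ - t) := div_nonneg hν.le (by linarith)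
      rw [mul_pow, Real.sq_sqrt this, mul_div_assoc]
    have e2 : fastEnergy (u t) (δ * √(ν / (t₀ - t))) =
        Helper33S.fast (u t) (δ ^ 2 * ν / (t₀ - t)) := by
      unfold fastEnergy Helper33S.fast
      rw [e]
    rw [e2]
    have h5 : 0 ≤ Helper33S.fast (u t) (δ ^ 2 * ν / (t₀ - t)) :=
      integral_nonneg fun x => nsq_nn _ x
    refine h4.trans (mul_le_mul_of_nonneg_right ?_ h5)
    exact div_le_div_of_nonneg_right (by linarith) (by positivity)
  · intro S hS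
    obtain ⟨d, hd, hcn⟩ := Helper33S.cnt_wq hC hδ hν hu h S hS
    refine ⟨d, hd, fun t ht h1 h2 q W hq hw => ?_⟩
    have hW0 := hW q _ W hw
    have ht0 : 0 < t₀ - t := by linarith
    refine (hcn t ht h1 h2 q W hq hW0 hw).trans (mul_le_mul_of_nonneg_right ?_ (by positivity))
    linarith
  · intro M hM hw
    have key : ∀ S : Finset V, (∀ x ∈ S, x ∈ Z) → (S.card : ℝ) ≤ 3 * C / δ * M ^ 3 := by
      intro S hS
      obtain ⟨d, hd, hcn⟩ := Helper33S.cnt_wq hC hδ hν hu h S hS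
      obtain ⟨t, ht, h1, h2, h3⟩ := hw d hd
      have h4 := hcn t ht h1 h2 3 ((M * ν) ^ 3) le_rfl (hW 3 _ _ h3) h3
      have e1 : δ ^ ((3 : ℝ) - 2) = δ := by norm_num
      have e2 : ν ^ (((3 : ℝ) + 3) / 2) = ν ^ 3 := by
        rw [← Real.rpow_natCast ν 3]
        norm_num
      have e3 : (t₀ - t) ^ (((3 : ℝ) - 3) / 2) = 1 := by norm_num
      rw [e1, e2, e3, one_mul] at h4
      have h5 : (S.card : ℝ) * (δ * ν ^ 3) ≤ 3 * C / δ * M ^ 3 * (δ * ν ^ 3) := by
        calc (S.card : ℝ) * (δ * ν ^ 3) = δ * (S.card * ν ^ 3) := by ring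
          _ ≤ 3 * C * (M * ν) ^ 3 := h4
          _ = 3 * C / δ * M ^ 3 * (δ * ν ^ 3) := by
            field_simp
      exact le_of_mul_le_mul_right h5 (by positivity)
    obtain ⟨h1, h2⟩ := Helper33S.few_fin key
    refine ⟨h1, h2.trans (mul_le_mul_of_nonneg_right ?_ (by positivity))⟩
    linarith

/-- **The fast fluid at one time counts the singular points.** -/
theorem result : ∃ C δ : ℝ, 0 < C ∧ 0 < δ ∧
    (∀ (ν T E D : ℝ) (G : Set ℝ) (u : ℝ → V → V) (p : ℝ → V → ℝ), 0 < ν → Turb ν T E D G u p →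
      ∀ t₀ ≤ T, Counts C δ ν E G u t₀ {x | x ∈ cube ∧ SingPt G u t₀ x}) ∧
    ∀ (ν T E : ℝ) (u : ℝ → V → V) (p : ℝ → V → ℝ), 0 < ν → IsSol ν T u p →
      energy (u 0) ≤ E ^ 2 → Counts C δ ν E (Ioo 0 T) u T {x | x ∈ cube ∧ Sing T u x} := by
  obtain ⟨C, δ, hC, hδ, hW, hS⟩ := Helper33S.both
  refine ⟨3 * C + 3 * C / δ, δ, by positivity, hδ, ?_, ?_⟩
  · intro ν T E D G u p hν h t₀ ht₀
    exact counts_of hC hδ hν (fun t ht => h.spv ht) fun t ht h1 r hr h2 h3 =>
      hW ν T E D G u p hν h t ht t₀ r h1 ht₀ hr h2 h3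
  · intro ν T E u p hν h hE
    refine counts_of hC hδ hν (fun t ht => ?_) fun t ht h1 r hr h2 h3 =>
      hS ν T E u p hν h hE t ht r hr h2 h3
    exact ⟨sl_sm h.smooth_u ⟨ht.1.le, ht.2⟩, h.per_u t ⟨ht.1.le, ht.2⟩⟩

end Pool.Agent.Results.MP_6bf1e5_an.FastFluid
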