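import Pool.Agent.Helper33S.Sol
import Pool.Agent.W221.NS.Fin
import Pool.Agent.W221.NS.Asm2

/-!
The kinetic energy of the fast fluid at one time bounds the number of singular points at a later
time: suitable weak solutions and smooth solutions, all viscosities (helper33).
-/

set_option autoImplicit false

open MeasureTheory Set Metric Filter Topology
open scoped ContDiff

namespace Pool.Agent.Helper33S

open H459R3.NS W221.NS Pool.Agent.Y8
open Pool.Agent.N976.EQ.E4 (cube_meas)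

/-- the kinetic energy of the fluid which is faster than `√a` -/
noncomputable def fast (v : V → V) (a : ℝ) : ℝ := ∫ x in cube ∩ {x | a < nsq v x}, nsq v x

/-- the statement for suitable weak solutions, viscosity one -/
def S_W1 (C δ : ℝ) : Prop :=
  ∀ (T E D : ℝ) (G : Set ℝ) (u : ℝ → V → V) (p : ℝ → V → ℝ), Turb 1 T E D G u p →
    ∀ t₁ ∈ G, ∀ t₀ r : ℝ, t₁ < t₀ → t₀ ≤ T → 0 < r → r ^ 2 ≤ t₀ - t₁ → (1 + E ^ 2) * r ≤ δ →
      ∀ S : Finset V, (∀ x ∈ S, x ∈ cube ∧ SingPt G u t₀ x) →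
      (∀ x ∈ S, ∀ y ∈ S, x ≠ y → r ≤ ‖x - y‖) →
        S.card * r ≤ C * fast (u t₁) (δ ^ 2 / (t₀ - t₁))

/-- the statement for smooth solutions at their final time, viscosity one -/
def S_S1 (C δ : ℝ) : Prop :=
  ∀ (T E : ℝ) (u : ℝ → V → V) (p : ℝ → V → ℝ), IsSol 1 T u p → energy (u 0) ≤ E ^ 2 →
    ∀ t₁ ∈ Ioo 0 T, ∀ r : ℝ, 0 < r → r ^ 2 ≤ T - t₁ → (1 + E ^ 2) * r ≤ δ →
      ∀ S : Finset V, (∀ x ∈ S, x ∈ cube ∧ Sing T u x) →
      (∀ x ∈ S, ∀ y ∈ S, x ≠ y → r ≤ ‖x - y‖) →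
        S.card * r ≤ C * fast (u t₁) (δ ^ 2 / (T - t₁))

theorem both1 (hT : S_TCUT) (hcrit : S_CRIT4) (hwfl : S_WFL) :
    ∃ C δ : ℝ, 0 < C ∧ 0 < δ ∧ S_W1 C δ ∧ S_S1 C δ := by
  obtain ⟨C, δ, hC, hδ, hcore⟩ := core hT hcrit hwfl
  refine ⟨C, δ, hC, hδ, ?_, ?_⟩
  · intro T E D G u p h t₁ ht₁ t₀ r h10 h0T hr hrR hrδ S hS hsep
    have hR0 : 0 < √(t₀ - t₁) := Real.sqrt_pos.2 (by linarith)
    have hR2 : √(t₀ - t₁) ^ 2 = t₀ - t₁ := Real.sq_sqrt (by linarith)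
    obtain ⟨Q, η, hη0, hcore⟩ := hcore E r √(t₀ - t₁) hr (Real.le_sqrt_of_sq_le hrR) hrδ
    have hex : ∀ x : V, ∃ (τ : ℝ) (y : V), x ∈ S → (τ ∈ G ∧ |τ - t₀| < η / 4 ∧
        ‖y - x‖ < η / 4 ∧ Q < ‖u τ y‖) := by
      intro x
      by_cases hx : x ∈ S
      · obtain ⟨τ, h1, h2, y, h3, h4⟩ := (hS x hx).2 (η / 4) (by positivity) Q
        exact ⟨τ, y, fun _ => ⟨h1, h2, by rwa [mem_ball, dist_eq_norm] at h3, h4⟩⟩
      · exact ⟨0, 0, fun h => absurd h hx⟩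
    choose ta ya hta using hex
    have ht0 : 0 < t₁ := (h.subG ht₁).1
    obtain ⟨s, hs1, hs2, hs3⟩ : ∃ s, t₀ - η / 4 < s ∧ s < min T (t₀ + η / 4) ∧
        ∀ x ∈ S, ta x < s := by
      set m := min T (t₀ + η / 4) with hm
      have hm1 : t₀ - η / 4 < m := lt_min (by linarith) (by linarith)
      have e1 : ∀ᶠ s in 𝓝[<] m, s ∈ Ioo (t₀ - η / 4) m := Ioo_mem_nhdsLT hm1
      have e2 : ∀ᶠ s in 𝓝[<] m, ∀ x ∈ S, ta x < s := by
        rw [Finset.eventually_all]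
        intro x hx
        obtain ⟨a1, a2, -⟩ := hta x hx
        have a3 : ta x < m := lt_min (h.subG a1).2 (by linarith [(abs_lt.1 a2).2])
        filter_upwards [Ioo_mem_nhdsLT a3] with s hs
        exact hs.1
      obtain ⟨s, h1, h2⟩ := (e1.and e2).exists
      exact ⟨s, h1.1, h1.2, h2⟩
    have hs4 : s < T := hs2.trans_le (min_le_left _ _)
    have hs5 : s < t₀ + η / 4 := hs2.trans_le (min_le_right _ _)
    have key := hcore T D G u p h t₁ ht₁ s (by rw [hR2]; linarith) (by rw [hR2]; linarith) hs4 S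
      (fun x hx => (hS x hx).1) hsep ta ya (fun x hx => by
        obtain ⟨a1, a2, a3, a4⟩ := hta x hx
        exact ⟨a1, by linarith [(abs_lt.1 a2).1], hs3 x hx, by linarith, a4⟩)
    rwa [hR2] at key
  · intro T E u p h hE t₁ ht₁ r hr hrR hrδ S hS hsep
    have hR0 : 0 < √(T - t₁) := Real.sqrt_pos.2 (by linarith [ht₁.2])
    have hR2 : √(T - t₁) ^ 2 = T - t₁ := Real.sq_sqrt (by linarith [ht₁.2])
    obtain ⟨Q, η, hη0, hcore⟩ := hcore E r √(T - t₁) hr (Real.le_sqrt_of_sq_le hrR) hrδ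
    have hT0 : 0 < T := ht₁.1.trans ht₁.2
    have hex : ∀ x : V, ∃ (τ : ℝ) (y : V), x ∈ S → (τ ∈ Ioo (T - min (η / 4) (T - t₁)) T ∧
        ‖y - x‖ < η / 4 ∧ Q < ‖u τ y‖) := by
      intro x
      by_cases hx : x ∈ S
      · obtain ⟨τ, h1, y, h3, h4⟩ := (hS x hx).2 (min (η / 4) (T - t₁))
          (lt_min (by positivity) (by linarith [ht₁.2])) Q
        rw [mem_ball, dist_eq_norm] at h3
        exact ⟨τ, y, fun _ => ⟨h1, h3.trans_le (min_le_left _ _), h4⟩⟩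
      · exact ⟨0, 0, fun h => absurd h hx⟩
    choose ta ya hta using hex
    obtain ⟨s, hs1, hs2, hs3⟩ : ∃ s, max t₁ (T - η / 4) < s ∧ s < T ∧ ∀ x ∈ S, ta x < s := by
      have hm1 : max t₁ (T - η / 4) < T := max_lt ht₁.2 (by linarith)
      have e1 : ∀ᶠ s in 𝓝[<] T, s ∈ Ioo (max t₁ (T - η / 4)) T := Ioo_mem_nhdsLT hm1
      have e2 : ∀ᶠ s in 𝓝[<] T, ∀ x ∈ S, ta x < s := by
        rw [Finset.eventually_all]
        intro x hx
        obtain ⟨a1, -⟩ := hta x hx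
        filter_upwards [Ioo_mem_nhdsLT a1.2] with s hs
        exact hs.1
      obtain ⟨s, h1, h2⟩ := (e1.and e2).exists
      exact ⟨s, h1.1, h1.2, h2⟩
    have hs4 : t₁ < s := (le_max_left _ _).trans_lt hs1
    have hs5 : T - η / 4 < s := (le_max_right _ _).trans_lt hs1
    obtain ⟨T', hT1, hT2⟩ := exists_between hs2
    obtain ⟨D, hturb⟩ := turb_of_sol h hT2 hE
    have key := hcore T' D (Ioo 0 T') u p hturb t₁ ⟨ht₁.1, hs4.trans hT1⟩ s
      (by rw [hR2]; linarith) (by rw [hR2]; linarith) hT1 S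
      (fun x hx => (hS x hx).1) hsep ta ya (fun x hx => by
        obtain ⟨a1, a3, a4⟩ := hta x hx
        have a5 := min_le_left (η / 4) (T - t₁)
        have a6 := min_le_right (η / 4) (T - t₁)
        have a7 := hs3 x hx
        exact ⟨⟨by linarith [a1.1, ht₁.1], a7.trans hT1⟩, by linarith [a1.1], a7, by linarith, a4⟩)
    rwa [hR2] at key

end Pool.Agent.Helper33S
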