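import Pool.Agent.Helper33S.Fin
import Pool.Agent.Y8.Asm3

/-!
All viscosities (helper33).
-/

set_option autoImplicit false

open MeasureTheory Set Metric Filter Topology
open scoped ContDiff

namespace Pool.Agent.Helper33S

open H459R3.NS W221.NS Pool.Agent.Y8
open Pool.Agent.N976.EQ.E4 (cube_meas)

theorem nsq_sm' (c : ℝ) (v : V → V) (x : V) : nsq (fun x => c • v x) x = c ^ 2 * nsq v x := by
  unfold nsq
  rw [Finset.mul_sum]
  refine Finset.sum_congr rfl fun i _ => ?_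
  show (c * v x i) ^ 2 = c ^ 2 * v x i ^ 2
  ring

theorem fast_sm {ν : ℝ} (hν : 0 < ν) (v : V → V) (a : ℝ) :
    fast (fun x => ν⁻¹ • v x) (a / ν) = ν⁻¹ ^ 2 * fast v (a * ν) := by
  unfold fast
  have e : {x | a / ν < nsq (fun x => ν⁻¹ • v x) x} = {x | a * ν < nsq v x} := by
    ext x
    simp only [mem_ofPred_eq, nsq_sm']
    rw [inv_pow, inv_mul_eq_div, div_lt_div_iff₀ hν (by positivity)]
    constructor
    · intro h
      have : a * ν * ν < nsq v x * ν := by nlinarith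
      exact lt_of_mul_lt_mul_right this hν.le
    · intro h
      have := mul_lt_mul_of_pos_right h hν
      nlinarith
  rw [e]
  simp_rw [nsq_sm']
  rw [integral_const_mul]

/-- A set of points has few separated points. -/
def Few (Z : Set V) (r B : ℝ) : Prop :=
  ∀ S : Finset V, (∀ x ∈ S, x ∈ Z) → (∀ x ∈ S, ∀ y ∈ S, x ≠ y → r ≤ ‖x - y‖) → S.card * r ≤ B

/-- the statement for suitable weak solutions -/
def S_W (C δ : ℝ) : Prop :=
  ∀ (ν T E D : ℝ) (G : Set ℝ) (u : ℝ → V → V) (p : ℝ → V → ℝ), 0 < ν → Turb ν T E D G u p →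
    ∀ t ∈ G, ∀ t₀ r : ℝ, t < t₀ → t₀ ≤ T → 0 < r → r ^ 2 ≤ ν * (t₀ - t) →
      (1 + (E / ν) ^ 2) * r ≤ δ →
        Few {x | x ∈ cube ∧ SingPt G u t₀ x} r (C / ν ^ 2 * fast (u t) (δ ^ 2 * ν / (t₀ - t)))

/-- the statement for smooth solutions at their final time -/
def S_S (C δ : ℝ) : Prop :=
  ∀ (ν T E : ℝ) (u : ℝ → V → V) (p : ℝ → V → ℝ), 0 < ν → IsSol ν T u p →
    energy (u 0) ≤ E ^ 2 → ∀ t ∈ Ioo 0 T, ∀ r : ℝ, 0 < r → r ^ 2 ≤ ν * (T - t) →
      (1 + (E / ν) ^ 2) * r ≤ δ →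
        Few {x | x ∈ cube ∧ Sing T u x} r (C / ν ^ 2 * fast (u t) (δ ^ 2 * ν / (T - t)))

theorem both : ∃ C δ : ℝ, 0 < C ∧ 0 < δ ∧ S_W C δ ∧ S_S C δ := by
  obtain ⟨C, δ, hC, hδ, hW, hS⟩ := both1 Pool.Agent.Y8.B.p_tcut
    (t_CRIT4 Pool.Agent.Y8.B.p_wfr2 Pool.Agent.Y8.B.p_wlocal) Pool.Agent.Y8.B.p_wfl
  refine ⟨C, δ, hC, hδ, ?_, ?_⟩
  · intro ν T E D G u p hν h t ht t₀ r h1 h2 hr hr2 hr3 S hS hsep
    obtain ⟨hT', hsing⟩ := Pool.Agent.Y8.B.p_wscal ν T E D G u p hν h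
    have e0 : ν * t / ν = t := by field_simp
    have key := hW _ _ _ _ _ _ hT' (ν * t) (by rw [mem_ofPred_eq, e0]; exact ht) (ν * t₀) r
      (mul_lt_mul_of_pos_left h1 hν) (mul_le_mul_of_nonneg_left h2 hν.le) hr (by linarith) hr3 S
      (fun x hx => ⟨(hS x hx).1, hsing t₀ x (hS x hx).2⟩) hsep
    rw [e0] at key
    have e1 : δ ^ 2 / (ν * t₀ - ν * t) = δ ^ 2 / (t₀ - t) / ν := by
      rw [← mul_sub, div_div, mul_comm ν]
    rw [e1, fast_sm hν] at key
    have e2 : δ ^ 2 / (t₀ - t) * ν = δ ^ 2 * ν / (t₀ - t) := by ring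
    rw [e2] at key
    refine key.trans (le_of_eq ?_)
    field_simp
  · intro ν T E u p hν h hE t ht r hr hr2 hr3 S hSS hsep
    have h' := Pool.Agent.W930.MD.t_SCALE ν T u p hν (ht.1.trans ht.2) h
    have e0 : ν * t / ν = t := by field_simp
    have hE' : energy ((fun t x => ν⁻¹ • u (t / ν) x) 0) ≤ (E / ν) ^ 2 := by
      have e : energy ((fun t x => ν⁻¹ • u (t / ν) x) 0) = ν⁻¹ ^ 2 * energy (u 0) := by
        unfold energy
        rw [Finset.mul_sum]
        refine Finset.sum_congr rfl fun i _ => ?_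
        rw [← integral_const_mul]
        refine setIntegral_congr_fun cube_meas fun x _ => ?_
        show (ν⁻¹ * u (0 / ν) x i) ^ 2 = ν⁻¹ ^ 2 * u 0 x i ^ 2
        rw [zero_div]
        ring
      rw [e, div_pow, inv_pow, inv_mul_eq_div]
      gcongr
    have key := hS _ _ _ _ h' hE' (ν * t)
      ⟨mul_pos hν ht.1, mul_lt_mul_of_pos_left ht.2 hν⟩ r hr (by linarith) hr3 S
      (fun x hx => ⟨(hSS x hx).1, sing_scale hν (hSS x hx).2⟩) hsep
    rw [e0] at key
    have e1 : δ ^ 2 / (ν * T - ν * t) = δ ^ 2 / (T - t) / ν := by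
      rw [← mul_sub, div_div, mul_comm ν]
    rw [e1, fast_sm hν] at key
    have e2 : δ ^ 2 / (T - t) * ν = δ ^ 2 * ν / (T - t) := by ring
    rw [e2] at key
    refine key.trans (le_of_eq ?_)
    field_simp

/-! ### Integrals over the fast fluid -/

theorem nsq_ct {v : V → V} (hv : SPV v) : Continuous (nsq v) := W382.ME.nsq_cont hv.1

/-- the energy of the fast fluid and the higher moments -/
theorem fast_lp {v : V → V} (hv : SPV v) {lam p : ℝ} (hl : 0 < lam) (hp : 2 ≤ p) :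
    fast v (lam ^ 2) ≤ lam ^ (2 - p) * ∫ x in cube, nsq v x ^ (p / 2) := by
  have hc := nsq_ct hv
  have hm : MeasurableSet {x | lam ^ 2 < nsq v x} := measurableSet_lt measurable_const hc.measurable
  have i1 : IntegrableOn (fun x => lam ^ (2 - p) * nsq v x ^ (p / 2)) cube :=
    integrableOn_cube (continuous_const.mul (hc.rpow_const fun _ => Or.inr (by linarith)))
  unfold fast
  rw [← integral_const_mul, ← setIntegral_indicator hm]
  refine setIntegral_mono ((integrableOn_cube hc).indicator hm) i1 fun x => ?_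
  have hn := nsq_nn v x
  by_cases hx : lam ^ 2 < nsq v x
  · rw [indicator_of_mem (show x ∈ {x | lam ^ 2 < nsq v x} from hx)]
    have hn0 : 0 < nsq v x := (by positivity : (0 : ℝ) < lam ^ 2).trans hx
    have e1 : nsq v x ^ (p / 2) = nsq v x * nsq v x ^ (p / 2 - 1) := by
      rw [Real.rpow_sub_one hn0.ne']
      field_simp
    have e2 : lam ^ (p - 2) ≤ nsq v x ^ (p / 2 - 1) := by
      have e3 : lam ^ (p - 2) = (lam ^ 2) ^ (p / 2 - 1) := by
        rw [← Real.rpow_natCast lam 2, ← Real.rpow_mul hl.le]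
        congr 1
        push_cast
        ring
      rw [e3]
      exact Real.rpow_le_rpow (by positivity) hx.le (by linarith)
    have e4 : lam ^ (2 - p) * lam ^ (p - 2) = 1 := by
      rw [← Real.rpow_add hl]
      have : 2 - p + (p - 2) = 0 := by ring
      rw [this, Real.rpow_zero]
    rw [e1]
    calc nsq v x = nsq v x * (lam ^ (2 - p) * lam ^ (p - 2)) := by rw [e4, mul_one]
      _ = lam ^ (2 - p) * (nsq v x * lam ^ (p - 2)) := by ring
      _ ≤ lam ^ (2 - p) * (nsq v x * nsq v x ^ (p / 2 - 1)) := by gcongr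
  · rw [indicator_of_notMem (show x ∉ {x | lam ^ 2 < nsq v x} from hx)]
    positivity

end Pool.Agent.Helper33S
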