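import Pool.Agent.Helper33S.Fin2

/-!
The weak norm of order three; the consequences of the count (helper33).
-/

set_option autoImplicit false

open MeasureTheory Set Metric Filter Topology
open scoped ContDiff ENNReal

namespace Pool.Agent.Helper33S

open H459R3.NS W221.NS Pool.Agent.Y8
open Pool.Agent.N976.EQ.E4 (cube_meas)

/-- the weak norm of order three over the cell is at most `M` -/
def Weak3 (v : V → V) (M : ℝ) : Prop :=
  ∀ s : ℝ, 0 < s → s ^ 3 * (volume (cube ∩ {x | s ^ 2 < nsq v x})).toReal ≤ M ^ 3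

theorem cube_fin : volume cube < ⊤ := by
  rw [volume_cube]
  exact ENNReal.one_lt_top

theorem fast_w3 {v : V → V} (hv : SPV v) {lam M : ℝ} (hl : 0 < lam) (hM : 0 ≤ M)
    (hw : Weak3 v M) : fast v (lam ^ 2) ≤ 3 * M ^ 3 / lam := by
  have hc := nsq_ct hv
  have hm : ∀ a, MeasurableSet {x | a < nsq v x} := fun a =>
    measurableSet_lt measurable_const hc.measurable
  have hvol : ∀ s, 0 < s → volume (cube ∩ {x | s ^ 2 < nsq v x}) ≤ ENNReal.ofReal (M ^ 3 / s ^ 3) := by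
    intro s hs
    have h1 : volume (cube ∩ {x | s ^ 2 < nsq v x}) ≠ ⊤ :=
      ((measure_mono inter_subset_left).trans_lt cube_fin).ne
    rw [← ENNReal.ofReal_toReal h1]
    refine ENNReal.ofReal_le_ofReal ?_
    rw [le_div_iff₀ (by positivity), mul_comm]
    exact hw s hs
  have hvol' : ∀ t, 0 < t → volume (cube ∩ {x | t < nsq v x}) ≤
      ENNReal.ofReal (M ^ 3 * t ^ (-(3 / 2) : ℝ)) := by
    intro t ht
    have h := hvol √t (Real.sqrt_pos.2 ht)
    rw [Real.sq_sqrt ht.le] at h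
    have e : M ^ 3 / √t ^ 3 = M ^ 3 * t ^ (-(3 / 2) : ℝ) := by
      rw [Real.sqrt_eq_rpow, ← Real.rpow_natCast (t ^ (1 / 2 : ℝ)) 3, ← Real.rpow_mul ht.le,
        Real.rpow_neg ht.le, div_eq_mul_inv]
      congr 3
      push_cast
      ring
    rwa [e] at h
  unfold fast
  rw [integral_eq_lintegral_of_nonneg_ae (ae_of_all _ fun x => nsq_nn v x)
    hc.aestronglyMeasurable]
  refine ENNReal.toReal_le_of_le_ofReal (by positivity) ?_
  rw [lintegral_eq_lintegral_meas_lt _ (ae_of_all _ fun x => nsq_nn v x)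
    hc.measurable.aemeasurable]
  have hsplit : Ioi (0 : ℝ) = Ioc 0 (lam ^ 2) ∪ Ioi (lam ^ 2) :=
    (Ioc_union_Ioi_eq_Ioi (by positivity)).symm
  have hl2 : 0 < lam ^ 2 := by positivity
  rw [hsplit]
  refine (lintegral_union_le _ _ _).trans ?_
  have p1 : ∫⁻ t in Ioc 0 (lam ^ 2), (volume.restrict (cube ∩ {x | lam ^ 2 < nsq v x}))
      {x | t < nsq v x} ≤ ENNReal.ofReal (M ^ 3 / lam) := by
    calc _ ≤ ∫⁻ _ in Ioc 0 (lam ^ 2), ENNReal.ofReal (M ^ 3 / lam ^ 3) := by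
          refine setLIntegral_mono' measurableSet_Ioc fun t _ => ?_
          rw [Measure.restrict_apply (hm t)]
          exact (measure_mono inter_subset_right).trans (hvol lam hl)
      _ = ENNReal.ofReal (M ^ 3 / lam) := by
          rw [setLIntegral_const, Real.volume_Ioc, ← ENNReal.ofReal_mul (by positivity), sub_zero]
          congr 1
          field_simp
  have p2 : ∫⁻ t in Ioi (lam ^ 2), (volume.restrict (cube ∩ {x | lam ^ 2 < nsq v x}))
      {x | t < nsq v x} ≤ ENNReal.ofReal (2 * M ^ 3 / lam) := by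
    have hi : IntegrableOn (fun t : ℝ => M ^ 3 * t ^ (-(3 / 2) : ℝ)) (Ioi (lam ^ 2)) :=
      (integrableOn_Ioi_rpow_of_lt (by norm_num) hl2).const_mul _
    calc _ ≤ ∫⁻ t in Ioi (lam ^ 2), ENNReal.ofReal (M ^ 3 * t ^ (-(3 / 2) : ℝ)) := by
          refine setLIntegral_mono' measurableSet_Ioi fun t ht => ?_
          rw [Measure.restrict_apply (hm t)]
          refine (measure_mono fun x hx => ?_).trans (hvol' t (hl2.trans ht))
          exact ⟨hx.2.1, hx.1⟩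
      _ = ENNReal.ofReal (∫ t in Ioi (lam ^ 2), M ^ 3 * t ^ (-(3 / 2) : ℝ)) := by
          refine (ofReal_integral_eq_lintegral_ofReal hi ?_).symm
          filter_upwards [ae_restrict_mem measurableSet_Ioi] with t ht
          have : 0 < t := hl2.trans ht
          positivity
      _ = ENNReal.ofReal (2 * M ^ 3 / lam) := by
          rw [integral_const_mul, integral_Ioi_rpow_of_lt (by norm_num) hl2]
          congr 1
          have e : (lam ^ 2 : ℝ) ^ (-(3 / 2) + 1 : ℝ) = lam⁻¹ := by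
            rw [← Real.rpow_natCast lam 2, ← Real.rpow_mul hl.le]
            have : ((2 : ℕ) : ℝ) * (-(3 / 2) + 1) = -1 := by push_cast; norm_num
            rw [this, Real.rpow_neg_one]
          rw [e]
          field_simp
          norm_num
  refine (add_le_add p1 p2).trans ?_
  rw [← ENNReal.ofReal_add (by positivity) (by positivity)]
  refine ENNReal.ofReal_le_ofReal (le_of_eq ?_)
  field_simp
  norm_num

/-- few separated points at all small scales: the set is finite -/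
theorem few_fin {Z : Set V} {B : ℝ} (h : ∀ S : Finset V, (∀ x ∈ S, x ∈ Z) → (S.card : ℝ) ≤ B) :
    Z.Finite ∧ (Z.ncard : ℝ) ≤ B := by
  have hfin : Z.Finite := by
    by_contra hinf
    obtain ⟨n, hn⟩ := exists_nat_gt B
    obtain ⟨S, hS, hSn⟩ := (Set.not_finite.1 hinf : Z.Infinite).exists_subset_card_eq n
    have := h S fun x hx => hS hx
    rw [hSn] at this
    linarith
  refine ⟨hfin, ?_⟩
  have h1 := h hfin.toFinset fun x hx => by simpa using hx
  rwa [← Set.ncard_eq_toFinset_card Z hfin] at h1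

/-- the separation of a finite set -/
theorem sep_pos (S : Finset V) : ∃ d : ℝ, 0 < d ∧ ∀ x ∈ S, ∀ y ∈ S, x ≠ y → d ≤ ‖x - y‖ := by
  classical
  by_cases hne : (S.offDiag).Nonempty
  · obtain ⟨z, hz, hmin⟩ := S.offDiag.exists_min_image (fun z => ‖z.1 - z.2‖) hne
    rw [Finset.mem_offDiag] at hz
    refine ⟨‖z.1 - z.2‖, norm_pos_iff.2 (sub_ne_zero.2 hz.2.2), fun x hx y hy hxy => ?_⟩
    exact hmin (x, y) (Finset.mem_offDiag.2 ⟨hx, hy, hxy⟩)
  · refine ⟨1, one_pos, fun x hx y hy hxy => ?_⟩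
    exact absurd ⟨(x, y), Finset.mem_offDiag.2 ⟨hx, hy, hxy⟩⟩ hne

/-- From few points at the scale given by the time to a bound of the number of points. -/
theorem cnt_of_few {Z : Set V} {C δ ν E t₀ : ℝ} (hδ : 0 < δ) (hν : 0 < ν)
    {A : Set ℝ} {u : ℝ → V → V}
    (h : ∀ t ∈ A, t < t₀ → ∀ r : ℝ, 0 < r → r ^ 2 ≤ ν * (t₀ - t) → (1 + (E / ν) ^ 2) * r ≤ δ →
      Few Z r (C / ν ^ 2 * fast (u t) (δ ^ 2 * ν / (t₀ - t)))) (S : Finset V)
    (hS : ∀ x ∈ S, x ∈ Z) : ∃ d > 0, ∀ t ∈ A, t₀ - d < t → t < t₀ →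
      S.card * √(ν * (t₀ - t)) ≤ C / ν ^ 2 * fast (u t) ((δ * ν / √(ν * (t₀ - t))) ^ 2) := by
  obtain ⟨d, hd, hsep⟩ := sep_pos S
  set m := min d (δ / (1 + (E / ν) ^ 2)) with hm
  have hm0 : 0 < m := by positivity
  refine ⟨m ^ 2 / ν, by positivity, fun t ht h1 h2 => ?_⟩
  have h3 : ν * (t₀ - t) < m ^ 2 := by
    have : t₀ - t < m ^ 2 / ν := by linarith
    rw [lt_div_iff₀ hν] at this
    linarith
  have h4 : 0 < ν * (t₀ - t) := mul_pos hν (by linarith)
  have hr0 : 0 < √(ν * (t₀ - t)) := Real.sqrt_pos.2 h4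
  have hr2 : √(ν * (t₀ - t)) ^ 2 = ν * (t₀ - t) := Real.sq_sqrt h4.le
  have hrm : √(ν * (t₀ - t)) ≤ m := by
    rw [← Real.sqrt_sq hm0.le]
    exact Real.sqrt_le_sqrt h3.le
  have h5 := h t ht h2 √(ν * (t₀ - t)) hr0 hr2.le (by
    have h6 : √(ν * (t₀ - t)) ≤ δ / (1 + (E / ν) ^ 2) := hrm.trans (min_le_right _ _)
    rw [le_div_iff₀ (by positivity)] at h6
    linarith) S hS (fun x hx y hy hxy => (hrm.trans (min_le_left _ _)).trans (hsep x hx y hy hxy))
  have e : δ ^ 2 * ν / (t₀ - t) = (δ * ν / √(ν * (t₀ - t))) ^ 2 := by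
    rw [div_pow, hr2]
    have : t₀ - t ≠ 0 := by linarith
    field_simp
  rwa [e] at h5

/-- the count by the weak norm of order three along a sequence of times -/
theorem cnt_w3 {Z : Set V} {C δ ν E t₀ M : ℝ} (hC : 0 < C) (hδ : 0 < δ) (hν : 0 < ν)
    {A : Set ℝ} {u : ℝ → V → V} (hu : ∀ t ∈ A, SPV (u t))
    (h : ∀ t ∈ A, t < t₀ → ∀ r : ℝ, 0 < r → r ^ 2 ≤ ν * (t₀ - t) → (1 + (E / ν) ^ 2) * r ≤ δ →
      Few Z r (C / ν ^ 2 * fast (u t) (δ ^ 2 * ν / (t₀ - t)))) (hM : 0 ≤ M)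
    (hw : ∀ d > 0, ∃ t ∈ A, t₀ - d < t ∧ t < t₀ ∧ Weak3 (u t) (M * ν)) :
    Z.Finite ∧ (Z.ncard : ℝ) ≤ 3 * C / δ * M ^ 3 := by
  refine few_fin fun S hS => ?_
  obtain ⟨d, hd, hcn⟩ := cnt_of_few hδ hν h S hS
  obtain ⟨t, ht, h1, h2, h3⟩ := hw d hd
  have h4 := hcn t ht h1 h2
  have h5 : 0 < ν * (t₀ - t) := mul_pos hν (by linarith)
  set r := √(ν * (t₀ - t)) with hr
  have hr0 : 0 < r := Real.sqrt_pos.2 h5
  have h6 := fast_w3 (hu t ht) (lam := δ * ν / r) (by positivity) (by positivity) h3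
  have h7 : (S.card : ℝ) * r ≤ C / ν ^ 2 * (3 * (M * ν) ^ 3 / (δ * ν / r)) :=
    h4.trans (mul_le_mul_of_nonneg_left h6 (by positivity))
  have e : C / ν ^ 2 * (3 * (M * ν) ^ 3 / (δ * ν / r)) = 3 * C / δ * M ^ 3 * r := by
    field_simp
  rw [e] at h7
  exact le_of_mul_le_mul_right h7 hr0

/-- Leray's lower bounds count the singular points -/
theorem cnt_lp {Z : Set V} {C δ ν E t₀ : ℝ} (hC : 0 < C) (hδ : 0 < δ) (hν : 0 < ν)
    {A : Set ℝ} {u : ℝ → V → V} (hu : ∀ t ∈ A, SPV (u t))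
    (h : ∀ t ∈ A, t < t₀ → ∀ r : ℝ, 0 < r → r ^ 2 ≤ ν * (t₀ - t) → (1 + (E / ν) ^ 2) * r ≤ δ →
      Few Z r (C / ν ^ 2 * fast (u t) (δ ^ 2 * ν / (t₀ - t)))) {p : ℝ} (hp : 2 ≤ p) (S : Finset V)
    (hS : ∀ x ∈ S, x ∈ Z) : ∃ d > 0, ∀ t ∈ A, t₀ - d < t → t < t₀ →
      S.card * (δ ^ (p - 2) * ν ^ p) ≤
        C * (√(ν * (t₀ - t)) ^ (p - 3) * ∫ x in cube, nsq (u t) x ^ (p / 2)) := by
  obtain ⟨d, hd, hcn⟩ := cnt_of_few hδ hν h S hS
  refine ⟨d, hd, fun t ht h1 h2 => ?_⟩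
  have h4 := hcn t ht h1 h2
  have h5 : 0 < ν * (t₀ - t) := mul_pos hν (by linarith)
  set r := √(ν * (t₀ - t)) with hr
  have hr0 : 0 < r := Real.sqrt_pos.2 h5
  have hl : 0 < δ * ν / r := by positivity
  have h6 := fast_lp (hu t ht) hl hp
  set I := ∫ x in cube, nsq (u t) x ^ (p / 2) with hI
  have h7 : (S.card : ℝ) * r ≤ C / ν ^ 2 * ((δ * ν / r) ^ (2 - p) * I) :=
    h4.trans (mul_le_mul_of_nonneg_left h6 (by positivity))
  have h8 : 0 ≤ δ ^ (p - 2) * ν ^ p / r := by positivity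
  have h9 := mul_le_mul_of_nonneg_right h7 h8
  have e1 : (S.card : ℝ) * r * (δ ^ (p - 2) * ν ^ p / r) = S.card * (δ ^ (p - 2) * ν ^ p) := by
    field_simp
  have e2 : C / ν ^ 2 * ((δ * ν / r) ^ (2 - p) * I) * (δ ^ (p - 2) * ν ^ p / r) =
      C * (r ^ (p - 3) * I) := by
    have a1 : (δ * ν / r) ^ (2 - p) = δ ^ (2 - p) * ν ^ (2 - p) * r ^ (p - 2) := by
      rw [Real.div_rpow (by positivity) hr0.le, Real.mul_rpow hδ.le hν.le, div_eq_mul_inv,
        ← Real.rpow_neg hr0.le]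
      congr 2
      ring
    have a2 : δ ^ (2 - p) * δ ^ (p - 2) = 1 := by
      rw [← Real.rpow_add hδ]
      have : 2 - p + (p - 2) = 0 := by ring
      rw [this, Real.rpow_zero]
    have a3 : ν ^ (2 - p) * ν ^ p = ν ^ 2 := by
      rw [← Real.rpow_add hν]
      have : 2 - p + p = ((2 : ℕ) : ℝ) := by push_cast; ring
      rw [this, Real.rpow_natCast]
    have a4 : r ^ (p - 2) / r = r ^ (p - 3) := by
      rw [← Real.rpow_sub_one hr0.ne']
      congr 1
      ring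
    rw [a1]
    calc C / ν ^ 2 * (δ ^ (2 - p) * ν ^ (2 - p) * r ^ (p - 2) * I) * (δ ^ (p - 2) * ν ^ p / r)
        = C / ν ^ 2 * ((δ ^ (2 - p) * δ ^ (p - 2)) * (ν ^ (2 - p) * ν ^ p) *
            (r ^ (p - 2) / r) * I) := by ring
      _ = C * (r ^ (p - 3) * I) := by
          rw [a2, a3, a4]
          field_simp
  rw [e1, e2] at h9
  exact h9

end Pool.Agent.Helper33S
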