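import Pool.Agent.Helper33S.Fin3

/-!
The weak norms of order `q`; Leray's lower bounds with the number of singular points (helper33).
-/

set_option autoImplicit false

open MeasureTheory Set Metric Filter Topology
open scoped ContDiff ENNReal

namespace Pool.Agent.Helper33S

open H459R3.NS W221.NS Pool.Agent.Y8
open Pool.Agent.N976.EQ.E4 (cube_meas)

/-- the weak norm of order `q` over the cell, to the power `q`, is at most `W` -/
def WeakQ (q : ℝ) (v : V → V) (W : ℝ) : Prop :=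
  ∀ s : ℝ, 0 < s → s ^ q * (volume (cube ∩ {x | s ^ 2 < nsq v x})).toReal ≤ W

theorem fast_wq {v : V → V} (hv : SPV v) {lam q W : ℝ} (hl : 0 < lam) (hq : 3 ≤ q) (hW : 0 ≤ W)
    (hw : WeakQ q v W) : fast v (lam ^ 2) ≤ 3 * W * lam ^ (2 - q) := by
  have hc := nsq_ct hv
  have hm : ∀ a, MeasurableSet {x | a < nsq v x} := fun a =>
    measurableSet_lt measurable_const hc.measurable
  have hvol : ∀ s, 0 < s → volume (cube ∩ {x | s ^ 2 < nsq v x}) ≤
      ENNReal.ofReal (W * s ^ (-q)) := by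
    intro s hs
    have h1 : volume (cube ∩ {x | s ^ 2 < nsq v x}) ≠ ⊤ :=
      ((measure_mono inter_subset_left).trans_lt cube_fin).ne
    rw [← ENNReal.ofReal_toReal h1]
    refine ENNReal.ofReal_le_ofReal ?_
    rw [Real.rpow_neg hs.le, ← div_eq_mul_inv, le_div_iff₀ (by positivity), mul_comm]
    exact hw s hs
  have hvol' : ∀ t, 0 < t → volume (cube ∩ {x | t < nsq v x}) ≤
      ENNReal.ofReal (W * t ^ (-(q / 2))) := by
    intro t ht
    have h := hvol √t (Real.sqrt_pos.2 ht)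
    rw [Real.sq_sqrt ht.le] at h
    have e : √t ^ (-q) = t ^ (-(q / 2)) := by
      rw [Real.sqrt_eq_rpow, ← Real.rpow_mul ht.le]
      congr 1
      ring
    rwa [e] at h
  unfold fast
  rw [integral_eq_lintegral_of_nonneg_ae (ae_of_all _ fun x => nsq_nn v x)
    hc.aestronglyMeasurable]
  refine ENNReal.toReal_le_of_le_ofReal (by positivity) ?_
  rw [lintegral_eq_lintegral_meas_lt _ (ae_of_all _ fun x => nsq_nn v x)
    hc.measurable.aemeasurable]
  have hsplit : Ioi (0 : ℝ) = Ioc 0 (lam ^ 2) ∪ Ioi (lam ^ 2) :=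
    (Ioc_union_Ioi_eq_Ioi (by positivity)).symm
  have hl2 : 0 < lam ^ 2 := by positivity
  have e2 : lam ^ (-q) * lam ^ 2 = lam ^ (2 - q) := by
    rw [← Real.rpow_natCast lam 2, ← Real.rpow_add hl]
    congr 1
    push_cast
    ring
  rw [hsplit]
  refine (lintegral_union_le _ _ _).trans ?_
  have p1 : ∫⁻ t in Ioc 0 (lam ^ 2), (volume.restrict (cube ∩ {x | lam ^ 2 < nsq v x}))
      {x | t < nsq v x} ≤ ENNReal.ofReal (W * lam ^ (2 - q)) := by
    calc _ ≤ ∫⁻ _ in Ioc 0 (lam ^ 2), ENNReal.ofReal (W * lam ^ (-q)) := by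
          refine setLIntegral_mono' measurableSet_Ioc fun t _ => ?_
          rw [Measure.restrict_apply (hm t)]
          exact (measure_mono inter_subset_right).trans (hvol lam hl)
      _ = ENNReal.ofReal (W * lam ^ (2 - q)) := by
          rw [setLIntegral_const, Real.volume_Ioc, ← ENNReal.ofReal_mul (by positivity), sub_zero,
            mul_assoc, e2]
  have p2 : ∫⁻ t in Ioi (lam ^ 2), (volume.restrict (cube ∩ {x | lam ^ 2 < nsq v x}))
      {x | t < nsq v x} ≤ ENNReal.ofReal (2 * (W * lam ^ (2 - q))) := by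
    have hi : IntegrableOn (fun t : ℝ => W * t ^ (-(q / 2))) (Ioi (lam ^ 2)) :=
      (integrableOn_Ioi_rpow_of_lt (by linarith) hl2).const_mul _
    calc _ ≤ ∫⁻ t in Ioi (lam ^ 2), ENNReal.ofReal (W * t ^ (-(q / 2))) := by
          refine setLIntegral_mono' measurableSet_Ioi fun t ht => ?_
          rw [Measure.restrict_apply (hm t)]
          refine (measure_mono fun x hx => ?_).trans (hvol' t (hl2.trans ht))
          exact ⟨hx.2.1, hx.1⟩
      _ = ENNReal.ofReal (∫ t in Ioi (lam ^ 2), W * t ^ (-(q / 2))) := by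
          refine (ofReal_integral_eq_lintegral_ofReal hi ?_).symm
          filter_upwards [ae_restrict_mem measurableSet_Ioi] with t ht
          have : 0 < t := hl2.trans ht
          positivity
      _ ≤ ENNReal.ofReal (2 * (W * lam ^ (2 - q))) := by
          refine ENNReal.ofReal_le_ofReal ?_
          rw [integral_const_mul, integral_Ioi_rpow_of_lt (by linarith) hl2]
          have e : (lam ^ 2 : ℝ) ^ (-(q / 2) + 1) = lam ^ (2 - q) := by
            rw [← Real.rpow_natCast lam 2, ← Real.rpow_mul hl.le]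
            congr 1
            push_cast
            ring
          rw [e]
          have e3 : -lam ^ (2 - q) / (-(q / 2) + 1) = lam ^ (2 - q) / (q / 2 - 1) := by
            rw [neg_div, ← div_neg]
            congr 1
            ring
          rw [e3]
          have h5 : lam ^ (2 - q) / (q / 2 - 1) ≤ 2 * lam ^ (2 - q) := by
            rw [div_le_iff₀ (by linarith)]
            have : 0 < lam ^ (2 - q) := by positivity
            nlinarith
          have := mul_le_mul_of_nonneg_left h5 hW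
          linarith
  refine (add_le_add p1 p2).trans ?_
  rw [← ENNReal.ofReal_add (by positivity) (by positivity)]
  refine ENNReal.ofReal_le_ofReal (le_of_eq ?_)
  ring

/-- Leray's lower bounds count the singular points -/
theorem cnt_wq {Z : Set V} {C δ ν E t₀ : ℝ} (hC : 0 < C) (hδ : 0 < δ) (hν : 0 < ν)
    {A : Set ℝ} {u : ℝ → V → V} (hu : ∀ t ∈ A, SPV (u t))
    (h : ∀ t ∈ A, t < t₀ → ∀ r : ℝ, 0 < r → r ^ 2 ≤ ν * (t₀ - t) → (1 + (E / ν) ^ 2) * r ≤ δ →
      Few Z r (C / ν ^ 2 * fast (u t) (δ ^ 2 * ν / (t₀ - t)))) (S : Finset V)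
    (hS : ∀ x ∈ S, x ∈ Z) : ∃ d > 0, ∀ t ∈ A, t₀ - d < t → t < t₀ → ∀ q W : ℝ, 3 ≤ q → 0 ≤ W →
      WeakQ q (u t) W →
      δ ^ (q - 2) * (S.card * ν ^ ((q + 3) / 2)) ≤ 3 * C * ((t₀ - t) ^ ((q - 3) / 2) * W) := by
  obtain ⟨d, hd, hcn⟩ := cnt_of_few hδ hν h S hS
  refine ⟨d, hd, fun t ht h1 h2 q W hq hW hw => ?_⟩
  have h4 := hcn t ht h1 h2
  have ht0 : 0 < t₀ - t := by linarith
  have h5 : 0 < ν * (t₀ - t) := mul_pos hν ht0
  set r := √(ν * (t₀ - t)) with hr
  have hr0 : 0 < r := Real.sqrt_pos.2 h5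
  have hl : 0 < δ * ν / r := by positivity
  have h6 := fast_wq (hu t ht) hl hq hW hw
  have h7 : (S.card : ℝ) * r ≤ C / ν ^ 2 * (3 * W * (δ * ν / r) ^ (2 - q)) :=
    h4.trans (mul_le_mul_of_nonneg_left h6 (by positivity))
  have hrq : r ^ (q - 3) = ν ^ ((q - 3) / 2) * (t₀ - t) ^ ((q - 3) / 2) := by
    rw [hr, Real.sqrt_eq_rpow, ← Real.rpow_mul (by positivity), Real.mul_rpow hν.le ht0.le]
    congr 2 <;> ring
  have a1 : (δ * ν / r) ^ (2 - q) = δ ^ (2 - q) * ν ^ (2 - q) * r ^ (q - 2) := by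
    rw [Real.div_rpow (by positivity) hr0.le, Real.mul_rpow hδ.le hν.le, div_eq_mul_inv,
      ← Real.rpow_neg hr0.le]
    congr 2
    ring
  have a2 : δ ^ (2 - q) * δ ^ (q - 2) = 1 := by
    rw [← Real.rpow_add hδ]
    have : 2 - q + (q - 2) = 0 := by ring
    rw [this, Real.rpow_zero]
  have a3 : ν ^ (2 - q) * ν ^ q = ν ^ 2 := by
    rw [← Real.rpow_add hν]
    have : 2 - q + q = ((2 : ℕ) : ℝ) := by push_cast; ring
    rw [this, Real.rpow_natCast]
  have a4 : r ^ (q - 2) / r = r ^ (q - 3) := by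
    rw [← Real.rpow_sub_one hr0.ne']
    congr 1
    ring
  have a5 : ν ^ q = ν ^ ((q + 3) / 2) * ν ^ ((q - 3) / 2) := by
    rw [← Real.rpow_add hν]
    congr 1
    ring
  have h8 : 0 ≤ δ ^ (q - 2) * ν ^ q / r := by positivity
  have h9 := mul_le_mul_of_nonneg_right h7 h8
  have e1 : (S.card : ℝ) * r * (δ ^ (q - 2) * ν ^ q / r) =
      δ ^ (q - 2) * (S.card * ν ^ ((q + 3) / 2)) * ν ^ ((q - 3) / 2) := by
    rw [a5]
    field_simp
  have e2 : C / ν ^ 2 * (3 * W * (δ * ν / r) ^ (2 - q)) * (δ ^ (q - 2) * ν ^ q / r) =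
      3 * C * ((t₀ - t) ^ ((q - 3) / 2) * W) * ν ^ ((q - 3) / 2) := by
    rw [a1]
    calc C / ν ^ 2 * (3 * W * (δ ^ (2 - q) * ν ^ (2 - q) * r ^ (q - 2))) *
          (δ ^ (q - 2) * ν ^ q / r)
        = C / ν ^ 2 * ((δ ^ (2 - q) * δ ^ (q - 2)) * (ν ^ (2 - q) * ν ^ q) *
            (r ^ (q - 2) / r) * (3 * W)) := by ring
      _ = 3 * C * ((t₀ - t) ^ ((q - 3) / 2) * W) * ν ^ ((q - 3) / 2) := by
          rw [a2, a3, a4, hrq]
          field_simp
  rw [e1, e2] at h9
  exact le_of_mul_le_mul_right h9 (by positivity)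

end Pool.Agent.Helper33S
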