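import Pool.Agent.H356R3.NS.Reg3
import Pool.Agent.H459R3.NS.Phys2

/-!
Bounds in the maximum norm for Fourier multipliers which contain the factor of the heat semigroup
(helper33).
-/

set_option autoImplicit false

open MeasureTheory Set Filter Topology
open scoped ContDiff

namespace Pool.Agent.Helper33S

open H459R3.NS (V K3 ph ee S cube ee_add norm_ee ee_continuous norm_S_le S_continuous summable_term
  ph_single)
open Pool.Agent.H356R3.NS (fj coef sq_nonneg' sq_pos)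

/-- `4 π²` -/
noncomputable def c4 : ℝ := 4 * Real.pi ^ 2

theorem c4_pos : 0 < c4 := by unfold c4; positivity

theorem ex_eq (k : K3) (x : V) : Pool.Agent.H356R3.NS.ex k x = ee k x := by
  unfold Pool.Agent.H356R3.NS.ex ee ph
  congr 2
  push_cast
  rfl

/-- An average of translates. -/
theorem tr_bd {a : K3 → ℂ} (ha : Summable a) {M : ℝ} (hM : ∀ x, ‖S a x‖ ≤ M) {φ : ℝ → ℂ}
    (hφ : Integrable φ) {y : ℝ → V} (hy : Continuous y) (x : V) :
    ‖S (fun k => (∫ z : ℝ, ee k (y z) * φ z) * a k) x‖ ≤ M * ∫ z, ‖φ z‖ := by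
  have hi : ∀ k, Integrable (fun z : ℝ => a k * (ee k (x + y z) * φ z)) := by
    intro k
    refine Integrable.const_mul ?_ _
    refine hφ.bdd_mul (c := 1)
      ((ee_continuous k).comp (continuous_const.add hy)).aestronglyMeasurable ?_
    exact ae_of_all _ fun z => (norm_ee _ _).le
  have hn : ∀ k, ∫ z : ℝ, ‖a k * (ee k (x + y z) * φ z)‖ = ‖a k‖ * ∫ z, ‖φ z‖ := by
    intro k
    rw [← integral_const_mul]
    congr 1
    funext z
    rw [norm_mul, norm_mul, norm_ee, one_mul]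
  have hs : Summable fun k => ∫ z : ℝ, ‖a k * (ee k (x + y z) * φ z)‖ := by
    simp_rw [hn]
    exact ha.norm.mul_right _
  have h := hasSum_integral_of_summable_integral_norm hi hs
  have e : S (fun k => (∫ z : ℝ, ee k (y z) * φ z) * a k) x = ∫ z : ℝ, S a (x + y z) * φ z := by
    have e1 : ∀ k, ∫ z : ℝ, a k * (ee k (x + y z) * φ z) =
        (∫ z : ℝ, ee k (y z) * φ z) * a k * ee k x := by
      intro k
      rw [mul_assoc, ← integral_mul_const]
      congr 1
      funext z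
      rw [ee_add]
      ring
    simp_rw [e1] at h
    unfold S
    rw [h.tsum_eq]
    congr 1
    funext z
    rw [← tsum_mul_right]
    exact tsum_congr fun k => by ring
  rw [e]
  have h2 : ‖∫ z : ℝ, S a (x + y z) * φ z‖ ≤ ∫ z, M * ‖φ z‖ := by
    refine norm_integral_le_of_norm_le (hφ.norm.const_mul _) (ae_of_all _ fun z => ?_)
    rw [norm_mul]
    exact mul_le_mul_of_nonneg_right (hM _) (norm_nonneg _)
  rwa [integral_const_mul] at h2

/-- An average of translates in the direction `j`. -/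
theorem dir_bd {a : K3 → ℂ} (ha : Summable a) {M : ℝ} (hM : ∀ x, ‖S a x‖ ≤ M) {φ : ℝ → ℂ}
    (hφ : Integrable φ) (σ : ℝ) (j : Fin 3) (x : V) :
    ‖S (fun k => (∫ z : ℝ, ee k (Pi.single j (σ * z)) * φ z) * a k) x‖ ≤ M * ∫ z, ‖φ z‖ := by
  refine tr_bd ha hM hφ (y := fun z => Pi.single j (σ * z)) ?_ x
  refine continuous_pi fun i => ?_
  by_cases h : i = j
  · subst h
    simp only [Pi.single_eq_same]
    fun_prop
  · simp only [Pi.single_eq_of_ne h]
    fun_prop

/-! ### The Gaussian -/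

/-- the density -/
noncomputable def gd (z : ℝ) : ℂ := ((√(2 * Real.pi))⁻¹ * Real.exp (-(z ^ 2) / 2) : ℝ)

theorem gd_eq (z : ℝ) : gd z = ((√(2 * Real.pi))⁻¹ : ℝ) * Complex.exp (-(1 / 2 : ℂ) * (z : ℂ) ^ 2) := by
  unfold gd
  push_cast
  congr 2
  ring

theorem int_exp2 : ∫ z : ℝ, Real.exp (-(z ^ 2) / 2) = √(2 * Real.pi) := by
  have h := integral_gaussian (1 / 2)
  rw [show Real.pi / (1 / 2) = 2 * Real.pi by ring] at h
  rw [← h]
  refine integral_congr_ae (ae_of_all _ fun z => ?_)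
  show Real.exp (-(z ^ 2) / 2) = Real.exp (-(1 / 2) * z ^ 2)
  congr 1
  ring

theorem intble_exp2 : Integrable fun z : ℝ => Real.exp (-(z ^ 2) / 2) := by
  have h := integrable_exp_neg_mul_sq (b := 1 / 2) (by norm_num)
  refine h.congr (ae_of_all _ fun z => ?_)
  show Real.exp (-(1 / 2) * z ^ 2) = Real.exp (-(z ^ 2) / 2)
  congr 1
  ring

theorem gd_intble : Integrable gd := by
  unfold gd
  exact (intble_exp2.const_mul _).ofReal

theorem sqrt2pi_pos : 0 < √(2 * Real.pi) := Real.sqrt_pos.2 (by positivity)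

theorem gd_norm (z : ℝ) : ‖gd z‖ = (√(2 * Real.pi))⁻¹ * Real.exp (-(z ^ 2) / 2) := by
  unfold gd
  rw [Complex.norm_real, Real.norm_of_nonneg]
  have := sqrt2pi_pos
  positivity

theorem gd_int_norm : ∫ z, ‖gd z‖ = 1 := by
  simp_rw [gd_norm]
  rw [integral_const_mul, int_exp2, inv_mul_cancel₀ sqrt2pi_pos.ne']

theorem gd_four (b : ℝ) : ∫ z : ℝ, Complex.exp (Complex.I * b * z) * gd z =
    (Real.exp (-(b ^ 2) / 2) : ℝ) := by
  have h := fourierIntegral_gaussian (b := (1 / 2 : ℂ)) (by norm_num) (b : ℂ)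
  have e : ∀ z : ℝ, Complex.exp (Complex.I * b * z) * gd z = ((√(2 * Real.pi))⁻¹ : ℝ) *
      (Complex.exp (Complex.I * b * z) * Complex.exp (-(1 / 2 : ℂ) * (z : ℂ) ^ 2)) := by
    intro z
    rw [gd_eq]
    ring
  simp_rw [e]
  rw [integral_const_mul, h]
  have h2 : ((Real.pi : ℂ) / (1 / 2)) ^ (1 / 2 : ℂ) = ((√(2 * Real.pi) : ℝ) : ℂ) := by
    rw [Real.sqrt_eq_rpow, Complex.ofReal_cpow (by positivity)]
    push_cast
    congr 1
    ring
  rw [h2]
  have h3 : (((√(2 * Real.pi))⁻¹ : ℝ) : ℂ) * (((√(2 * Real.pi) : ℝ) : ℂ) *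
      Complex.exp (-(b : ℂ) ^ 2 / (4 * (1 / 2)))) = Complex.exp (-(b : ℂ) ^ 2 / (4 * (1 / 2))) := by
    rw [← mul_assoc, ← Complex.ofReal_mul, inv_mul_cancel₀ sqrt2pi_pos.ne', Complex.ofReal_one,
      one_mul]
  rw [h3]
  push_cast
  congr 1
  ring

theorem intble_zexp2 : Integrable fun z : ℝ => z * Real.exp (-(z ^ 2) / 2) := by
  have h := integrable_mul_exp_neg_mul_sq (b := 1 / 2) (by norm_num)
  refine h.congr (ae_of_all _ fun z => ?_)
  show z * Real.exp (-(1 / 2) * z ^ 2) = z * Real.exp (-(z ^ 2) / 2)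
  congr 2
  ring

theorem zgd_intble : Integrable fun z : ℝ => (z : ℂ) * gd z := by
  have h := (intble_zexp2.const_mul (√(2 * Real.pi))⁻¹).ofReal (𝕜 := ℂ)
  refine h.congr (ae_of_all _ fun z => ?_)
  show (((√(2 * Real.pi))⁻¹ * (z * Real.exp (-(z ^ 2) / 2)) : ℝ) : ℂ) = (z : ℂ) * gd z
  unfold gd
  push_cast
  ring

theorem int_abs_zexp2 : ∫ z : ℝ, |z| * Real.exp (-(z ^ 2) / 2) = 2 := by
  have h := integral_comp_abs (f := fun z : ℝ => z * Real.exp (-(z ^ 2) / 2))
  simp only [sq_abs] at h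
  rw [h]
  have h2 : ∫ z in Ioi (0 : ℝ), z * Real.exp (-(z ^ 2) / 2) = 1 := by
    have h3 := integral_rpow_mul_exp_neg_mul_rpow (p := 2) (q := 1) (b := 1 / 2) (by norm_num)
      (by norm_num) (by norm_num)
    have h4 : ∫ z in Ioi (0 : ℝ), z * Real.exp (-(z ^ 2) / 2) =
        ∫ x in Ioi (0 : ℝ), x ^ (1 : ℝ) * Real.exp (-(1 / 2) * x ^ (2 : ℝ)) := by
      refine setIntegral_congr_fun measurableSet_Ioi fun z hz => ?_
      show z * Real.exp (-(z ^ 2) / 2) = z ^ (1 : ℝ) * Real.exp (-(1 / 2) * z ^ (2 : ℝ))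
      rw [Real.rpow_one, Real.rpow_two]
      congr 2
      ring
    rw [h4, h3]
    norm_num
  rw [h2]
  norm_num

theorem zgd_int_norm : ∫ z : ℝ, ‖(z : ℂ) * gd z‖ ≤ 1 := by
  have e : ∀ z : ℝ, ‖(z : ℂ) * gd z‖ = (√(2 * Real.pi))⁻¹ * (|z| * Real.exp (-(z ^ 2) / 2)) := by
    intro z
    rw [norm_mul, gd_norm, Complex.norm_real, Real.norm_eq_abs]
    ring
  simp_rw [e]
  rw [integral_const_mul, int_abs_zexp2, inv_mul_le_iff₀ sqrt2pi_pos, mul_one]
  have h1 : (2 : ℝ) = √(2 ^ 2) := by rw [Real.sqrt_sq (by norm_num)]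
  rw [h1]
  exact Real.sqrt_le_sqrt (by have := Real.pi_gt_three; nlinarith)

theorem zgd_four (b : ℝ) : ∫ z : ℝ, Complex.exp (Complex.I * b * z) * ((z : ℂ) * gd z) =
    Complex.I * b * (Real.exp (-(b ^ 2) / 2) : ℝ) := by
  have hd : ∀ z : ℝ, HasDerivAt (fun z : ℝ => Complex.exp (Complex.I * b * z) * gd z)
      (Complex.I * b * (Complex.exp (Complex.I * b * z) * gd z) -
        Complex.exp (Complex.I * b * z) * ((z : ℂ) * gd z)) z := by
    intro z
    have h1 : HasDerivAt (fun z : ℝ => Complex.I * b * (z : ℂ)) (Complex.I * b) z := by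
      simpa using (Complex.ofRealCLM.hasDerivAt (x := z)).const_mul (Complex.I * b)
    have h2 := h1.cexp
    have h3 : HasDerivAt gd (-((z : ℂ) * gd z)) z := by
      have h4 : HasDerivAt (fun z : ℝ => (√(2 * Real.pi))⁻¹ * Real.exp (-(z ^ 2) / 2))
          ((√(2 * Real.pi))⁻¹ * (Real.exp (-(z ^ 2) / 2) * (-(2 * z) / 2))) z := by
        have h5 : HasDerivAt (fun z : ℝ => -(z ^ 2) / 2) (-(2 * z) / 2) z := by
          have := ((hasDerivAt_pow 2 z).fun_neg).div_const 2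
          simpa using this
        exact h5.exp.const_mul _
      have h6 := h4.ofReal_comp
      refine h6.congr_deriv ?_
      unfold gd
      push_cast
      ring
    refine (h2.mul h3).congr_deriv ?_
    ring
  have hb : ∀ {ψ : ℝ → ℂ}, Integrable ψ →
      Integrable fun z : ℝ => Complex.exp (Complex.I * b * z) * ψ z := by
    intro ψ hψ
    refine hψ.bdd_mul (c := 1) (by fun_prop) (ae_of_all _ fun z => ?_)
    have : Complex.I * b * z = ((b * z : ℝ) : ℂ) * Complex.I := by push_cast; ring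
    rw [this, Complex.norm_exp_ofReal_mul_I]
  have i1 := hb gd_intble
  have i2 := hb zgd_intble
  have h := integral_eq_zero_of_hasDerivAt_of_integrable hd ((i1.const_mul _).sub i2) i1
  have e : ∫ z : ℝ, (Complex.I * b * (Complex.exp (Complex.I * b * z) * gd z) -
        Complex.exp (Complex.I * b * z) * ((z : ℂ) * gd z)) =
      Complex.I * b * (∫ z : ℝ, Complex.exp (Complex.I * b * z) * gd z) -
        ∫ z : ℝ, Complex.exp (Complex.I * b * z) * ((z : ℂ) * gd z) := by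
    rw [integral_sub (i1.const_mul _) i2, integral_const_mul]
  rw [e, gd_four, sub_eq_zero] at h
  exact h.symm

/-! ### One direction -/

theorem ee_sg (k : K3) (j : Fin 3) (s : ℝ) :
    ee k (Pi.single j s) = Complex.exp (Complex.I * ((2 * Real.pi * k j * s : ℝ) : ℂ)) := by
  unfold ee
  rw [ph_single]
  congr 1
  push_cast
  ring

/-- the multiplier of the heat semigroup in one direction -/
noncomputable def h1 (j : Fin 3) (τ : ℝ) (k : K3) : ℂ := (Real.exp (-(c4 * (k j : ℝ) ^ 2 * τ)) : ℝ)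

theorem heat1 {a : K3 → ℂ} (ha : Summable a) {M : ℝ} (hM : ∀ x, ‖S a x‖ ≤ M) {τ : ℝ}
    (hτ : 0 ≤ τ) (j : Fin 3) (x : V) : ‖S (fun k => h1 j τ k * a k) x‖ ≤ M := by
  have h := dir_bd ha hM gd_intble (√(2 * τ)) j x
  rw [gd_int_norm, mul_one] at h
  have e : (fun k => (∫ z : ℝ, ee k (Pi.single j (√(2 * τ) * z)) * gd z) * a k) =
      fun k => h1 j τ k * a k := by
    funext k
    congr 1
    have e1 : ∀ z : ℝ, ee k (Pi.single j (√(2 * τ) * z)) * gd z =
        Complex.exp (Complex.I * ((2 * Real.pi * k j * √(2 * τ) : ℝ) : ℂ) * z) * gd z := by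
      intro z
      rw [ee_sg]
      congr 2
      push_cast
      ring
    simp_rw [e1]
    rw [gd_four]
    unfold h1 c4
    congr 2
    rw [mul_pow, Real.sq_sqrt (by positivity)]
    ring
  rwa [e] at h

theorem grad1 {a : K3 → ℂ} (ha : Summable a) {M : ℝ} (hM : ∀ x, ‖S a x‖ ≤ M) {τ : ℝ}
    (hτ : 0 < τ) (j : Fin 3) (x : V) :
    ‖S (fun k => fj k j * (h1 j τ k * a k)) x‖ ≤ M / √(2 * τ) := by
  have hM0 : 0 ≤ M := (norm_nonneg _).trans (hM 0)
  have hs : 0 < √(2 * τ) := Real.sqrt_pos.2 (by positivity)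
  have h := dir_bd ha hM zgd_intble (√(2 * τ)) j x
  have e : (fun k => (∫ z : ℝ, ee k (Pi.single j (√(2 * τ) * z)) * ((z : ℂ) * gd z)) * a k) =
      fun k => ((√(2 * τ) : ℝ) : ℂ) * (fj k j * (h1 j τ k * a k)) := by
    funext k
    have e1 : ∀ z : ℝ, ee k (Pi.single j (√(2 * τ) * z)) * ((z : ℂ) * gd z) =
        Complex.exp (Complex.I * ((2 * Real.pi * k j * √(2 * τ) : ℝ) : ℂ) * z) *
          ((z : ℂ) * gd z) := by
      intro z
      rw [ee_sg]
      congr 2
      push_cast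
      ring
    simp_rw [e1]
    rw [zgd_four]
    have e2 : Real.exp (-((2 * Real.pi * k j * √(2 * τ)) ^ 2) / 2) =
        Real.exp (-(c4 * (k j : ℝ) ^ 2 * τ)) := by
      unfold c4
      congr 1
      rw [mul_pow, Real.sq_sqrt (by positivity)]
      ring
    rw [e2]
    unfold h1 fj
    push_cast
    ring
  rw [e] at h
  have e3 : S (fun k => ((√(2 * τ) : ℝ) : ℂ) * (fj k j * (h1 j τ k * a k))) x =
      ((√(2 * τ) : ℝ) : ℂ) * S (fun k => fj k j * (h1 j τ k * a k)) x := by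
    unfold S
    rw [← tsum_mul_left]
    exact tsum_congr fun k => by ring
  rw [e3, norm_mul, Complex.norm_real, Real.norm_of_nonneg hs.le] at h
  rw [le_div_iff₀ hs, mul_comm]
  refine h.trans ?_
  calc M * ∫ z : ℝ, ‖(z : ℂ) * gd z‖ ≤ M * 1 := mul_le_mul_of_nonneg_left zgd_int_norm hM0
    _ = M := mul_one M

theorem norm_h1_le {τ : ℝ} (hτ : 0 ≤ τ) (j : Fin 3) (k : K3) : ‖h1 j τ k‖ ≤ 1 := by
  unfold h1
  rw [Complex.norm_real, Real.norm_of_nonneg (Real.exp_pos _).le, Real.exp_le_one_iff]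
  have := c4_pos
  have : 0 ≤ c4 * (k j : ℝ) ^ 2 * τ := by positivity
  linarith

theorem summ_bd {a m : K3 → ℂ} (ha : Summable a) {C : ℝ} (hm : ∀ k, ‖m k‖ ≤ C) :
    Summable fun k => m k * a k := by
  refine Summable.of_norm_bounded (g := fun k => C * ‖a k‖) (ha.norm.mul_left C) fun k => ?_
  rw [norm_mul]
  exact mul_le_mul_of_nonneg_right (hm k) (norm_nonneg _)

/-! ### The heat semigroup -/

/-- the multiplier of the heat semigroup -/
noncomputable def hh (τ : ℝ) (k : K3) : ℂ := (Real.exp (-(c4 * H356R3.NS.sq k * τ)) : ℝ)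

theorem hh_eq (τ : ℝ) (k : K3) : hh τ k = h1 0 τ k * (h1 1 τ k * h1 2 τ k) := by
  unfold hh h1 H356R3.NS.sq
  rw [← Complex.ofReal_mul, ← Complex.ofReal_mul, ← Real.exp_add, ← Real.exp_add]
  congr 2
  rw [Fin.sum_univ_three]
  ring

theorem norm_hh_le {τ : ℝ} (hτ : 0 ≤ τ) (k : K3) : ‖hh τ k‖ ≤ 1 := by
  unfold hh
  rw [Complex.norm_real, Real.norm_of_nonneg (Real.exp_pos _).le, Real.exp_le_one_iff]
  have := c4_pos
  have := sq_nonneg' k
  have : 0 ≤ c4 * H356R3.NS.sq k * τ := by positivity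
  linarith

theorem hh_add (τ τ' : ℝ) (k : K3) : hh (τ + τ') k = hh τ k * hh τ' k := by
  unfold hh
  rw [← Complex.ofReal_mul, ← Real.exp_add]
  congr 2
  ring

/-- The heat semigroup is a contraction in the maximum norm. -/
theorem heat_bd {a : K3 → ℂ} (ha : Summable a) {M : ℝ} (hM : ∀ x, ‖S a x‖ ≤ M) {τ : ℝ}
    (hτ : 0 ≤ τ) (x : V) : ‖S (fun k => hh τ k * a k) x‖ ≤ M := by
  have s2 := summ_bd ha (norm_h1_le hτ 2)
  have s1 := summ_bd s2 (norm_h1_le hτ 1)
  have h := heat1 s1 (heat1 s2 (heat1 ha hM hτ 2) hτ 1) hτ 0 x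
  have e : (fun k => hh τ k * a k) = fun k => h1 0 τ k * (h1 1 τ k * (h1 2 τ k * a k)) := by
    funext k
    rw [hh_eq]
    ring
  rwa [e]

/-- The gradient of the heat semigroup. -/
theorem grad_bd {a : K3 → ℂ} (ha : Summable a) {M : ℝ} (hM : ∀ x, ‖S a x‖ ≤ M) {τ : ℝ}
    (hτ : 0 < τ) (j : Fin 3) (x : V) : ‖S (fun k => fj k j * (hh τ k * a k)) x‖ ≤ M / √τ := by
  -- `hh τ = h1 j (τ / 2)` times contractions
  have hτ2 : 0 < τ / 2 := by positivity
  set b : K3 → ℂ := fun k => (if j = 0 then h1 0 (τ / 2) k else h1 0 τ k) *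
    ((if j = 1 then h1 1 (τ / 2) k else h1 1 τ k) *
    ((if j = 2 then h1 2 (τ / 2) k else h1 2 τ k) * a k)) with hb
  have hn : ∀ i : Fin 3, ∀ k, ‖(if j = i then h1 i (τ / 2) k else h1 i τ k)‖ ≤ 1 := by
    intro i k
    split_ifs
    · exact norm_h1_le hτ2.le i k
    · exact norm_h1_le hτ.le i k
  have hk : ∀ (i : Fin 3) {a' : K3 → ℂ}, Summable a' → (∀ x, ‖S a' x‖ ≤ M) → ∀ x,
      ‖S (fun k => (if j = i then h1 i (τ / 2) k else h1 i τ k) * a' k) x‖ ≤ M := by
    intro i a' ha' hM' x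
    by_cases hji : j = i
    · simp only [hji, if_true]
      exact heat1 ha' hM' hτ2.le i x
    · simp only [hji, if_false]
      exact heat1 ha' hM' hτ.le i x
  have s2 := summ_bd ha (hn 2)
  have s1 := summ_bd s2 (hn 1)
  have s0 := summ_bd s1 (hn 0)
  have hbM : ∀ x, ‖S b x‖ ≤ M := hk 0 s1 (hk 1 s2 (hk 2 ha hM))
  have h := grad1 s0 hbM hτ2 j x
  have e : (fun k => fj k j * (h1 j (τ / 2) k * b k)) = fun k => fj k j * (hh τ k * a k) := by
    funext k
    congr 1
    have e0 : ∀ i : Fin 3, h1 i τ k = h1 i (τ / 2) k * h1 i (τ / 2) k := by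
      intro i
      unfold h1
      rw [← Complex.ofReal_mul, ← Real.exp_add]
      congr 2
      ring
    rw [hh_eq, hb]
    fin_cases j
    · simp only [Fin.zero_eta, Fin.isValue, if_true, zero_ne_one, if_false, Fin.reduceEq]
      rw [e0 0]
      ring
    · simp only [Fin.mk_one, Fin.isValue, if_true, if_false, Fin.reduceEq, one_ne_zero]
      rw [e0 1]
      ring
    · simp only [Fin.reduceFinMk, Fin.isValue, if_true, if_false, Fin.reduceEq]
      rw [e0 2]
      ring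
  rw [show 2 * (τ / 2) = τ by ring] at h
  rw [e] at h
  exact h

end Pool.Agent.Helper33S
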