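import Pool.Agent.Helper33S.Heat

/-!
Bounds in the maximum norm for the Leray projection of derivatives of the heat semigroup (helper33).
-/

set_option autoImplicit false

open MeasureTheory Set Filter Topology
open scoped ContDiff

namespace Pool.Agent.Helper33S

open H459R3.NS (V K3 ph ee S cube ee_add norm_ee ee_continuous norm_S_le S_continuous summable_term
  ph_single)
open Pool.Agent.H356R3.NS (fj coef sq_nonneg' sq_pos pw pw_pos one_le_pw norm_fj_le norm_coef_le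
  nk_le_pw)

/-- rapidly decreasing coefficients -/
def Rd (a : K3 → ℂ) : Prop := ∀ m : ℕ, Summable fun k => pw k ^ m * ‖a k‖

theorem Rd.sum {a : K3 → ℂ} (ha : Rd a) : Summable a := by
  refine Summable.of_norm ?_
  simpa using ha 0

theorem Rd.mul {a p : K3 → ℂ} (ha : Rd a) {C : ℝ} {r : ℕ} (hp : ∀ k, ‖p k‖ ≤ C * pw k ^ r) :
    Rd fun k => p k * a k := by
  intro m
  refine ((ha (m + r)).mul_left |C|).of_nonneg_of_le
    (fun k => mul_nonneg (pow_pos (pw_pos k) m).le (norm_nonneg _)) fun k => ?_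
  rw [norm_mul]
  have h1 : ‖p k‖ ≤ |C| * pw k ^ r := (hp k).trans
    (mul_le_mul_of_nonneg_right (le_abs_self C) (pow_pos (pw_pos k) r).le)
  calc pw k ^ m * (‖p k‖ * ‖a k‖) ≤ pw k ^ m * ((|C| * pw k ^ r) * ‖a k‖) := by
        have := pow_pos (pw_pos k) m
        gcongr
    _ = |C| * (pw k ^ (m + r) * ‖a k‖) := by rw [pow_add]; ring

theorem Rd.fj {a : K3 → ℂ} (ha : Rd a) (j : Fin 3) : Rd fun k => fj k j * a k :=
  ha.mul fun k => norm_fj_le k j

theorem Rd.hh {a : K3 → ℂ} (ha : Rd a) {τ : ℝ} (hτ : 0 ≤ τ) : Rd fun k => hh τ k * a k :=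
  ha.mul (C := 1) (r := 0) fun k => by rw [pow_zero, mul_one]; exact norm_hh_le hτ k

theorem Rd.coef {a : K3 → ℂ} (ha : Rd a) (i j m : Fin 3) : Rd fun k => coef k i j m * a k := by
  refine ha.mul (C := 4 * Real.pi) (r := 1) fun k => ?_
  rw [pow_one]
  exact (norm_coef_le k i j m).trans (mul_le_mul_of_nonneg_left (nk_le_pw k) (by positivity))

theorem Rd.add {a b : K3 → ℂ} (ha : Rd a) (hb : Rd b) : Rd fun k => a k + b k := by
  intro m
  refine ((ha m).add (hb m)).of_nonneg_of_le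
    (fun k => mul_nonneg (pow_pos (pw_pos k) m).le (norm_nonneg _)) fun k => ?_
  rw [← mul_add]
  exact mul_le_mul_of_nonneg_left (norm_add_le _ _) (pow_pos (pw_pos k) m).le

theorem Rd.const {a : K3 → ℂ} (ha : Rd a) (c : ℂ) : Rd fun k => c * a k :=
  ha.mul (C := ‖c‖) (r := 0) fun k => by rw [pow_zero, mul_one]

/-- `(4 π² |k|²)⁻¹`, zero at `k = 0` -/
noncomputable def iv (k : K3) : ℂ := ((c4 * H356R3.NS.sq k)⁻¹ : ℝ)

theorem norm_iv_le (k : K3) : ‖iv k‖ ≤ 1 * pw k ^ 0 := by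
  unfold iv
  rw [Complex.norm_real, pow_zero, mul_one]
  have h1 : 1 ≤ c4 := by unfold c4; nlinarith [Real.pi_gt_three]
  by_cases hk : k = 0
  · subst hk
    rw [H356R3.NS.sq_zero, mul_zero, inv_zero, norm_zero]
    norm_num
  · have h2 := H356R3.NS.one_le_sq hk
    have h3 : 1 ≤ c4 * H356R3.NS.sq k := by nlinarith
    rw [Real.norm_of_nonneg (by positivity)]
    exact inv_le_one_of_one_le₀ h3

theorem Rd.iv {a : K3 → ℂ} (ha : Rd a) : Rd fun k => iv k * a k := ha.mul norm_iv_le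

theorem coef_eq (k : K3) (i j m : Fin 3) :
    coef k i j m = -((if m = i then 1 else 0) * fj k j) - fj k i * (fj k j * (fj k m * iv k)) := by
  by_cases hk : k = 0
  · subst hk
    rw [H356R3.NS.coef_zero]
    simp [fj]
  · have h1 : (H356R3.NS.sq k : ℂ) ≠ 0 := by
      exact_mod_cast (sq_pos hk).ne'
    have hpi : (Real.pi : ℂ) ≠ 0 := by exact_mod_cast Real.pi_ne_zero
    unfold coef fj iv c4
    push_cast
    split_ifs with hm
    · field_simp
      ring_nf
      rw [Complex.I_sq]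
      ring
    · field_simp
      ring_nf
      rw [Complex.I_sq]
      ring

theorem int_hh {k : K3} (hk : k ≠ 0) {τ : ℝ} :
    IntegrableOn (fun σ => hh σ k) (Ioi τ) ∧ ∫ σ in Ioi τ, hh σ k = iv k * hh τ k := by
  have hp : 0 < c4 * H356R3.NS.sq k := mul_pos c4_pos (sq_pos hk)
  have e : ∀ σ : ℝ, -(c4 * H356R3.NS.sq k * σ) = -(c4 * H356R3.NS.sq k) * σ := fun σ => by ring
  have h1 : IntegrableOn (fun σ => Real.exp (-(c4 * H356R3.NS.sq k) * σ)) (Ioi τ) :=
    exp_neg_integrableOn_Ioi τ hp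
  have h2 := integral_exp_mul_Ioi (neg_lt_zero.2 hp) τ
  unfold hh iv
  simp only [e]
  refine ⟨h1.ofReal, ?_⟩
  rw [integral_complex_ofReal, h2, ← Complex.ofReal_mul]
  congr 1
  field_simp

theorem rp_int {τ : ℝ} (hτ : 0 < τ) (M : ℝ) :
    IntegrableOn (fun σ : ℝ => M / √(σ / 3) / √(σ / 3) / √(σ / 3)) (Ioi τ) ∧
    ∫ σ in Ioi τ, M / √(σ / 3) / √(σ / 3) / √(σ / 3) = M * (6 * √3) / √τ := by
  have e : ∀ σ ∈ Ioi τ, M / √(σ / 3) / √(σ / 3) / √(σ / 3) =
      M * (3 * √3) * σ ^ (-(3 / 2) : ℝ) := by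
    intro σ hσ
    have hσ0 : 0 < σ := hτ.trans hσ
    have h3 : 0 < √3 := Real.sqrt_pos.2 (by norm_num)
    have h1 : √(σ / 3) = √σ / √3 := Real.sqrt_div hσ0.le 3
    have h2 : σ ^ (-(3 / 2) : ℝ) = (σ * √σ)⁻¹ := by
      rw [Real.rpow_neg hσ0.le]
      congr 1
      rw [show (3 / 2 : ℝ) = 1 + 1 / 2 by norm_num, Real.rpow_add hσ0, Real.rpow_one,
        Real.sqrt_eq_rpow]
    have hs : 0 < √σ := Real.sqrt_pos.2 hσ0
    rw [h1, h2]
    have h4 : √3 ^ 2 = 3 := Real.sq_sqrt (by norm_num)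
    have h5 : √σ ^ 2 = σ := Real.sq_sqrt hσ0.le
    have h6 : σ * √σ = √σ ^ 3 := by nth_rewrite 1 [← h5]; ring
    rw [h6]
    field_simp
    rw [h4]
  constructor
  · refine IntegrableOn.congr_fun ?_ (fun σ hσ => (e σ hσ).symm) measurableSet_Ioi
    exact (integrableOn_Ioi_rpow_of_lt (by norm_num) hτ).const_mul _
  · rw [setIntegral_congr_fun measurableSet_Ioi e, integral_const_mul,
      integral_Ioi_rpow_of_lt (by norm_num) hτ]
    have h2 : τ ^ (-(3 / 2) + 1 : ℝ) = (√τ)⁻¹ := by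
      rw [show (-(3 / 2) + 1 : ℝ) = -(1 / 2) by norm_num, Real.rpow_neg hτ.le, Real.sqrt_eq_rpow]
    rw [h2]
    have hs : 0 < √τ := Real.sqrt_pos.2 hτ
    field_simp
    norm_num
    ring

/-- Three derivatives of the inverse Laplacian of the heat semigroup. -/
theorem inv_bd {a : K3 → ℂ} (ha : Rd a) {M : ℝ} (hM : ∀ x, ‖S a x‖ ≤ M) {τ : ℝ} (hτ : 0 < τ)
    (i j m : Fin 3) (x : V) :
    ‖S (fun k => fj k i * (fj k j * (fj k m * (iv k * (hh τ k * a k))))) x‖ ≤ 11 * M / √τ := by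
  have hM0 : 0 ≤ M := (norm_nonneg _).trans (hM 0)
  -- the terms
  set A : K3 → ℂ := fun k => fj k i * (fj k j * (fj k m * a k)) with hA
  have hAR : Rd A := ((ha.fj m).fj j).fj i
  have hA0 : A 0 = 0 := by simp [hA, fj]
  have ht : ∀ k, IntegrableOn (fun σ => hh σ k * A k * ee k x) (Ioi τ) ∧
      ∫ σ in Ioi τ, hh σ k * A k * ee k x = iv k * hh τ k * A k * ee k x := by
    intro k
    by_cases hk : k = 0
    · subst hk
      simp [hA0]
    · obtain ⟨h1, h2⟩ := int_hh hk (τ := τ)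
      refine ⟨(h1.mul_const _).mul_const _, ?_⟩
      rw [integral_mul_const, integral_mul_const, h2]
  have hnorm : ∀ k, ∫ σ in Ioi τ, ‖hh σ k * A k * ee k x‖ ≤ ‖A k‖ := by
    intro k
    by_cases hk : k = 0
    · subst hk
      simp [hA0]
    · have h1 : ∀ σ : ℝ, ‖hh σ k * A k * ee k x‖ = ‖hh σ k‖ * ‖A k‖ := by
        intro σ
        rw [norm_mul, norm_mul, norm_ee, mul_one]
      simp_rw [h1]
      rw [integral_mul_const]
      have h2 : ∫ σ in Ioi τ, ‖hh σ k‖ ≤ 1 := by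
        have h3 := (int_hh hk (τ := τ)).2
        have h4 : ∀ σ : ℝ, ‖hh σ k‖ = (hh σ k).re := by
          intro σ
          unfold hh
          rw [Complex.norm_real, Real.norm_of_nonneg (Real.exp_pos _).le, Complex.ofReal_re]
        simp_rw [h4]
        have h5 : ∫ σ in Ioi τ, (hh σ k).re = (∫ σ in Ioi τ, hh σ k).re :=
          integral_re (𝕜 := ℂ) (int_hh hk (τ := τ)).1
        rw [h5, h3]
        refine (Complex.re_le_norm _).trans ?_
        rw [norm_mul]
        have h6 := norm_iv_le k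
        rw [pow_zero, mul_one] at h6
        calc ‖iv k‖ * ‖hh τ k‖ ≤ 1 * 1 :=
              mul_le_mul h6 (norm_hh_le hτ.le k) (norm_nonneg _) zero_le_one
          _ = 1 := one_mul 1
      calc (∫ σ in Ioi τ, ‖hh σ k‖) * ‖A k‖ ≤ 1 * ‖A k‖ :=
            mul_le_mul_of_nonneg_right h2 (norm_nonneg _)
        _ = ‖A k‖ := one_mul _
  have hs : Summable fun k => ∫ σ in Ioi τ, ‖hh σ k * A k * ee k x‖ :=
    (hAR.sum.norm).of_nonneg_of_le (fun k => integral_nonneg fun _ => norm_nonneg _) hnorm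
  have h := hasSum_integral_of_summable_integral_norm (fun k => (ht k).1) hs
  have e1 : S (fun k => fj k i * (fj k j * (fj k m * (iv k * (hh τ k * a k))))) x =
      ∫ σ in Ioi τ, ∑' k, hh σ k * A k * ee k x := by
    rw [← h.tsum_eq]
    unfold S
    refine tsum_congr fun k => ?_
    rw [(ht k).2, hA]
    ring
  rw [e1]
  obtain ⟨r1, r2⟩ := rp_int hτ M
  have h3 : ‖∫ σ in Ioi τ, ∑' k, hh σ k * A k * ee k x‖ ≤
      ∫ σ in Ioi τ, M / √(σ / 3) / √(σ / 3) / √(σ / 3) := by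
    refine norm_integral_le_of_norm_le r1 ?_
    refine (ae_restrict_iff' measurableSet_Ioi).2 (ae_of_all _ fun σ hσ => ?_)
    have hσ0 : 0 < σ := hτ.trans hσ
    have h3 : 0 < σ / 3 := by positivity
    have q1 := ha.hh h3.le
    have q2 := q1.fj m
    have q3 := (q2.hh h3.le).fj j
    have b1 := grad_bd ha.sum hM h3 m
    have b2 := grad_bd q2.sum b1 h3 j
    have b3 := grad_bd q3.sum b2 h3 i x
    refine le_trans (le_of_eq ?_) b3
    congr 1
    unfold S
    refine tsum_congr fun k => ?_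
    have e2 : hh σ k = hh (σ / 3) k * (hh (σ / 3) k * hh (σ / 3) k) := by
      rw [← hh_add, ← hh_add]
      congr 1
      ring
    rw [e2, hA]
    ring
  refine h3.trans ?_
  rw [r2]
  have h4 : 6 * √3 ≤ 11 := by
    have : √3 ≤ 11 / 6 := by
      rw [Real.sqrt_le_left (by norm_num)]
      norm_num
    linarith
  have hs : 0 < √τ := Real.sqrt_pos.2 hτ
  rw [div_le_div_iff_of_pos_right hs]
  nlinarith

/-- The Leray projection of a derivative of the heat semigroup. -/
theorem proj_bd {a : K3 → ℂ} (ha : Rd a) {M : ℝ} (hM : ∀ x, ‖S a x‖ ≤ M) {τ : ℝ} (hτ : 0 < τ)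
    (i j m : Fin 3) (x : V) :
    ‖S (fun k => coef k i j m * (hh τ k * a k)) x‖ ≤ 12 * M / √τ := by
  have hM0 : 0 ≤ M := (norm_nonneg _).trans (hM 0)
  have h1 := inv_bd ha hM hτ i j m x
  have h2 := grad_bd ha.sum hM hτ j x
  have hs : 0 < √τ := Real.sqrt_pos.2 hτ
  have e : S (fun k => coef k i j m * (hh τ k * a k)) x =
      -((if m = i then 1 else 0) * S (fun k => fj k j * (hh τ k * a k)) x) -
        S (fun k => fj k i * (fj k j * (fj k m * (iv k * (hh τ k * a k))))) x := by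
    unfold S
    have s1 : Summable fun k => fj k j * (hh τ k * a k) * ee k x :=
      summable_term ((ha.hh hτ.le).fj j).sum x
    have s2 : Summable fun k =>
        fj k i * (fj k j * (fj k m * (iv k * (hh τ k * a k)))) * ee k x :=
      summable_term (((((ha.hh hτ.le).iv).fj m).fj j).fj i).sum x
    rw [← tsum_mul_left, ← tsum_neg, ← Summable.tsum_sub ((s1.mul_left _).neg) s2]
    refine tsum_congr fun k => ?_
    beta_reduce
    rw [coef_eq]
    ring
  rw [e]
  refine (norm_sub_le _ _).trans ?_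
  rw [norm_neg, norm_mul]
  have h3 : ‖((if m = i then 1 else 0 : ℂ))‖ ≤ 1 := by split_ifs <;> simp
  calc ‖((if m = i then 1 else 0 : ℂ))‖ * ‖S (fun k => fj k j * (hh τ k * a k)) x‖ +
        ‖S (fun k => fj k i * (fj k j * (fj k m * (iv k * (hh τ k * a k))))) x‖
      ≤ 1 * (M / √τ) + 11 * M / √τ :=
        add_le_add (mul_le_mul h3 h2 (norm_nonneg _) zero_le_one) h1
    _ = 12 * M / √τ := by ring

/-- The gradient of the Leray projection of a derivative of the heat semigroup. -/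
theorem dproj_bd {a : K3 → ℂ} (ha : Rd a) {M : ℝ} (hM : ∀ x, ‖S a x‖ ≤ M) {τ : ℝ} (hτ : 0 < τ)
    (l i j m : Fin 3) (x : V) :
    ‖S (fun k => fj k l * (coef k i j m * (hh τ k * a k))) x‖ ≤ 24 * M / τ := by
  have h2 : 0 < τ / 2 := by positivity
  have b1 := grad_bd ha.sum hM h2 l
  have b2 := proj_bd ((ha.hh h2.le).fj l) b1 h2 i j m x
  refine le_trans (le_of_eq ?_) (b2.trans (le_of_eq ?_))
  · congr 1
    unfold S
    refine tsum_congr fun k => ?_
    have e2 : hh τ k = hh (τ / 2) k * hh (τ / 2) k := by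
      rw [← hh_add]
      congr 1
      ring
    beta_reduce
    rw [e2]
    ring
  · have hs : √(τ / 2) * √(τ / 2) = τ / 2 := Real.mul_self_sqrt h2.le
    have hs0 : 0 < √(τ / 2) := Real.sqrt_pos.2 h2
    rw [← mul_div_assoc, div_div, hs]
    field_simp
    ring

end Pool.Agent.Helper33S
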