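import Pool.Agent.Helper33S.En5
import Pool.Agent.Helper33S.Cnt2

/-!
The kinetic energy of the fast part of the fluid at one time bounds the number of singular points
at a later time, viscosity one (helper33).
-/

set_option autoImplicit false

open MeasureTheory Set Metric Filter Topology
open scoped ContDiff

namespace Pool.Agent.Helper33S

open H459R3.NS W221.NS Pool.Agent.Y8
open Pool.Agent.N976.EQ.E4 (cube_meas)

/-! ### The cut-off -/

/-- a smooth cut-off function -/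
noncomputable def cut (s : ℝ) : ℝ := Real.smoothTransition ((4 - s) / 3)

theorem cut_smooth : ContDiff ℝ ∞ cut := by
  unfold cut
  exact Real.smoothTransition.contDiff.comp (by fun_prop)

theorem cut_nn (s : ℝ) : 0 ≤ cut s := Real.smoothTransition.nonneg _

theorem cut_le (s : ℝ) : cut s ≤ 1 := Real.smoothTransition.le_one _

theorem cut_one {s : ℝ} (h : s ≤ 1) : cut s = 1 :=
  Real.smoothTransition.one_of_one_le (by linarith)

theorem cut_zero {s : ℝ} (h : 4 ≤ s) : cut s = 0 :=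
  Real.smoothTransition.zero_of_nonpos (by linarith)

/-- the slow part of a field -/
noncomputable def slow (lam : ℝ) (U : V → V) (x : V) : V :=
  fun i => cut (nsq U x / lam ^ 2) * U x i

theorem nsq_sp {U : V → V} (hU : ∀ i, SP fun x => U x i) : SP (nsq U) := by
  have h : SP fun x => ∑ i, U x i * U x i := SP.sum fun i _ => (hU i).mul (hU i)
  have e : (fun x => ∑ i, U x i * U x i) = nsq U := by
    funext x
    unfold nsq
    exact Finset.sum_congr rfl fun i _ => by ring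
  rwa [e] at h

theorem slow_sp {lam : ℝ} {U : V → V} (hU : ∀ i, SP fun x => U x i) (i : Fin 3) :
    SP fun x => slow lam U x i where
  smooth := by
    unfold slow
    exact (cut_smooth.comp ((nsq_sp hU).smooth.div_const _)).mul (hU i).smooth
  per := fun j x => by
    have h1 := (nsq_sp hU).per j x
    have h2 : U (x + Pi.single j 1) i = U x i := (hU i).per j x
    show cut (nsq U (x + Pi.single j 1) / lam ^ 2) * U (x + Pi.single j 1) i =
      cut (nsq U x / lam ^ 2) * U x i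
    rw [h1, h2]

theorem slow_bd {lam : ℝ} (hl : 0 < lam) (U : V → V) (x : V) (i : Fin 3) :
    |slow lam U x i| ≤ 2 * lam := by
  have hn : U x i ^ 2 ≤ nsq U x :=
    Finset.single_le_sum (f := fun i => U x i ^ 2) (fun j _ => sq_nonneg _) (Finset.mem_univ i)
  unfold slow
  rw [abs_mul, abs_of_nonneg (cut_nn _)]
  rcases le_or_gt 4 (nsq U x / lam ^ 2) with h | h
  · rw [cut_zero h, zero_mul]
    positivity
  · have h1 : nsq U x < (2 * lam) ^ 2 := by
      rw [div_lt_iff₀ (by positivity)] at h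
      nlinarith
    have h2 : |U x i| ≤ 2 * lam := by
      rw [← abs_of_pos (by positivity : 0 < 2 * lam)]
      exact sq_le_sq.1 (by linarith)
    calc cut (nsq U x / lam ^ 2) * |U x i| ≤ 1 * |U x i| :=
          mul_le_mul_of_nonneg_right (cut_le _) (abs_nonneg _)
      _ = |U x i| := one_mul _
      _ ≤ 2 * lam := h2

/-- the energy of the fast part -/
theorem fast_le {lam : ℝ} (hl : 0 < lam) {U : V → V} (hU : ∀ i, SP fun x => U x i) :
    ∑ i, ∫ x in cube, (U x i - slow lam U x i) ^ 2 ≤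
      ∫ x in cube ∩ {x | lam ^ 2 < nsq U x}, nsq U x := by
  have hc := (nsq_sp hU).cont
  have hm : MeasurableSet {x | lam ^ 2 < nsq U x} := measurableSet_lt measurable_const hc.measurable
  have i1 : ∀ i, IntegrableOn (fun x => (U x i - slow lam U x i) ^ 2) cube := fun i =>
    integrableOn_cube (((hU i).cont.sub (slow_sp hU i).cont).pow 2)
  rw [← integral_finsetSum _ fun i _ => i1 i, ← setIntegral_indicator hm]
  refine setIntegral_mono (integrable_finsetSum _ fun i _ => i1 i)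
    ((integrableOn_cube hc).indicator hm) fun x => ?_
  beta_reduce
  have h0 : ∀ i, (U x i - slow lam U x i) ^ 2 =
      (1 - cut (nsq U x / lam ^ 2)) ^ 2 * U x i ^ 2 := by
    intro i
    unfold slow
    ring
  rw [Finset.sum_congr rfl fun i _ => h0 i, ← Finset.mul_sum]
  have e : ∑ i, U x i ^ 2 = nsq U x := rfl
  rw [e]
  have hn := nsq_nn U x
  by_cases hx : lam ^ 2 < nsq U x
  · rw [indicator_of_mem (show x ∈ {x | lam ^ 2 < nsq U x} from hx)]
    have h1 := cut_nn (nsq U x / lam ^ 2)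
    have h2 := cut_le (nsq U x / lam ^ 2)
    have h3 : (1 - cut (nsq U x / lam ^ 2)) ^ 2 ≤ 1 := by nlinarith
    calc _ ≤ 1 * nsq U x := mul_le_mul_of_nonneg_right h3 hn
      _ = nsq U x := one_mul _
  · rw [indicator_of_notMem (show x ∉ {x | lam ^ 2 < nsq U x} from hx),
      cut_one ((div_le_one (by positivity)).2 (not_lt.1 hx))]
    simp

/-- **The count, viscosity one**: points near which the velocity is large. -/
theorem core (hT : S_TCUT) (hcrit : S_CRIT4) (hwfl : S_WFL) :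
    ∃ C δ : ℝ, 0 < C ∧ 0 < δ ∧
    ∀ E r R : ℝ, 0 < r → r ≤ R → (1 + E ^ 2) * r ≤ δ → ∃ Q η : ℝ, 0 < η ∧
    ∀ (T D : ℝ) (G : Set ℝ) (u : ℝ → V → V) (p : ℝ → V → ℝ), Turb 1 T E D G u p →
    ∀ t₁ ∈ G, ∀ s : ℝ, t₁ + R ^ 2 - η < s → s < t₁ + R ^ 2 + η → s < T →
      ∀ S : Finset V, (∀ x ∈ S, x ∈ cube) → (∀ x ∈ S, ∀ y ∈ S, x ≠ y → r ≤ ‖x - y‖) →
      ∀ (ta : V → ℝ) (ya : V → V), (∀ x ∈ S, ta x ∈ G ∧ s - η < ta x ∧ ta x < s ∧
        ‖ya x - x‖ < η ∧ Q < ‖u (ta x) (ya x)‖) →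
        S.card * r ≤ C * ∫ x in cube ∩ {x | δ ^ 2 / R ^ 2 < nsq (u t₁) x}, nsq (u t₁) x := by
  obtain ⟨β, C₀, hβ, hC₀, hcnt⟩ := t_CNT2 hcrit hwfl
  refine ⟨12 * C₀, min (1 / 14000) β, by positivity, by positivity, ?_⟩
  intro E r R hr hrR0 hrδ
  set δ := min (1 / 14000) β with hδ
  have hδ0 : 0 < δ := by positivity
  have hδ1 : δ ≤ 1 / 14000 := min_le_left _ _
  have hδ2 : δ ≤ β := min_le_right _ _
  have hE0 : 0 ≤ (1 + E ^ 2) * r := by positivity
  obtain ⟨Q, η, hη0, hη1, hcnt⟩ := hcnt E (r / 2) (by positivity) (by linarith)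
  refine ⟨Q, η, hη0, ?_⟩
  intro T D G u p h t₁ ht₁ s hsl hsu hsT S hSc hsep ta ya hS
  have hη2 : η ≤ r ^ 2 / 256 := by
    have : (r / 2) ^ 2 / 64 = r ^ 2 / 256 := by ring
    linarith
  have hr2 : 0 < r ^ 2 := by positivity
  have hrR : r ^ 2 ≤ R ^ 2 := by
    have : 0 ≤ R := hr.le.trans hrR0
    nlinarith
  have hR0 : 0 < R := hr.trans_le hrR0
  have ht1 : 0 < t₁ := (h.subG ht₁).1
  set lam := δ / R with hlam
  have hl0 : 0 < lam := by positivity
  have hl2 : lam ^ 2 = δ ^ 2 / R ^ 2 := by rw [hlam, div_pow]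
  have hU := fun i => tspU h ht₁ i
  have hf := fun i => slow_sp (lam := lam) hU i
  have hg : ∀ i, SP fun x => u t₁ x i - slow lam (u t₁) x i := fun i => sps (hU i) (hf i)
  set P := ∑ i, ∫ x in cube, (u t₁ x i - slow lam (u t₁) x i) ^ 2 with hP
  have hP0 : 0 ≤ P := Finset.sum_nonneg fun i _ => integral_nonneg fun x => sq_nonneg _
  have hPle := fast_le hl0 hU
  rw [← hP, hl2] at hPle
  -- the flow
  have hsm : 3456 * (2 * lam) * √(4 * R ^ 2) ≤ 1 := by
    have e : √(4 * R ^ 2) = 2 * R := by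
      rw [show 4 * R ^ 2 = (2 * R) ^ 2 by ring, Real.sqrt_sq (by positivity)]
    rw [e, hlam]
    have : 3456 * (2 * (δ / R)) * (2 * R) = 13824 * δ := by
      field_simp
      norm_num
    rw [this]
    linarith
  have hdiv : ∀ x, ∑ i, pd i (fun y => slow lam (u t₁) y i +
      (fun y i => u t₁ y i - slow lam (u t₁) y i) y i) x = 0 := by
    intro x
    rw [← h.divfree t₁ ht₁ x]
    refine Finset.sum_congr rfl fun i _ => ?_
    congr 1
    funext y
    ring
  have hfl := flow_exists hsm (f := slow lam (u t₁))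
    (g := fun y i => u t₁ y i - slow lam (u t₁) y i) hf hg hdiv (fun x i => slow_bd hl0 _ x i)
  -- the times
  have hq : (r / 2) ^ 2 = r ^ 2 / 4 := by ring
  have hwin2 : 1 / 2 * R ^ 2 ≤ s - (r / 2) ^ 2 - t₁ := by linarith
  have hR2 : 0 < R ^ 2 := by positivity
  have hwin : t₁ < s - (r / 2) ^ 2 := by linarith
  have key : ∀ n : ℕ, (S.card : ℝ) * (r / 2) ≤
      C₀ * (6 * P + 48 * (4 * (2 * lam) * (2 * lam / 2 ^ n)) ^ 2 * (4 * R ^ 2)) := by
    intro n
    obtain ⟨Z, Z', φ, q, hF⟩ := hfl n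
    have hPF : ∑ i, ∫ x in cube, (u t₁ x i - slow lam (u t₁) x i) ^ 2 ≤
        ∑ i, ∫ x in cube, (fun y i => u t₁ y i - slow lam (u t₁) y i) x i ^ 2 := le_rfl
    obtain ⟨hi, hm⟩ := enW_main hT h hF (by positivity) hP0 hsm (by positivity) ht₁
      (fun i => (hf i).cont) hPF hwin (b := s) (by linarith) (by linarith)
    refine (hcnt T D G u p h s (by linarith) hsT S hSc (fun x hx y hy hxy => ?_) ta ya hS
      (G ∩ Ioi t₁) (WW u t₁ Z φ) (h.openG.inter isOpen_Ioi) inter_subset_left ?_ ?_ ?_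
      (186624 * δ ^ 2 / R ^ 4) ?_ ?_ hi).trans ?_
    · linarith [hsep x hx y hy hxy]
    · exact fun t ht => ⟨ht.1, hwin.trans ht.2.1⟩
    · exact contDiffOn_pi.2 fun i => smW h hF i
    · exact fun t ht => (spvW h hF ht.1 (le_of_lt ht.2)).2
    · have h1 : r ^ 4 ≤ R ^ 4 := by
        nlinarith [sq_nonneg (r ^ 2), sq_nonneg (R ^ 2)]
      have h2 : 186624 * δ ^ 2 / R ^ 4 * (r / 2) ^ 4 = 11664 * δ ^ 2 * (r ^ 4 / R ^ 4) := by ring
      have h3 : r ^ 4 / R ^ 4 ≤ 1 := (div_le_one (by positivity)).2 h1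
      rw [h2]
      calc 11664 * δ ^ 2 * (r ^ 4 / R ^ 4) ≤ 11664 * δ ^ 2 * 1 := by gcongr
        _ = (11664 * δ) * δ := by ring
        _ ≤ 1 * β := by gcongr; linarith
        _ = β := one_mul _
    · intro t ht x
      have ht1 : t₁ < t := ht.1.2
      have k1 := (gsq_two h hF ht.1.1 ht1.le x).1
      have k2 := gsqV_le hF ht1 (by linarith [ht.2.2]) x
      have k3 : 1 / 2 * R ^ 2 ≤ t - t₁ := by linarith [ht.2.1]
      have k4 : 11664 * (2 * lam) ^ 2 / (t - t₁) ≤ 11664 * (2 * lam) ^ 2 / (1 / 2 * R ^ 2) :=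
        div_le_div_of_nonneg_left (by positivity) (by positivity) k3
      have k5 : 2 * (11664 * (2 * lam) ^ 2 / (1 / 2 * R ^ 2)) = 186624 * δ ^ 2 / R ^ 4 := by
        rw [hlam]
        field_simp
        norm_num
      linarith
    · exact mul_le_mul_of_nonneg_left hm hC₀.le
  have hlim : Tendsto (fun n : ℕ => C₀ * (6 * P +
      48 * (4 * (2 * lam) * (2 * lam / 2 ^ n)) ^ 2 * (4 * R ^ 2))) atTop
      (𝓝 (C₀ * (6 * P + 48 * (4 * (2 * lam) * 0) ^ 2 * (4 * R ^ 2)))) := by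
    have h1 : Tendsto (fun n : ℕ => 2 * lam / 2 ^ n) atTop (𝓝 0) :=
      tendsto_const_nhds.div_atTop (tendsto_pow_atTop_atTop_of_one_lt (by norm_num))
    exact (((((h1.const_mul _).pow 2).const_mul _).mul_const _).const_add _).const_mul _
  have h2 := ge_of_tendsto' hlim key
  have h3 : (S.card : ℝ) * (r / 2) ≤ C₀ * (6 * P) := by
    refine h2.trans (le_of_eq ?_)
    ring
  have h4 := mul_le_mul_of_nonneg_left hPle hC₀.le
  linarith

/-- **The count, viscosity one**: suitable weak solutions, at any time. -/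
theorem main_w (hT : S_TCUT) (hcrit : S_CRIT4) (hwfl : S_WFL) :
    ∃ C δ : ℝ, 0 < C ∧ 0 < δ ∧
    ∀ (T E D : ℝ) (G : Set ℝ) (u : ℝ → V → V) (p : ℝ → V → ℝ), Turb 1 T E D G u p →
    ∀ t₁ ∈ G, ∀ t₀ r : ℝ, t₁ < t₀ → t₀ ≤ T → 0 < r → r ^ 2 ≤ t₀ - t₁ → (1 + E ^ 2) * r ≤ δ →
      ∀ S : Finset V, (∀ x ∈ S, x ∈ cube ∧ SingPt G u t₀ x) →
      (∀ x ∈ S, ∀ y ∈ S, x ≠ y → r ≤ ‖x - y‖) →
        S.card * r ≤ C * ∫ x in cube ∩ {x | δ ^ 2 / (t₀ - t₁) < nsq (u t₁) x}, nsq (u t₁) x := by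
  obtain ⟨C, δ, hC, hδ, hcore⟩ := core hT hcrit hwfl
  refine ⟨C, δ, hC, hδ, ?_⟩
  intro T E D G u p h t₁ ht₁ t₀ r h10 h0T hr hrR hrδ S hS hsep
  have hR0 : 0 < √(t₀ - t₁) := Real.sqrt_pos.2 (by linarith)
  have hR2 : √(t₀ - t₁) ^ 2 = t₀ - t₁ := Real.sq_sqrt (by linarith)
  obtain ⟨Q, η, hη0, hcore⟩ := hcore E r √(t₀ - t₁) hr (Real.le_sqrt_of_sq_le hrR) hrδ
  have hex : ∀ x : V, ∃ (τ : ℝ) (y : V), x ∈ S → (τ ∈ G ∧ |τ - t₀| < η / 4 ∧ ‖y - x‖ < η / 4 ∧
      Q < ‖u τ y‖) := by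
    intro x
    by_cases hx : x ∈ S
    · obtain ⟨τ, h1, h2, y, h3, h4⟩ := (hS x hx).2 (η / 4) (by positivity) Q
      exact ⟨τ, y, fun _ => ⟨h1, h2, by rwa [mem_ball, dist_eq_norm] at h3, h4⟩⟩
    · exact ⟨0, 0, fun h => absurd h hx⟩
  choose ta ya hta using hex
  have ht0 : 0 < t₁ := (h.subG ht₁).1
  obtain ⟨s, hs1, hs2, hs3⟩ : ∃ s, t₀ - η / 4 < s ∧ s < min T (t₀ + η / 4) ∧
      ∀ x ∈ S, ta x < s := by
    set m := min T (t₀ + η / 4) with hm
    have hm1 : t₀ - η / 4 < m := lt_min (by linarith) (by linarith)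
    have e1 : ∀ᶠ s in 𝓝[<] m, s ∈ Ioo (t₀ - η / 4) m := Ioo_mem_nhdsLT hm1
    have e2 : ∀ᶠ s in 𝓝[<] m, ∀ x ∈ S, ta x < s := by
      rw [Finset.eventually_all]
      intro x hx
      obtain ⟨a1, a2, -⟩ := hta x hx
      have a3 : ta x < m := lt_min (h.subG a1).2 (by linarith [(abs_lt.1 a2).2])
      filter_upwards [Ioo_mem_nhdsLT a3] with s hs
      exact hs.1
    obtain ⟨s, h1, h2⟩ := (e1.and e2).exists
    exact ⟨s, h1.1, h1.2, h2⟩
  have hs4 : s < T := hs2.trans_le (min_le_left _ _)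
  have hs5 : s < t₀ + η / 4 := hs2.trans_le (min_le_right _ _)
  have key := hcore T D G u p h t₁ ht₁ s (by rw [hR2]; linarith) (by rw [hR2]; linarith) hs4 S
    (fun x hx => (hS x hx).1) hsep ta ya (fun x hx => by
      obtain ⟨a1, a2, a3, a4⟩ := hta x hx
      exact ⟨a1, by linarith [(abs_lt.1 a2).1], hs3 x hx, by linarith, a4⟩)
  rwa [hR2] at key

end Pool.Agent.Helper33S
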