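import Pool.Agent.Helper33S.Pic2
import Pool.Agent.H459R3.NS.Ibp

/-!
Real fields given by families of Fourier coefficients (helper33).
-/

set_option autoImplicit false

open MeasureTheory Set Filter Topology
open scoped ContDiff

namespace Pool.Agent.Helper33S

open H459R3.NS (V K3 ph ee S cube Per SP fr pd lap ee_add norm_ee ee_continuous ee_per norm_S_le
  S_continuous summable_term ph_single rap_fr S_fr n2 n2_fr n2_sq integral_norm_sq N_le_iff)
open Pool.Agent.H356R3.NS (SFam RD TT SF cvv dS fj coef sq_nonneg' sq_pos pw pw_pos one_le_pw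
  norm_fj_le norm_coef_le nk_le_pw cvv_summ SF_mul SF_real SF_hasFDerivAt SF_contDiffOn Ph Ph_apply)

/-! ### Symmetric families -/

/-- families with a real sum -/
def Sy (c : SFam) : Prop := ∀ k t, c (-k) t = star (c k t)

theorem Sy.cvv {c d : SFam} (hc : Sy c) (hd : Sy d) : Sy (cvv c d) := by
  intro k t
  unfold H356R3.NS.cvv
  rw [tsum_star, ← (Equiv.neg K3).tsum_eq]
  refine tsum_congr fun l => ?_
  simp only [Equiv.neg_apply]
  rw [hc, star_mul', ← hd]
  congr 2
  abel

theorem hh_neg (τ : ℝ) (k : K3) : hh τ (-k) = hh τ k := by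
  unfold hh
  rw [H356R3.NS.sq_neg]

theorem hh_star (τ : ℝ) (k : K3) : star (hh τ k) = hh τ k := by
  unfold hh
  rw [Complex.star_def, Complex.conj_ofReal]

theorem iv_neg (k : K3) : iv (-k) = iv k := by
  unfold iv
  rw [H356R3.NS.sq_neg]

theorem iv_star (k : K3) : star (iv k) = iv k := by
  unfold iv
  rw [Complex.star_def, Complex.conj_ofReal]

theorem fj_neg (k : K3) (j : Fin 3) : fj (-k) j = star (fj k j) := by
  unfold fj
  rw [Complex.star_def]
  simp only [map_mul, Complex.conj_I, Complex.conj_ofReal, Pi.neg_apply, Int.cast_neg]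
  have h2 : (starRingEnd ℂ) 2 = 2 := Complex.conj_ofReal 2
  have h3 : (starRingEnd ℂ) (k j : ℂ) = (k j : ℂ) := by simp
  rw [h2, h3]
  ring

theorem coef_neg (k : K3) (i j m : Fin 3) : coef (-k) i j m = star (coef k i j m) := by
  rw [coef_eq, coef_eq, star_sub, star_neg, star_mul', star_mul', star_mul', star_mul',
    fj_neg, fj_neg, fj_neg, iv_neg, iv_star]
  congr 3
  split_ifs <;> simp

theorem Sy.HT {a : K3 → ℂ} (ha : ∀ k, a (-k) = star (a k)) : Sy (HT a) := by
  intro k t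
  unfold Helper33S.HT
  rw [hh_neg, ha, star_mul', hh_star]

theorem Sy.DP {p : K3 → ℂ} (hp : ∀ k, p (-k) = star (p k)) {F : SFam} (hF : Sy F) :
    Sy (DP p F) := by
  intro k t
  unfold Helper33S.DP
  rw [hp, star_mul']
  congr 1
  rw [Complex.star_def, intervalIntegral.integral_of_le (le_max_right t 0),
    intervalIntegral.integral_of_le (le_max_right t 0), ← integral_conj]
  congr 1
  funext s
  rw [hh_neg, hF, map_mul, ← Complex.star_def, hh_star]

theorem Sy.add {c d : SFam} (hc : Sy c) (hd : Sy d) : Sy fun k t => c k t + d k t := by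
  intro k t
  beta_reduce
  rw [hc, hd, star_add]

theorem Sy.sum {ι : Type*} {s : Finset ι} {c : ι → SFam} (hc : ∀ i ∈ s, Sy (c i)) :
    Sy fun k t => ∑ i ∈ s, c i k t := by
  intro k t
  beta_reduce
  rw [star_sum]
  exact Finset.sum_congr rfl fun i hi => hc i hi k t

theorem Sy.mul {c : SFam} (hc : Sy c) {p : K3 → ℂ} (hp : ∀ k, p (-k) = star (p k)) :
    Sy fun k t => p k * c k t := by
  intro k t
  beta_reduce
  rw [hc, hp, star_mul']

theorem Sy.dS {c : SFam} (hc : Sy c) (j : Fin 3) : Sy (dS j c) := hc.mul fun k => fj_neg k j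

theorem zz_sy {a : Fin 3 → K3 → ℂ} (ha : ∀ i k, a i (-k) = star (a i k)) (n : ℕ) :
    ∀ i, Sy (zz a n i) := by
  induction n with
  | zero =>
    intro i k t
    unfold zz
    simp
  | succ n ih =>
    intro i
    refine Sy.add (Sy.HT (ha i)) (Sy.sum fun j _ => Sy.sum fun m _ => ?_)
    exact Sy.DP (fun k => coef_neg k i j m) ((ih j).cvv (ih m))

/-! ### Fields -/

/-- the field of a family -/
noncomputable def rf (c : SFam) (t : ℝ) (x : V) : ℝ := (SF c (t, x)).re

theorem rf_eq {c : SFam} (hc : Sy c) (t : ℝ) (x : V) : ((rf c t x : ℝ) : ℂ) = SF c (t, x) := by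
  have h := SF_real hc (t, x)
  refine Complex.ext ?_ ?_
  · rfl
  · rw [Complex.ofReal_im, h]

theorem rf_S {c : SFam} (hc : Sy c) (t : ℝ) (x : V) :
    ((rf c t x : ℝ) : ℂ) = S (fun k => c k t) x := by rw [rf_eq hc, SF_eq]

theorem rf_abs {c : SFam} (hc : Sy c) (t : ℝ) (x : V) : |rf c t x| = ‖S (fun k => c k t) x‖ := by
  rw [← rf_S hc, Complex.norm_real, Real.norm_eq_abs]

theorem rf_smooth {c : SFam} (h : ∀ n, TT n c) :
    ContDiffOn ℝ ∞ (fun z : ℝ × V => rf c z.1 z.2) (Ici 0 ×ˢ univ) :=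
  Complex.reCLM.contDiff.comp_contDiffOn (SF_contDiffOn h)

theorem rf_per (c : SFam) (t : ℝ) : Per (rf c t) := by
  intro j x
  unfold rf
  rw [SF_eq, SF_eq]
  congr 1
  unfold S
  exact tsum_congr fun k => by rw [ee_per k j x]

/-- the derivative in space -/
theorem rf_hd {c : SFam} (hc : RD c) (t : ℝ) (x : V) :
    HasFDerivAt (fun x : V => SF c (t, x))
      ((Ph 0 fun j => SF (dS j c) (t, x)).comp (ContinuousLinearMap.inr ℝ ℝ V)) x := by
  -- the constant family
  set d : SFam := fun k _ => c k t with hd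
  have hdR : RD d := by
    intro m
    obtain ⟨b, hb, hb'⟩ := hc m
    exact ⟨b, hb, fun k s => hb' k t⟩
  have h0R : RD (fun (_ : K3) (_ : ℝ) => (0 : ℂ)) := (TT_zero 0).rd
  have h := SF_hasFDerivAt (c := d) (c' := fun _ _ => 0) hdR h0R
    (fun k s _ => hasDerivAt_const s (c k t)) (p := ((1 : ℝ), x))
    ⟨show (0 : ℝ) < 1 from one_pos, mem_univ _⟩
  have h2 := h.comp x (hasFDerivAt_prodMk_right (𝕜 := ℝ) (1 : ℝ) x)
  have e1 : (fun x : V => SF c (t, x)) = SF d ∘ fun x => ((1 : ℝ), x) := by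
    funext y
    rfl
  rw [e1]
  refine h2.congr_fderiv ?_
  congr 2
  unfold SF
  simp

theorem rf_pd {c : SFam} (hc : RD c) (t : ℝ) (j : Fin 3) : pd j (rf c t) = rf (dS j c) t := by
  funext x
  have h := Complex.reCLM.hasFDerivAt.comp x (rf_hd hc t x)
  have e : rf c t = ⇑Complex.reCLM ∘ fun x : V => SF c (t, x) := rfl
  unfold pd
  rw [e, h.fderiv]
  show (Ph 0 (fun j => SF (dS j c) (t, x)) (0, Pi.single j 1)).re = rf (dS j c) t x
  rw [Ph_apply]
  unfold rf
  simp [Pi.single_apply]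

/-- the derivative in time -/
theorem rf_dt {c c' : SFam} (hc : RD c) (hc' : RD c')
    (h1 : ∀ k t, 0 < t → HasDerivAt (c k) (c' k t) t) {t : ℝ} (ht : 0 < t) (x : V) :
    HasDerivAt (fun s => rf c s x) (rf c' t x) t := by
  have h := SF_hasFDerivAt hc hc' h1 (p := (t, x)) ⟨ht, mem_univ _⟩
  have h2 := (Complex.reCLM.hasFDerivAt.comp (t, x) h).comp t
    (hasFDerivAt_prodMk_left (𝕜 := ℝ) t x)
  have h3 := h2.hasDerivAt
  refine h3.congr_deriv ?_
  show (Ph (SF c' (t, x)) (fun j => SF (dS j c) (t, x)) (1, 0)).re = rf c' t x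
  rw [Ph_apply]
  unfold rf
  simp

theorem RD_congr {c d : SFam} (h : c = d) (hc : RD c) : RD d := h ▸ hc

theorem rf_add {c d : SFam} (hc : RD c) (hd : RD d) (t : ℝ) (x : V) :
    rf (fun k t => c k t + d k t) t x = rf c t x + rf d t x := by
  unfold rf
  rw [H356R3.NS.SF_add hc hd, Complex.add_re]

theorem rf_fsum {c : Fin 3 → SFam} (hc : ∀ j, RD (c j)) (t : ℝ) (x : V) :
    rf (fun k t => ∑ j, c j k t) t x = ∑ j, rf (c j) t x := by
  unfold rf
  rw [H356R3.NS.SF_sum hc, Complex.re_sum]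

theorem rf_neg (c : SFam) (t : ℝ) (x : V) : rf (fun k t => -c k t) t x = -rf c t x := by
  unfold rf SF
  rw [← Complex.neg_re, ← tsum_neg]
  congr 1
  exact tsum_congr fun k => by ring

theorem rf_mul {c d : SFam} (hc : RD c) (hd : RD d) (sc : Sy c) (sd : Sy d) (t : ℝ) (x : V) :
    rf (cvv c d) t x = rf c t x * rf d t x := by
  have h := SF_mul hc hd (t, x)
  rw [← rf_eq sc, ← rf_eq sd, ← rf_eq (sc.cvv sd), ← Complex.ofReal_mul] at h
  exact (Complex.ofReal_injective h).symm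

/-! ### Smooth functions -/

theorem rd_fr {f : V → ℝ} (hf : SP f) : Rd (fr f) := by
  intro m
  have h := rap_fr hf
  have h0 := h 0
  have hm := h m
  refine ((h0.mul_left (6 ^ m : ℝ)).add (hm.mul_left (6 ^ m : ℝ))).of_nonneg_of_le
    (fun k => mul_nonneg (pow_pos (pw_pos k) m).le (norm_nonneg _)) fun k => ?_
  have hN : (0 : ℝ) ≤ H459R3.NS.N k := by positivity
  have h1 : pw k ≤ 1 + 3 * (H459R3.NS.N k : ℝ) := by
    unfold pw H356R3.NS.l1
    have h2 : ∀ i : Fin 3, |(k i : ℝ)| ≤ H459R3.NS.N k := by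
      intro i
      have := (N_le_iff k (H459R3.NS.N k)).1 le_rfl i
      exact_mod_cast this
    have h3 : ∑ i, |(k i : ℝ)| ≤ ∑ _i : Fin 3, (H459R3.NS.N k : ℝ) :=
      Finset.sum_le_sum fun i _ => h2 i
    simp only [Finset.sum_const, Finset.card_univ, Fintype.card_fin, nsmul_eq_mul] at h3
    push_cast at h3
    linarith
  have h2 : pw k ^ m ≤ 6 ^ m * (1 + (H459R3.NS.N k : ℝ) ^ m) := by
    rcases le_total (H459R3.NS.N k : ℝ) 1 with h | h
    · have h4 : pw k ^ m ≤ 6 ^ m := pow_le_pow_left₀ (pw_pos k).le (by linarith) m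
      have h5 : (0 : ℝ) ≤ 6 ^ m * (H459R3.NS.N k : ℝ) ^ m := by positivity
      nlinarith
    · have h4 : pw k ^ m ≤ (6 * (H459R3.NS.N k : ℝ)) ^ m :=
        pow_le_pow_left₀ (pw_pos k).le (by linarith) m
      rw [mul_pow] at h4
      have h5 : (0 : ℝ) ≤ 6 ^ m := by positivity
      nlinarith
  calc pw k ^ m * ‖fr f k‖ ≤ (6 ^ m * (1 + (H459R3.NS.N k : ℝ) ^ m)) * ‖fr f k‖ :=
        mul_le_mul_of_nonneg_right h2 (norm_nonneg _)
    _ = _ := by ring

theorem fr_sy {f : V → ℝ} (k : K3) : fr f (-k) = star (fr f k) := by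
  unfold fr H459R3.NS.fc
  rw [Complex.star_def, ← integral_conj]
  congr 1
  funext x
  rw [map_mul, Complex.conj_ofReal, ← H459R3.NS.ee_neg]

theorem fr_add {f g : V → ℝ} (hf : Continuous f) (hg : Continuous g) (k : K3) :
    fr (fun x => f x + g x) k = fr f k + fr g k := by
  unfold fr H459R3.NS.fc
  rw [← integral_add]
  · congr 1
    funext x
    push_cast
    ring
  · exact H459R3.NS.integrableOn_cube ((ee_continuous _).mul (Complex.continuous_ofReal.comp hf))
  · exact H459R3.NS.integrableOn_cube ((ee_continuous _).mul (Complex.continuous_ofReal.comp hg))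

theorem fr_fj {f : V → ℝ} (hf : SP f) (j : Fin 3) (k : K3) : fr (pd j f) k = fj k j * fr f k := by
  have h := congrFun (H459R3.NS.fr_pd hf j) k
  rw [h]
  unfold H459R3.NS.D fj
  ring

end Pool.Agent.Helper33S
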