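import Pool.Agent.Helper33S.Heat2

/-!
The Duhamel term and the Picard iteration on the Fourier side (helper33).
-/

set_option autoImplicit false

open MeasureTheory Set Filter Topology
open scoped ContDiff

namespace Pool.Agent.Helper33S

open H459R3.NS (V K3 ph ee S cube ee_add norm_ee ee_continuous norm_S_le S_continuous summable_term
  ph_single)
open Pool.Agent.H356R3.NS (SFam RD TT cvv fj coef sq_nonneg' sq_pos pw pw_pos one_le_pw norm_fj_le
  norm_coef_le nk_le_pw)

/-- a family at the time `t` -/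
theorem RD.rd {c : SFam} (h : RD c) (t : ℝ) : Rd fun k => c k t := by
  intro m
  obtain ⟨b, hb, hb'⟩ := h m
  exact hb.of_nonneg_of_le (fun k => mul_nonneg (pow_pos (pw_pos k) m).le (norm_nonneg _))
    fun k => hb' k t

/-- The Duhamel term with the multiplier `p`. -/
noncomputable def DP (p : K3 → ℂ) (F : SFam) : SFam := fun k t =>
  p k * ∫ s in (0 : ℝ)..(max t 0), hh (max t 0 - s) k * F k s

/-- The solution of the heat equation. -/
noncomputable def HT (a : K3 → ℂ) : SFam := fun k t => hh (max t 0) k * a k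

theorem hh_cont (k : K3) : Continuous fun τ : ℝ => hh τ k := by
  unfold hh
  fun_prop

theorem hh_deriv (k : K3) (τ : ℝ) :
    HasDerivAt (fun τ : ℝ => hh τ k) (-((c4 * H356R3.NS.sq k : ℝ) : ℂ) * hh τ k) τ := by
  have h1 : HasDerivAt (fun τ : ℝ => -(c4 * H356R3.NS.sq k * τ)) (-(c4 * H356R3.NS.sq k)) τ := by
    simpa using ((hasDerivAt_id' τ).const_mul (c4 * H356R3.NS.sq k)).fun_neg
  have h2 := h1.exp.ofReal_comp
  unfold hh
  refine h2.congr_deriv ?_
  push_cast
  ring

theorem HT_deriv (a : K3 → ℂ) (k : K3) {t : ℝ} (ht : 0 < t) :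
    HasDerivAt (HT a k) (-((c4 * H356R3.NS.sq k : ℝ) : ℂ) * HT a k t) t := by
  have h1 := (hh_deriv k t).mul_const (a k)
  have e : HT a k =ᶠ[𝓝 t] fun τ => hh τ k * a k := by
    filter_upwards [lt_mem_nhds ht] with s hs
    unfold HT
    rw [max_eq_left hs.le]
  refine (h1.congr_of_eventuallyEq e).congr_deriv ?_
  unfold HT
  rw [max_eq_left ht.le]
  ring

theorem HT_cont (a : K3 → ℂ) (k : K3) : Continuous (HT a k) := by
  unfold HT
  exact ((hh_cont k).comp (by fun_prop : Continuous fun t : ℝ => max t 0)).mul continuous_const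

theorem HT_RD {a : K3 → ℂ} (ha : Rd a) : RD (HT a) := by
  intro m
  refine ⟨fun k => pw k ^ m * ‖a k‖, ha m, fun k t => ?_⟩
  unfold HT
  rw [norm_mul]
  have h1 := norm_hh_le (le_max_right t 0) k
  have h2 := pow_pos (pw_pos k) m
  calc pw k ^ m * (‖hh (max t 0) k‖ * ‖a k‖) ≤ pw k ^ m * (1 * ‖a k‖) := by gcongr
    _ = pw k ^ m * ‖a k‖ := by rw [one_mul]

theorem nsq_le (k : K3) : ‖(-((c4 * H356R3.NS.sq k : ℝ) : ℂ))‖ ≤ |c4| * pw k ^ 2 :=
  H356R3.NS.norm_sq_le c4 k

theorem HT_TT {a : K3 → ℂ} (ha : Rd a) (n : ℕ) : TT n (HT a) := by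
  induction n with
  | zero => exact ⟨HT_RD ha, HT_cont a⟩
  | succ n ih =>
    exact ⟨HT_RD ha, HT_cont a, fun k t => -((c4 * H356R3.NS.sq k : ℝ) : ℂ) * HT a k t,
      fun k t ht => HT_deriv a k ht, TT.mul nsq_le ih⟩

theorem hh_split (k : K3) (t s : ℝ) : hh (t - s) k = hh t k * hh (-s) k := by
  rw [← hh_add]
  congr 1

theorem DP_eq (p : K3 → ℂ) (F : SFam) (k : K3) (t : ℝ) :
    DP p F k t = p k * (hh (max t 0) k * ∫ s in (0 : ℝ)..(max t 0), hh (-s) k * F k s) := by
  unfold DP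
  rw [← intervalIntegral.integral_const_mul (hh (max t 0) k)]
  congr 1
  refine intervalIntegral.integral_congr fun s _ => ?_
  rw [hh_split]
  ring

theorem inner_cont {F : SFam} (hF : ∀ k, Continuous (F k)) (k : K3) :
    Continuous fun s : ℝ => hh (-s) k * F k s :=
  ((hh_cont k).comp continuous_neg).mul (hF k)

theorem DP_cont {F : SFam} (hF : ∀ k, Continuous (F k)) (p : K3 → ℂ) (k : K3) :
    Continuous (DP p F k) := by
  have e : DP p F k = fun t => p k * (hh (max t 0) k *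
      (fun u => ∫ s in (0 : ℝ)..u, hh (-s) k * F k s) (max t 0)) := by
    funext t; exact DP_eq p F k t
  rw [e]
  have h1 : Continuous (fun u => ∫ s in (0 : ℝ)..u, hh (-s) k * F k s) :=
    intervalIntegral.continuous_primitive
      (fun a b => (inner_cont hF k).intervalIntegrable a b) 0
  have h2 : Continuous fun t : ℝ => max t 0 := by fun_prop
  exact continuous_const.mul (((hh_cont k).comp h2).mul (h1.comp h2))

theorem DP_deriv {F : SFam} (hF : ∀ k, Continuous (F k)) (p : K3 → ℂ) (k : K3) {t : ℝ}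
    (ht : 0 < t) :
    HasDerivAt (DP p F k) (-((c4 * H356R3.NS.sq k : ℝ) : ℂ) * DP p F k t + p k * F k t) t := by
  have h1 : HasDerivAt (fun u => ∫ s in (0 : ℝ)..u, hh (-s) k * F k s) (hh (-t) k * F k t) t :=
    intervalIntegral.integral_hasDerivAt_right
      ((inner_cont hF k).intervalIntegrable _ _)
      (inner_cont hF k).aestronglyMeasurable.stronglyMeasurableAtFilter
      (inner_cont hF k).continuousAt
  have h3 := ((hh_deriv k t).fun_mul h1).const_mul (p k)
  have e : DP p F k =ᶠ[𝓝 t] fun u => p k * (hh u k * ∫ s in (0 : ℝ)..u, hh (-s) k * F k s) := by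
    filter_upwards [lt_mem_nhds ht] with u hu
    rw [DP_eq, max_eq_left hu.le]
  refine (h3.congr_of_eventuallyEq e).congr_deriv ?_
  rw [DP_eq, max_eq_left ht.le]
  have h4 : hh t k * hh (-t) k = 1 := by
    rw [← hh_add, add_neg_cancel]
    unfold hh
    simp
  linear_combination (p k * F k t) * h4

theorem int_hh_le {k : K3} (hk : k ≠ 0) (T : ℝ) (hT : 0 ≤ T) :
    ∫ s in (0 : ℝ)..T, ‖hh (T - s) k‖ ≤ 1 := by
  have hp : 1 ≤ c4 * H356R3.NS.sq k := by
    have h1 : 1 ≤ c4 := by unfold c4; nlinarith [Real.pi_gt_three]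
    have h2 := H356R3.NS.one_le_sq hk
    nlinarith
  have hp0 : c4 * H356R3.NS.sq k ≠ 0 := by linarith
  have e : ∀ s : ℝ, ‖hh (T - s) k‖ = Real.exp (-(c4 * H356R3.NS.sq k) * (T - s)) := by
    intro s
    unfold hh
    rw [Complex.norm_real, Real.norm_of_nonneg (Real.exp_pos _).le]
    congr 1
    ring
  simp_rw [e]
  rw [intervalIntegral.integral_comp_sub_left
    (fun s => Real.exp (-(c4 * H356R3.NS.sq k) * s)) T, sub_self, sub_zero,
    intervalIntegral.integral_comp_mul_left (fun s => Real.exp s) (neg_ne_zero.2 hp0),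
    integral_exp, mul_zero, Real.exp_zero, smul_eq_mul]
  have h1 : 0 < Real.exp (-(c4 * H356R3.NS.sq k) * T) := Real.exp_pos _
  rw [inv_neg, neg_mul, ← mul_neg, neg_sub]
  have h2 : (c4 * H356R3.NS.sq k)⁻¹ ≤ 1 := inv_le_one_of_one_le₀ hp
  have h3 : 0 < (c4 * H356R3.NS.sq k)⁻¹ := inv_pos.2 (by linarith)
  have h4 : Real.exp (-(c4 * H356R3.NS.sq k) * T) ≤ 1 := by
    rw [Real.exp_le_one_iff]
    nlinarith
  nlinarith

theorem DP_RD {F : SFam} (hF : RD F) {p : K3 → ℂ} {C : ℝ} {r : ℕ} (hp : ∀ k, ‖p k‖ ≤ C * pw k ^ r) (hp0 : p 0 = 0) : RD (DP p F) := by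
  intro m
  obtain ⟨b, hb, hb'⟩ := hF (m + r)
  refine ⟨fun k => |C| * b k, hb.mul_left _, fun k t => ?_⟩
  have hpm : 0 < pw k ^ m := pow_pos (pw_pos k) m
  have hpr : 0 < pw k ^ r := pow_pos (pw_pos k) r
  have hb0 : 0 ≤ b k := (mul_nonneg (pow_pos (pw_pos k) _).le (norm_nonneg _)).trans (hb' k 0)
  by_cases hk : k = 0
  · subst hk
    unfold DP
    rw [hp0, zero_mul, norm_zero, mul_zero]
    exact mul_nonneg (abs_nonneg _) hb0
  · unfold DP
    rw [norm_mul]
    have h1 : ‖∫ s in (0 : ℝ)..(max t 0), hh (max t 0 - s) k * F k s‖ ≤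
        b k / (pw k ^ m * pw k ^ r) := by
      have h2 : ‖∫ s in (0 : ℝ)..(max t 0), hh (max t 0 - s) k * F k s‖ ≤
          ∫ s in (0 : ℝ)..(max t 0), ‖hh (max t 0 - s) k‖ * (b k / (pw k ^ m * pw k ^ r)) := by
        refine intervalIntegral.norm_integral_le_of_norm_le (le_max_right t 0)
          (ae_of_all _ fun s _ => ?_) ?_
        · rw [norm_mul]
          refine mul_le_mul_of_nonneg_left ?_ (norm_nonneg _)
          rw [le_div_iff₀ (by positivity), mul_comm, ← pow_add]
          exact hb' k s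
        · refine Continuous.intervalIntegrable ?_ _ _
          exact (((hh_cont k).comp (by fun_prop)).norm).mul continuous_const
      refine h2.trans ?_
      rw [intervalIntegral.integral_mul_const]
      have h3 := int_hh_le hk (max t 0) (le_max_right t 0)
      calc (∫ s in (0 : ℝ)..(max t 0), ‖hh (max t 0 - s) k‖) * (b k / (pw k ^ m * pw k ^ r))
          ≤ 1 * (b k / (pw k ^ m * pw k ^ r)) := by
            refine mul_le_mul_of_nonneg_right h3 ?_
            positivity
        _ = b k / (pw k ^ m * pw k ^ r) := one_mul _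
    have h4 : ‖p k‖ ≤ |C| * pw k ^ r := (hp k).trans
      (mul_le_mul_of_nonneg_right (le_abs_self C) hpr.le)
    calc pw k ^ m * (‖p k‖ * ‖∫ s in (0 : ℝ)..(max t 0), hh (max t 0 - s) k * F k s‖)
        ≤ pw k ^ m * ((|C| * pw k ^ r) * (b k / (pw k ^ m * pw k ^ r))) := by
          gcongr
      _ = |C| * b k := by field_simp

theorem DP_TT {F : SFam} (hF : ∀ n, TT n F) {p : K3 → ℂ} {C : ℝ} {r : ℕ}
    (hp : ∀ k, ‖p k‖ ≤ C * pw k ^ r) (hp0 : p 0 = 0) (n : ℕ) : TT n (DP p F) := by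
  have h1 : RD (DP p F) := DP_RD (hF 0).rd hp hp0
  have h2 : ∀ k, Continuous (DP p F k) := DP_cont (hF 0).ct p
  induction n with
  | zero => exact ⟨h1, h2⟩
  | succ n ih =>
    exact ⟨h1, h2, fun k t => -((c4 * H356R3.NS.sq k : ℝ) : ℂ) * DP p F k t + p k * F k t,
      fun k t ht => DP_deriv (hF 0).ct p k ht, (TT.mul nsq_le ih).add ((hF n).mul hp)⟩

/-- The maximum of the Duhamel term. -/
theorem DP_sup {F : SFam} (hF : RD F) (hc : ∀ k, Continuous (F k)) {p : K3 → ℂ} {C : ℝ} {r : ℕ}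
    (hp : ∀ k, ‖p k‖ ≤ C * pw k ^ r) {t : ℝ} (ht : 0 ≤ t) {β : ℝ → ℝ}
    (hβ : IntervalIntegrable β volume 0 t) {x : V}
    (h : ∀ s ∈ Ioo 0 t, ‖S (fun k => p k * (hh (t - s) k * F k s)) x‖ ≤ β s) :
    ‖S (fun k => DP p F k t) x‖ ≤ ∫ s in (0 : ℝ)..t, β s := by
  obtain ⟨b, hb, hb'⟩ := hF r
  have hcont : ∀ k, Continuous fun s : ℝ => p k * (hh (t - s) k * F k s) * ee k x := by
    intro k
    exact (continuous_const.mul (((hh_cont k).comp (by fun_prop)).mul (hc k))).mul
      continuous_const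
  have hi : ∀ k, Integrable (fun s : ℝ => p k * (hh (t - s) k * F k s) * ee k x)
      (volume.restrict (Ioc 0 t)) := fun k =>
    ((hcont k).intervalIntegrable 0 t).1
  have hnb : ∀ k, ∀ s ∈ Ioc 0 t, ‖p k * (hh (t - s) k * F k s) * ee k x‖ ≤ |C| * b k := by
    intro k s hs
    rw [norm_mul, norm_mul, norm_mul, norm_ee, mul_one]
    have h1 := norm_hh_le (τ := t - s) (by linarith [hs.2]) k
    have h2 : ‖p k‖ ≤ |C| * pw k ^ r := (hp k).trans
      (mul_le_mul_of_nonneg_right (le_abs_self C) (pow_pos (pw_pos k) r).le)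
    have h3 := pow_pos (pw_pos k) r
    calc ‖p k‖ * (‖hh (t - s) k‖ * ‖F k s‖) ≤ (|C| * pw k ^ r) * (1 * ‖F k s‖) := by gcongr
      _ = |C| * (pw k ^ r * ‖F k s‖) := by ring
      _ ≤ |C| * b k := mul_le_mul_of_nonneg_left (hb' k s) (abs_nonneg _)
  have hs : Summable fun k => ∫ s in Ioc 0 t, ‖p k * (hh (t - s) k * F k s) * ee k x‖ := by
    refine (hb.mul_left (t * |C|)).of_nonneg_of_le
      (fun k => integral_nonneg fun _ => norm_nonneg _) fun k => ?_
    calc ∫ s in Ioc 0 t, ‖p k * (hh (t - s) k * F k s) * ee k x‖ ≤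
          ∫ _s in Ioc 0 t, |C| * b k :=
          setIntegral_mono_on (hi k).norm (integrableOn_const (by simp)) measurableSet_Ioc (hnb k)
      _ = t * |C| * b k := by
          rw [setIntegral_const, Measure.real, Real.volume_Ioc, sub_zero,
            ENNReal.toReal_ofReal ht, smul_eq_mul]
          ring
  have h1 := hasSum_integral_of_summable_integral_norm hi hs
  have e1 : S (fun k => DP p F k t) x = ∫ s in Ioc 0 t, S (fun k => p k * (hh (t - s) k * F k s)) x := by
    have e2 : (fun s => S (fun k => p k * (hh (t - s) k * F k s)) x) =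
        fun s => ∑' k, p k * (hh (t - s) k * F k s) * ee k x := rfl
    rw [e2, ← h1.tsum_eq]
    unfold S
    refine tsum_congr fun k => ?_
    unfold DP
    beta_reduce
    rw [max_eq_left ht, intervalIntegral.integral_of_le ht, integral_mul_const,
      integral_const_mul]
  rw [e1, ← intervalIntegral.integral_of_le ht]
  refine intervalIntegral.norm_integral_le_of_norm_le ht ?_ hβ
  have h5 : ∀ᵐ s : ℝ, s ≠ t := by
    rw [ae_iff]
    simp
  filter_upwards [h5] with s hs1 hs2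
  exact h s ⟨hs2.1, lt_of_le_of_ne hs2.2 hs1⟩

end Pool.Agent.Helper33S
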