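import Pool.Agent.Helper33S.Pic

/-!
The Picard iteration on the Fourier side and its bounds in the maximum norm (helper33).
-/

set_option autoImplicit false

open MeasureTheory Set Filter Topology
open scoped ContDiff

namespace Pool.Agent.Helper33S

open H459R3.NS (V K3 ph ee S cube ee_add norm_ee ee_continuous norm_S_le S_continuous summable_term
  ph_single)
open Pool.Agent.H356R3.NS (SFam RD TT SF cvv dS fj coef sq_nonneg' sq_pos pw pw_pos one_le_pw
  norm_fj_le norm_coef_le nk_le_pw cvv_summ SF_mul)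

/-! ### Algebra -/

theorem SF_eq (c : SFam) (t : ℝ) (x : V) : SF c (t, x) = S (fun k => c k t) x := by
  unfold SF S
  exact tsum_congr fun k => by rw [ex_eq]

theorem S_cvv {c d : SFam} (hc : RD c) (hd : RD d) (t : ℝ) (x : V) :
    S (fun k => cvv c d k t) x = S (fun k => c k t) x * S (fun k => d k t) x := by
  have h := SF_mul hc hd (t, x)
  rw [SF_eq, SF_eq, SF_eq] at h
  exact h.symm

theorem S_add {a b : K3 → ℂ} (ha : Summable a) (hb : Summable b) (x : V) :
    S (fun k => a k + b k) x = S a x + S b x := by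
  unfold S
  rw [← (summable_term ha x).tsum_add (summable_term hb x)]
  exact tsum_congr fun k => by ring

theorem S_sub {a b : K3 → ℂ} (ha : Summable a) (hb : Summable b) (x : V) :
    S (fun k => a k - b k) x = S a x - S b x := by
  unfold S
  rw [← (summable_term ha x).tsum_sub (summable_term hb x)]
  exact tsum_congr fun k => by ring

theorem S_fsum {a : Fin 3 → K3 → ℂ} (ha : ∀ j, Summable (a j)) (x : V) :
    S (fun k => ∑ j, a j k) x = ∑ j, S (a j) x := by
  unfold S
  rw [← Summable.tsum_finsetSum fun j _ => summable_term (ha j) x]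
  exact tsum_congr fun k => by rw [Finset.sum_mul]

theorem fj_sub (k l : K3) (j : Fin 3) : fj (k - l) j = fj k j - fj l j := by
  unfold fj; simp only [Pi.sub_apply, Int.cast_sub]; ring

theorem RD_dS {c : SFam} (hc : RD c) (j : Fin 3) : RD (dS j c) := hc.mul fun k => norm_fj_le k j

theorem dS_cvv {c d : SFam} (hc : RD c) (hd : RD d) (l : Fin 3) (k : K3) (t : ℝ) :
    fj k l * cvv c d k t = cvv (dS l c) d k t + cvv c (dS l d) k t := by
  unfold cvv
  rw [← (cvv_summ (RD_dS hc l) hd k t).tsum_add (cvv_summ hc (RD_dS hd l) k t), ← tsum_mul_left]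
  refine tsum_congr fun m => ?_
  unfold dS
  rw [fj_sub]
  ring

theorem S_dcvv {c d : SFam} (hc : RD c) (hd : RD d) (l : Fin 3) (t : ℝ) (x : V) :
    S (fun k => fj k l * cvv c d k t) x = S (fun k => fj k l * c k t) x * S (fun k => d k t) x +
      S (fun k => c k t) x * S (fun k => fj k l * d k t) x := by
  have e : (fun k => fj k l * cvv c d k t) = fun k => cvv (dS l c) d k t + cvv c (dS l d) k t :=
    funext fun k => dS_cvv hc hd l k t
  rw [e, S_add (RD.rd ((RD_dS hc l).conv hd) t).sum (RD.rd (hc.conv (RD_dS hd l)) t).sum,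
    S_cvv (RD_dS hc l) hd, S_cvv hc (RD_dS hd l)]
  rfl

/-! ### The singular integral -/

theorem rs_int {t : ℝ} (ht : 0 ≤ t) : IntervalIntegrable (fun s => (√(t - s))⁻¹) volume 0 t ∧
    ∫ s in (0 : ℝ)..t, (√(t - s))⁻¹ = 2 * √t := by
  have e : ∀ x : ℝ, 0 ≤ x → (√x)⁻¹ = x ^ (-(1 / 2) : ℝ) := by
    intro x hx
    rw [Real.rpow_neg hx, Real.sqrt_eq_rpow]
  have h1 : IntervalIntegrable (fun x : ℝ => (√x)⁻¹) volume 0 t := by
    have h2 : IntervalIntegrable (fun x : ℝ => x ^ (-(1 / 2) : ℝ)) volume 0 t :=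
      intervalIntegral.intervalIntegrable_rpow' (by norm_num)
    refine h2.congr ?_
    intro x hx
    rw [uIoc_of_le ht] at hx
    exact (e x hx.1.le).symm
  constructor
  · have h2 := (h1.comp_sub_left t).symm
    simpa using h2
  · rw [intervalIntegral.integral_comp_sub_left (fun x => (√x)⁻¹) t, sub_self, sub_zero]
    have h3 : ∫ x in (0 : ℝ)..t, (√x)⁻¹ = ∫ x in (0 : ℝ)..t, x ^ (-(1 / 2) : ℝ) := by
      refine intervalIntegral.integral_congr fun x hx => ?_
      rw [uIcc_of_le ht] at hx
      exact e x hx.1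
    rw [h3, integral_rpow (Or.inl (by norm_num))]
    norm_num
    rw [Real.sqrt_eq_rpow]
    ring

theorem coef_poly (i j m : Fin 3) (k : K3) : ‖coef k i j m‖ ≤ 4 * Real.pi * pw k ^ 1 := by
  rw [pow_one]
  exact (norm_coef_le k i j m).trans (mul_le_mul_of_nonneg_left (nk_le_pw k) (by positivity))

theorem fcoef_poly (l i j m : Fin 3) (k : K3) :
    ‖fj k l * coef k i j m‖ ≤ (2 * Real.pi) * (4 * Real.pi) * pw k ^ 2 := by
  rw [norm_mul]
  calc ‖fj k l‖ * ‖coef k i j m‖ ≤ (2 * Real.pi * pw k ^ 1) * (4 * Real.pi * pw k ^ 1) := by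
        refine mul_le_mul (norm_fj_le k l) (coef_poly i j m k) (norm_nonneg _) ?_
        have := pw_pos k
        positivity
    _ = _ := by ring

/-- Duhamel term with the Leray projection -/
theorem DP_b {F : SFam} (hF : RD F) (hc : ∀ k, Continuous (F k)) {t K : ℝ} (ht : 0 ≤ t)
    (hK : ∀ s ∈ Ioo 0 t, ∀ x, ‖S (fun k => F k s) x‖ ≤ K) (i j m : Fin 3) (x : V) :
    ‖S (fun k => DP (fun k => coef k i j m) F k t) x‖ ≤ 24 * K * √t := by
  obtain ⟨r1, r2⟩ := rs_int ht
  have h := DP_sup (p := fun k => coef k i j m) hF hc (coef_poly i j m) ht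
    (β := fun s => 12 * K * (√(t - s))⁻¹) (r1.const_mul _) (x := x) ?_
  · refine h.trans (le_of_eq ?_)
    rw [intervalIntegral.integral_const_mul, r2]
    ring
  · intro s hs
    refine (proj_bd (RD.rd hF s) (hK s hs) (sub_pos.2 hs.2) i j m x).trans (le_of_eq ?_)
    rw [div_eq_mul_inv]

/-- The gradient of the Duhamel term. -/
theorem DP_g {F : SFam} (hF : RD F) (hc : ∀ k, Continuous (F k)) {t K G : ℝ} (ht : 0 < t)
    (hG : 0 ≤ G) (hK0 : 0 ≤ K)
    (hK : ∀ s ∈ Ioo 0 t, ∀ x, ‖S (fun k => F k s) x‖ ≤ K) (l : Fin 3)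
    (hD : ∀ s ∈ Ioo 0 t, ∀ x, ‖S (fun k => fj k l * F k s) x‖ ≤ G / √s) (i j m : Fin 3) (x : V) :
    ‖S (fun k => fj k l * DP (fun k => coef k i j m) F k t) x‖ ≤ 48 * K + 34 * G := by
  obtain ⟨r1, r2⟩ := rs_int ht.le
  have hst : 0 < √t := Real.sqrt_pos.2 ht
  have e : (fun k => fj k l * DP (fun k => coef k i j m) F k t) =
      fun k => DP (fun k => fj k l * coef k i j m) F k t := by
    funext k
    unfold DP
    ring
  rw [e]
  have h2 : √2 ≤ 17 / 12 := by
    rw [Real.sqrt_le_left (by norm_num)]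
    norm_num
  have h := DP_sup (p := fun k => fj k l * coef k i j m) hF hc (fcoef_poly l i j m) ht.le
    (β := fun s => 48 * K / t + 17 * G / √t * (√(t - s))⁻¹)
    ((continuous_const.intervalIntegrable _ _).add (r1.const_mul _)) (x := x) ?_
  · refine h.trans (le_of_eq ?_)
    rw [intervalIntegral.integral_add (continuous_const.intervalIntegrable _ _) (r1.const_mul _),
      intervalIntegral.integral_const_mul, r2, intervalIntegral.integral_const, sub_zero,
      smul_eq_mul]
    field_simp
    ring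
  · intro s hs
    have hts : 0 < t - s := sub_pos.2 hs.2
    have hsq : 0 < √(t - s) := Real.sqrt_pos.2 hts
    rcases le_or_gt s (t / 2) with hle | hgt
    · have b := dproj_bd (RD.rd hF s) (hK s hs) hts l i j m x
      have e2 : (fun k => fj k l * coef k i j m * (hh (t - s) k * F k s)) =
          fun k => fj k l * (coef k i j m * (hh (t - s) k * F k s)) := by
        funext k
        ring
      rw [e2]
      refine b.trans ?_
      have h3 : 24 * K / (t - s) ≤ 48 * K / t := by
        rw [div_le_div_iff₀ hts ht]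
        nlinarith
      have h4 : 0 ≤ 17 * G / √t * (√(t - s))⁻¹ := by positivity
      linarith
    · have b := proj_bd ((RD.rd hF s).fj l) (hD s hs) hts i j m x
      have e2 : (fun k => fj k l * coef k i j m * (hh (t - s) k * F k s)) =
          fun k => coef k i j m * (hh (t - s) k * (fj k l * F k s)) := by
        funext k
        ring
      rw [e2]
      refine b.trans ?_
      have hs0 : 0 < √s := Real.sqrt_pos.2 hs.1
      have h5 : √t ≤ √2 * √s := by
        rw [← Real.sqrt_mul (by norm_num)]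
        exact Real.sqrt_le_sqrt (by linarith)
      have h6 : 12 * (G / √s) ≤ 17 * G / √t := by
        rw [← mul_div_assoc, div_le_div_iff₀ hs0 hst]
        nlinarith [mul_nonneg hG hs0.le]
      have h7 : 12 * (G / √s) / √(t - s) ≤ 17 * G / √t * (√(t - s))⁻¹ := by
        rw [div_eq_mul_inv (12 * (G / √s))]
        exact mul_le_mul_of_nonneg_right h6 (inv_nonneg.2 hsq.le)
      have h8 : 0 ≤ 48 * K / t := by positivity
      linarith

/-! ### The iteration -/

/-- The Picard iteration, starting from zero. -/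
noncomputable def zz (a : Fin 3 → K3 → ℂ) : ℕ → Fin 3 → SFam
  | 0 => fun _ _ _ => 0
  | n + 1 => fun i k t => HT (a i) k t +
      ∑ j, ∑ m, DP (fun k => coef k i j m) (cvv (zz a n j) (zz a n m)) k t

theorem zz_succ (a : Fin 3 → K3 → ℂ) (n : ℕ) (i : Fin 3) (k : K3) (t : ℝ) :
    zz a (n + 1) i k t = HT (a i) k t +
      ∑ j, ∑ m, DP (fun k => coef k i j m) (cvv (zz a n j) (zz a n m)) k t := rfl

theorem TT_zero (n : ℕ) : TT n (fun _ _ => (0 : ℂ)) := by
  induction n with
  | zero => exact ⟨fun m => ⟨fun _ => 0, summable_zero, fun k t => by simp⟩,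
      fun k => continuous_const⟩
  | succ n ih => exact ⟨fun m => ⟨fun _ => 0, summable_zero, fun k t => by simp⟩,
      fun k => continuous_const, _, fun k t _ => hasDerivAt_const _ _, ih⟩

variable {a : Fin 3 → K3 → ℂ}

theorem zz_TT (ha : ∀ i, Rd (a i)) (n : ℕ) : ∀ (i : Fin 3) (m : ℕ), TT m (zz a n i) := by
  induction n with
  | zero => exact fun _ m => TT_zero m
  | succ n ih =>
    intro i m
    refine TT.add (HT_TT (ha i) m) (TT.sum _ fun j _ => TT.sum _ fun l _ => ?_)
    exact DP_TT (fun m => (ih j m).conv (ih l m)) (coef_poly i j l)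
      (H356R3.NS.coef_zero i j l) m

theorem zz_RD (ha : ∀ i, Rd (a i)) (n : ℕ) (i : Fin 3) : RD (zz a n i) := (zz_TT ha n i 0).rd

theorem zz_ct (ha : ∀ i, Rd (a i)) (n : ℕ) (i : Fin 3) (k : K3) : Continuous (zz a n i k) :=
  (zz_TT ha n i 0).ct k

theorem FF_RD (ha : ∀ i, Rd (a i)) (n : ℕ) (j m : Fin 3) :
    RD (cvv (zz a n j) (zz a n m)) := (zz_RD ha n j).conv (zz_RD ha n m)

theorem FF_ct (ha : ∀ i, Rd (a i)) (n : ℕ) (j m : Fin 3) (k : K3) :
    Continuous (cvv (zz a n j) (zz a n m) k) :=
  H356R3.NS.cvv_cont (zz_RD ha n j) (zz_RD ha n m) (zz_ct ha n j) (zz_ct ha n m) k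

theorem DD_RD (ha : ∀ i, Rd (a i)) (n : ℕ) (i j m : Fin 3) :
    RD (DP (fun k => coef k i j m) (cvv (zz a n j) (zz a n m))) :=
  DP_RD (FF_RD ha n j m) (coef_poly i j m) (H356R3.NS.coef_zero i j m)

theorem S_zz_succ (ha : ∀ i, Rd (a i)) (n : ℕ) (i : Fin 3) (t : ℝ) (x : V) :
    S (fun k => zz a (n + 1) i k t) x = S (fun k => HT (a i) k t) x +
      ∑ j, ∑ m, S (fun k => DP (fun k => coef k i j m) (cvv (zz a n j) (zz a n m)) k t) x := by
  simp only [zz_succ]
  have h1 : ∀ j m, Summable fun k => DP (fun k => coef k i j m) (cvv (zz a n j) (zz a n m)) k t :=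
    fun j m => (RD.rd (DD_RD ha n i j m) t).sum
  rw [S_add (RD.rd (HT_RD (ha i)) t).sum (summable_sum fun j _ => summable_sum fun m _ => h1 j m),
    S_fsum fun j => summable_sum fun m _ => h1 j m]
  congr 1
  refine Finset.sum_congr rfl fun j _ => ?_
  exact S_fsum (fun m => h1 j m) x

/-- the size -/
theorem zz_sup (ha : ∀ i, Rd (a i)) {M : ℝ} (hM : ∀ i x, ‖S (a i) x‖ ≤ M) {h : ℝ}
    (hs : 3456 * M * √h ≤ 1) (n : ℕ) :
    ∀ (i : Fin 3) (t : ℝ), t ≤ h → ∀ x, ‖S (fun k => zz a n i k t) x‖ ≤ 2 * M := by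
  have hM0 : 0 ≤ M := (norm_nonneg _).trans (hM 0 0)
  induction n with
  | zero =>
    intro i t _ x
    have : S (fun k => zz a 0 i k t) x = 0 := by
      unfold S zz
      simp
    rw [this, norm_zero]
    positivity
  | succ n ih =>
    intro i t hth x
    have hk : ∀ k, zz a (n + 1) i k t = zz a (n + 1) i k (max t 0) := by
      intro k
      simp only [zz_succ, HT, DP]
      simp
    simp only [hk]
    rw [S_zz_succ ha]
    set t' := max t 0 with ht'
    have ht0 : 0 ≤ t' := le_max_right _ _
    have b0 : ‖S (fun k => HT (a i) k t') x‖ ≤ M := by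
      unfold HT
      exact heat_bd (ha i).sum (hM i) (le_max_right _ _) x
    rcases lt_or_ge h 0 with hh0 | hh0
    · have ht1 : t' = 0 := by
        rw [ht']
        exact max_eq_right (by linarith)
      have b1 : ∀ j m, S (fun k => DP (fun k => coef k i j m)
          (cvv (zz a n j) (zz a n m)) k t') x = 0 := by
        intro j m
        unfold S DP
        simp [ht1]
      simp only [b1]
      simp only [Finset.sum_const_zero, add_zero]
      linarith
    have hth' : t' ≤ h := max_le hth hh0
    have b1 : ∀ j m, ‖S (fun k => DP (fun k => coef k i j m)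
        (cvv (zz a n j) (zz a n m)) k t') x‖ ≤ 24 * (4 * M ^ 2) * √h := by
      intro j m
      refine (DP_b (FF_RD ha n j m) (FF_ct ha n j m) ht0 (K := 4 * M ^ 2) ?_ i j m x).trans ?_
      · intro s hs y
        rw [S_cvv (zz_RD ha n j) (zz_RD ha n m), norm_mul]
        calc _ ≤ (2 * M) * (2 * M) := mul_le_mul (ih j s (hs.2.le.trans hth') y)
              (ih m s (hs.2.le.trans hth') y) (norm_nonneg _) (by positivity)
          _ = 4 * M ^ 2 := by ring
      · exact mul_le_mul_of_nonneg_left (Real.sqrt_le_sqrt hth') (by positivity)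
    refine (norm_add_le _ _).trans ?_
    have b2 : ‖∑ j, ∑ m, S (fun k => DP (fun k => coef k i j m)
        (cvv (zz a n j) (zz a n m)) k t') x‖ ≤ ∑ _j : Fin 3, ∑ _m : Fin 3, 24 * (4 * M ^ 2) * √h :=
      (norm_sum_le _ _).trans (Finset.sum_le_sum fun j _ =>
        (norm_sum_le _ _).trans (Finset.sum_le_sum fun m _ => b1 j m))
    have b3 : ∑ _j : Fin 3, ∑ _m : Fin 3, 24 * (4 * M ^ 2) * √h = 864 * M ^ 2 * √h := by
      simp only [Finset.sum_const, Finset.card_univ, Fintype.card_fin, nsmul_eq_mul]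
      push_cast
      ring
    rw [b3] at b2
    have b4 : 864 * M ^ 2 * √h ≤ M := by nlinarith [Real.sqrt_nonneg h]
    linarith

/-- the difference of consecutive iterates -/
theorem zz_dif (ha : ∀ i, Rd (a i)) {M : ℝ} (hM : ∀ i x, ‖S (a i) x‖ ≤ M) {h : ℝ}
    (hs : 3456 * M * √h ≤ 1) (n : ℕ) :
    ∀ (i : Fin 3) (t : ℝ), 0 ≤ t → t ≤ h → ∀ x,
      ‖S (fun k => zz a (n + 1) i k t) x - S (fun k => zz a n i k t) x‖ ≤ M / 2 ^ n := by
  have hM0 : 0 ≤ M := (norm_nonneg _).trans (hM 0 0)
  induction n with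
  | zero =>
    intro i t ht hth x
    have e1 : ∀ j m, S (fun k => DP (fun k => coef k i j m)
        (cvv (zz a 0 j) (zz a 0 m)) k t) x = 0 := by
      intro j m
      unfold S DP cvv zz
      simp
    have e2 : S (fun k => zz a 0 i k t) x = 0 := by
      unfold S zz
      simp
    rw [S_zz_succ ha, e2, sub_zero, pow_zero, div_one]
    simp only [e1, Finset.sum_const_zero, add_zero]
    unfold HT
    exact heat_bd (ha i).sum (hM i) (le_max_right _ _) x
  | succ n ih =>
    intro i t ht hth x
    rw [S_zz_succ ha, S_zz_succ ha, add_sub_add_left_eq_sub, ← Finset.sum_sub_distrib]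
    simp only [← Finset.sum_sub_distrib]
    set F : Fin 3 → Fin 3 → SFam := fun j m k t =>
      cvv (zz a (n + 1) j) (zz a (n + 1) m) k t + (-1) * cvv (zz a n j) (zz a n m) k t with hF
    have hm1 : ∀ k : K3, ‖(fun _ : K3 => (-1 : ℂ)) k‖ ≤ 1 * pw k ^ 0 := fun k => by simp
    have FRD : ∀ j m, RD (F j m) := fun j m =>
      (FF_RD ha (n + 1) j m).add ((FF_RD ha n j m).mul (p := fun _ => -1) hm1)
    have Fct : ∀ j m k, Continuous (F j m k) := fun j m k =>
      (FF_ct ha (n + 1) j m k).add (continuous_const.mul (FF_ct ha n j m k))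
    have e : ∀ j m, S (fun k => DP (fun k => coef k i j m)
          (cvv (zz a (n + 1) j) (zz a (n + 1) m)) k t) x -
        S (fun k => DP (fun k => coef k i j m) (cvv (zz a n j) (zz a n m)) k t) x =
        S (fun k => DP (fun k => coef k i j m) (F j m) k t) x := by
      intro j m
      rw [← S_sub (RD.rd (DD_RD ha (n + 1) i j m) t).sum (RD.rd (DD_RD ha n i j m) t).sum]
      congr 1
      funext k
      unfold DP
      rw [← mul_sub, ← intervalIntegral.integral_sub]
      · congr 1
        refine intervalIntegral.integral_congr fun s _ => ?_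
        simp only [hF]
        ring
      · exact (((hh_cont k).comp (by fun_prop)).mul (FF_ct ha (n + 1) j m k)).intervalIntegrable _ _
      · exact (((hh_cont k).comp (by fun_prop)).mul (FF_ct ha n j m k)).intervalIntegrable _ _
    simp only [e]
    have b1 : ∀ j m, ‖S (fun k => DP (fun k => coef k i j m) (F j m) k t) x‖ ≤
        24 * (4 * M * (M / 2 ^ n)) * √h := by
      intro j m
      refine (DP_b (FRD j m) (Fct j m) ht (K := 4 * M * (M / 2 ^ n)) ?_ i j m x).trans ?_
      · intro s hs' y
        have hsh : s ≤ h := hs'.2.le.trans hth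
        have s1 : ∀ j m n', Summable fun k => cvv (zz a n' j) (zz a n' m) k s := fun j m n' =>
          (RD.rd (FF_RD ha n' j m) s).sum
        have e3 : S (fun k => F j m k s) y =
            S (fun k => zz a (n + 1) j k s) y * S (fun k => zz a (n + 1) m k s) y -
              S (fun k => zz a n j k s) y * S (fun k => zz a n m k s) y := by
          have e4 : (fun k => F j m k s) = fun k => cvv (zz a (n + 1) j) (zz a (n + 1) m) k s -
              cvv (zz a n j) (zz a n m) k s := by
            funext k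
            simp only [hF]
            ring
          rw [e4, S_sub (s1 j m (n + 1)) (s1 j m n), S_cvv (zz_RD ha _ _) (zz_RD ha _ _),
            S_cvv (zz_RD ha _ _) (zz_RD ha _ _)]
        rw [e3]
        have p1 := ih j s hs'.1.le hsh y
        have p2 := ih m s hs'.1.le hsh y
        have p3 := zz_sup ha hM hs (n + 1) m s hsh y
        have p4 := zz_sup ha hM hs n j s hsh y
        set A := S (fun k => zz a (n + 1) j k s) y
        set B := S (fun k => zz a (n + 1) m k s) y
        set A' := S (fun k => zz a n j k s) y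
        set B' := S (fun k => zz a n m k s) y
        have e5 : A * B - A' * B' = (A - A') * B + A' * (B - B') := by ring
        rw [e5]
        refine (norm_add_le _ _).trans ?_
        rw [norm_mul, norm_mul]
        calc ‖A - A'‖ * ‖B‖ + ‖A'‖ * ‖B - B'‖ ≤ (M / 2 ^ n) * (2 * M) + (2 * M) * (M / 2 ^ n) := by
              refine add_le_add ?_ ?_
              · exact mul_le_mul p1 p3 (norm_nonneg _) (by positivity)
              · exact mul_le_mul p4 p2 (norm_nonneg _) (by positivity)
          _ = 4 * M * (M / 2 ^ n) := by ring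
      · exact mul_le_mul_of_nonneg_left (Real.sqrt_le_sqrt hth) (by positivity)
    have b2 : ‖∑ j, ∑ m, S (fun k => DP (fun k => coef k i j m) (F j m) k t) x‖ ≤
        ∑ _j : Fin 3, ∑ _m : Fin 3, 24 * (4 * M * (M / 2 ^ n)) * √h :=
      (norm_sum_le _ _).trans (Finset.sum_le_sum fun j _ =>
        (norm_sum_le _ _).trans (Finset.sum_le_sum fun m _ => b1 j m))
    refine b2.trans ?_
    simp only [Finset.sum_const, Finset.card_univ, Fintype.card_fin, nsmul_eq_mul]
    have h3 : 0 ≤ M / 2 ^ n := by positivity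
    have h4 : M / 2 ^ (n + 1) = (M / 2 ^ n) * (1 / 2) := by
      rw [pow_succ]
      field_simp
    rw [h4]
    push_cast
    nlinarith [mul_le_mul_of_nonneg_left hs h3, Real.sqrt_nonneg h]

/-- the gradient -/
theorem zz_gr (ha : ∀ i, Rd (a i)) {M : ℝ} (hM : ∀ i x, ‖S (a i) x‖ ≤ M) {h : ℝ}
    (hs : 3456 * M * √h ≤ 1) (n : ℕ) :
    ∀ (i l : Fin 3) (t : ℝ), 0 < t → t ≤ h → ∀ x,
      ‖S (fun k => fj k l * zz a n i k t) x‖ ≤ 3 * M / √t := by
  have hM0 : 0 ≤ M := (norm_nonneg _).trans (hM 0 0)
  induction n with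
  | zero =>
    intro i l t ht _ x
    have : S (fun k => fj k l * zz a 0 i k t) x = 0 := by
      unfold S zz
      simp
    rw [this, norm_zero]
    positivity
  | succ n ih =>
    intro i l t ht hth x
    have hst : 0 < √t := Real.sqrt_pos.2 ht
    have hsth : √t ≤ √h := Real.sqrt_le_sqrt hth
    have s1 : ∀ j m, Summable fun k => fj k l *
        DP (fun k => coef k i j m) (cvv (zz a n j) (zz a n m)) k t :=
      fun j m => ((RD.rd (DD_RD ha n i j m) t).fj l).sum
    have e1 : S (fun k => fj k l * zz a (n + 1) i k t) x = S (fun k => fj k l * HT (a i) k t) x +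
        ∑ j, ∑ m, S (fun k => fj k l *
          DP (fun k => coef k i j m) (cvv (zz a n j) (zz a n m)) k t) x := by
      have e2 : (fun k => fj k l * zz a (n + 1) i k t) = fun k => fj k l * HT (a i) k t +
          ∑ j, ∑ m, fj k l * DP (fun k => coef k i j m) (cvv (zz a n j) (zz a n m)) k t := by
        funext k
        rw [zz_succ, mul_add, Finset.mul_sum]
        congr 1
        refine Finset.sum_congr rfl fun j _ => ?_
        rw [Finset.mul_sum]
      rw [e2, S_add ((RD.rd (HT_RD (ha i)) t).fj l).sum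
        (summable_sum fun j _ => summable_sum fun m _ => s1 j m),
        S_fsum fun j => summable_sum fun m _ => s1 j m]
      congr 1
      refine Finset.sum_congr rfl fun j _ => ?_
      exact S_fsum (fun m => s1 j m) x
    rw [e1]
    have b0 : ‖S (fun k => fj k l * HT (a i) k t) x‖ ≤ M / √t := by
      have h1 := grad_bd (ha i).sum (hM i) ht l x
      unfold HT
      rw [max_eq_left ht.le]
      exact h1
    have b1 : ∀ j m, ‖S (fun k => fj k l * DP (fun k => coef k i j m)
        (cvv (zz a n j) (zz a n m)) k t) x‖ ≤ 48 * (4 * M ^ 2) + 34 * (12 * M ^ 2) := by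
      intro j m
      refine DP_g (FF_RD ha n j m) (FF_ct ha n j m) ht (by positivity) (by positivity) ?_ l ?_
        i j m x
      · intro s hs' y
        rw [S_cvv (zz_RD ha n j) (zz_RD ha n m), norm_mul]
        have hsh : s ≤ h := hs'.2.le.trans hth
        calc _ ≤ (2 * M) * (2 * M) := mul_le_mul (zz_sup ha hM hs n j s hsh y)
              (zz_sup ha hM hs n m s hsh y) (norm_nonneg _) (by positivity)
          _ = 4 * M ^ 2 := by ring
      · intro s hs' y
        have hsh : s ≤ h := hs'.2.le.trans hth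
        have hs0 : 0 < √s := Real.sqrt_pos.2 hs'.1
        rw [S_dcvv (zz_RD ha n j) (zz_RD ha n m)]
        refine (norm_add_le _ _).trans ?_
        rw [norm_mul, norm_mul]
        calc _ ≤ (3 * M / √s) * (2 * M) + (2 * M) * (3 * M / √s) := by
              refine add_le_add ?_ ?_
              · exact mul_le_mul (ih j l s hs'.1 hsh y) (zz_sup ha hM hs n m s hsh y)
                  (norm_nonneg _) (by positivity)
              · exact mul_le_mul (zz_sup ha hM hs n j s hsh y) (ih m l s hs'.1 hsh y)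
                  (norm_nonneg _) (by positivity)
          _ = 12 * M ^ 2 / √s := by ring
    refine (norm_add_le _ _).trans ?_
    have b2 : ‖∑ j, ∑ m, S (fun k => fj k l * DP (fun k => coef k i j m)
        (cvv (zz a n j) (zz a n m)) k t) x‖ ≤
        ∑ _j : Fin 3, ∑ _m : Fin 3, (48 * (4 * M ^ 2) + 34 * (12 * M ^ 2)) :=
      (norm_sum_le _ _).trans (Finset.sum_le_sum fun j _ =>
        (norm_sum_le _ _).trans (Finset.sum_le_sum fun m _ => b1 j m))
    have b3 : ∑ _j : Fin 3, ∑ _m : Fin 3, (48 * (4 * M ^ 2) + 34 * (12 * M ^ 2)) =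
        5400 * M ^ 2 := by
      simp only [Finset.sum_const, Finset.card_univ, Fintype.card_fin, nsmul_eq_mul]
      push_cast
      ring
    rw [b3] at b2
    have b4 : 5400 * M ^ 2 ≤ 2 * M / √t := by
      rw [le_div_iff₀ hst]
      nlinarith [mul_le_mul_of_nonneg_left hsth hM0, mul_nonneg hM0 hst.le]
    have b5 : 3 * M / √t = M / √t + 2 * M / √t := by ring
    rw [b5]
    linarith

end Pool.Agent.Helper33S
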