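import Pool.Agent.Helper33S.Main2
import Pool.Agent.H459R3.NS.High2

/-!
A smooth periodic solution is a suitable weak solution before its final time (helper33).
-/

set_option autoImplicit false

open MeasureTheory Set Metric Filter Topology
open scoped ContDiff

namespace Pool.Agent.Helper33S

open H459R3.NS W221.NS Pool.Agent.Y8
open Pool.Agent.W583.MD (Z Z_pd)

/-- The momentum balance at a regular time. -/
theorem mom_id {H : Set ℝ} (hH : IsOpen H) {v : ℝ → V → V} {q : ℝ → V → ℝ}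
    (hv : ContDiffOn ℝ ∞ (fun z : ℝ × V => v z.1 z.2) (H ×ˢ univ))
    (hq : ContDiffOn ℝ ∞ (fun z : ℝ × V => q z.1 z.2) (H ×ˢ univ))
    (hdiv : ∀ t ∈ H, ∀ x, ∑ i, pd i (fun y => v t y i) x = 0)
    (hmom : ∀ t ∈ H, ∀ x i,
      deriv (fun s => v s x i) t + ∑ j, v t x j * pd j (fun y => v t y i) x
        = ∑ j, pd j (pd j (fun y => v t y i)) x - pd i (q t) x) (i : Fin 3)
    {Φ : ℝ → V → ℝ} (hΦ : ContDiffOn ℝ ∞ (fun z : ℝ × V => Φ z.1 z.2) (H ×ˢ univ))
    {a : V} {R : ℝ} (hR : 0 < R) (hs : ∀ t ∈ H, ∀ z ∉ ball a R, Φ t z = 0) {t : ℝ} (ht : t ∈ H) :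
    HasDerivAt (fun s => ∫ z, v s z i * Φ s z) (DM 1 v q Φ i t) t := by
  have hvi := fun i => comp_joint hv i
  have hw : ∀ i, ContDiff ℝ ∞ (fun y => v t y i) := fun i =>
    sl_sm (F := fun t y => v t y i) (hvi i) ht
  have hφ : ContDiff ℝ ∞ (Φ t) := sl_sm hΦ ht
  have hqt : ContDiff ℝ ∞ (q t) := sl_sm hq ht
  have hc : HasCompactSupport (Φ t) := hcsR (hs t ht)
  have hF : ContDiffOn ℝ ∞ (fun z : ℝ × V => v z.1 z.2 i * Φ z.1 z.2) (H ×ˢ univ) :=
    (hvi i).mul hΦ
  have h1 := hd_int (F := fun s z => v s z i * Φ s z) (a := a) (R := R) hH hF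
    (fun t ht z hz => by rw [hs t ht z hz, mul_zero]) ht
  refine h1.congr_deriv ?_
  -- the divergence terms
  have z1 : ∀ j, Z (pd j fun y => pd j (fun y => v t y i) y * Φ t y) := fun j =>
    Z_pd ((pd_sm (hw i) j).mul hφ) hc.mul_left j
  have z2 : ∀ j, Z (pd j fun y => v t y i * pd j (Φ t) y) := fun j =>
    Z_pd ((hw i).mul (pd_sm hφ j)) (Pool.Agent.N976.EQ.E4.pd_cpt hc j).mul_left j
  have z3 : ∀ j, Z (pd j fun y => v t y j * (v t y i * Φ t y)) := fun j =>
    Z_pd ((hw j).mul ((hw i).mul hφ)) hc.mul_left.mul_left j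
  have z4 : Z (pd i fun y => q t y * Φ t y) := Z_pd (hqt.mul hφ) hc.mul_left i
  have z5 := (Z.sum fun j => ((z1 j).sub (z2 j)).sub (z3 j)).sub z4
  have hD : ∀ x, deriv (fun s => v s x i * Φ s x) t = md 1 v q Φ i t x +
      ((∑ j, (pd j (fun y => pd j (fun y => v t y i) y * Φ t y) x -
        pd j (fun y => v t y i * pd j (Φ t) y) x -
        pd j (fun y => v t y j * (v t y i * Φ t y)) x)) - pd i (fun y => q t y * Φ t y) x) := by
    intro x
    have d1 : HasDerivAt (fun s => v s x i) (∑ j, pd j (pd j (fun y => v t y i)) x -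
        pd i (q t) x - ∑ j, v t x j * pd j (fun y => v t y i) x) t := by
      have d := dt_hd' (F := fun t y => v t y i) hH (hvi i) ht x
      have m := hmom t ht x i
      have e : ∑ j, pd j (pd j (fun y => v t y i)) x - pd i (q t) x -
          ∑ j, v t x j * pd j (fun y => v t y i) x = deriv (fun s => v s x i) t := by
        linarith
      rw [e]
      exact d
    have d2 : HasDerivAt (fun s => Φ s x) (deriv (fun s => Φ s x) t) t := dt_hd' hH hΦ ht x
    have d0 := hdiv t ht x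
    rw [(d1.fun_mul d2).deriv]
    simp only [pdm (pd_sm (hw i) _) hφ, pdm (hw i) (pd_sm hφ _), pdm (hw _) ((hw i).mul hφ),
      pdm (hw i) hφ, pdm hqt hφ]
    unfold md adv lap
    simp only [Fin.sum_univ_three] at d0 ⊢
    linear_combination (v t x i * Φ t x) * d0
  have i2 : Integrable fun x => md 1 v q Φ i t x :=
    int_csR (sl_ct (md_joint 1 i hH hv hq hΦ).continuousOn ht) (a := a) (R := R)
      fun z hz => md_zero 1 i hH hΦ hR hs ht hz
  have h2 : ∫ x, deriv (fun s => v s x i * Φ s x) t = DM 1 v q Φ i t := by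
    simp_rw [hD]
    rw [integral_add i2 z5.1, z5.2, add_zero]
    rfl
  exact h2

/-- A function with compact support has a derivative with integral zero. -/
theorem line_zero {T : ℝ} {F N : ℝ → ℝ} {K : Set ℝ} (hK : IsCompact K) (hKs : K ⊆ Ioo 0 T)
    (hd : ∀ t ∈ Ioo 0 T, HasDerivAt F (N t) t) (hc : ContinuousOn N (Ioo 0 T))
    (h0 : ∀ t ∉ K, F t = 0 ∧ N t = 0) : ∫ t, N t = 0 := by
  have hd' : ∀ t, HasDerivAt F (N t) t := by
    intro t
    by_cases ht : t ∈ Ioo 0 T
    · exact hd t ht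
    · have htK : t ∉ K := fun h => ht (hKs h)
      rw [(h0 t htK).2]
      refine (hasDerivAt_const t (0 : ℝ)).congr_of_eventuallyEq ?_
      filter_upwards [hK.isClosed.isOpen_compl.mem_nhds htK] with s hs
      exact (h0 s hs).1
  have iN : Integrable N := by
    rw [← integrableOn_iff_integrable_of_support_subset (s := K)]
    · exact (hc.mono hKs).integrableOn_compact hK
    · intro t ht
      by_contra h
      exact ht (h0 t h).2
  have iF : Integrable F := by
    rw [← integrableOn_iff_integrable_of_support_subset (s := K)]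
    · exact ((continuous_iff_continuousAt.2 fun t => (hd' t).continuousAt).continuousOn
        ).integrableOn_compact hK
    · intro t ht
      by_contra h
      exact ht (h0 t h).1
  exact integral_eq_zero_of_hasDerivAt_of_integrable hd' iN iF

/-- A smooth periodic solution is a suitable weak solution before its final time. -/
theorem turb_of_sol {T T' E : ℝ} {u : ℝ → V → V} {p : ℝ → V → ℝ} (h : IsSol 1 T u p)
    (hTT : T' < T) (hE : energy (u 0) ≤ E ^ 2) :
    ∃ D, Turb 1 T' E D (Ioo 0 T') u p := by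
  have hsub : Ioo 0 T' ⊆ Ico 0 T := fun t ht => ⟨ht.1.le, ht.2.trans hTT⟩
  have hsubc : Icc 0 T' ⊆ Ico 0 T := fun t ht => ⟨ht.1, ht.2.trans_lt hTT⟩
  have hsubo : Ioo 0 T ⊆ Ico 0 T := Ioo_subset_Ico_self
  have su : ContDiffOn ℝ ∞ (fun z : ℝ × V => u z.1 z.2) (Ioo 0 T ×ˢ univ) :=
    h.smooth_u.mono (Set.prod_mono hsubo (le_refl _))
  have sp : ContDiffOn ℝ ∞ (fun z : ℝ × V => p z.1 z.2) (Ioo 0 T ×ˢ univ) :=
    h.smooth_p.mono (Set.prod_mono hsubo (le_refl _))
  have hdiv : ∀ t ∈ Ioo 0 T, ∀ x, ∑ i, pd i (fun y => u t y i) x = 0 := fun t ht =>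
    h.divfree t (hsubo ht)
  have hmom : ∀ t ∈ Ioo 0 T, ∀ x i,
      deriv (fun s => u s x i) t + ∑ j, u t x j * pd j (fun y => u t y i) x
        = ∑ j, pd j (pd j (fun y => u t y i)) x - pd i (p t) x := fun t ht x i => by
    have := h.momentum t ht x i
    rwa [one_mul] at this
  have ice : IntegrableOn (fun t => enstrophy (u t)) (Ioo 0 T') :=
    (h.enstrophy_continuousOn.mono hsubc).integrableOn_compact isCompact_Icc |>.mono_set
      Ioo_subset_Icc_self
  -- the support of a test function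
  have hsupp : ∀ φ : ℝ → V → ℝ, Test T' φ → ∃ (K : Set ℝ) (R : ℝ), IsCompact K ∧ K ⊆ Ioo 0 T' ∧
      0 < R ∧ (∀ t ∉ K, ∀ x, φ t x = 0) ∧ ∀ t, ∀ z ∉ ball (0 : V) R, φ t z = 0 := by
    intro φ hφ
    have hc : IsCompact (tsupport fun z : ℝ × V => φ z.1 z.2) := hφ.cpt
    have hc2 : IsCompact (Prod.snd '' tsupport fun z : ℝ × V => φ z.1 z.2) :=
      hc.image continuous_snd
    obtain ⟨R, hR⟩ := hc2.isBounded.subset_ball (0 : V)
    refine ⟨Prod.fst '' tsupport fun z : ℝ × V => φ z.1 z.2, max R 1, hc.image continuous_fst,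
      ?_, by positivity, ?_, ?_⟩
    · rintro _ ⟨z, hz, rfl⟩
      exact (hφ.supp hz).1
    · intro t ht x
      by_contra hne
      exact ht ⟨(t, x), subset_tsupport _ hne, rfl⟩
    · intro t z hz
      by_contra hne
      exact hz (ball_subset_ball (le_max_left _ _)
        (hR ⟨(t, z), subset_tsupport _ hne, rfl⟩))
  -- the densities vanish outside the support
  have hz0 : ∀ (φ : ℝ → V → ℝ) (K : Set ℝ), IsCompact K → (∀ t ∉ K, ∀ x, φ t x = 0) →
      ∀ t ∉ K, (∀ x, deriv (fun s => φ s x) t = 0) ∧ φ t = fun _ => 0 := by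
    intro φ K hK h0 t ht
    refine ⟨fun x => ?_, funext fun x => h0 t ht x⟩
    have : (fun s => φ s x) =ᶠ[𝓝 t] fun _ => 0 := by
      filter_upwards [hK.isClosed.isOpen_compl.mem_nhds ht] with s hs
      exact h0 s hs x
    rw [this.deriv_eq, deriv_const]
  have e3 : ∀ j x, pd j (fun _ : V => (0 : ℝ)) x = 0 := fun j x =>
    Pool.Agent.W135.MD.pd_const' 0 j x
  have e4 : ∀ j, pd j (fun _ : V => (0 : ℝ)) = fun _ => 0 := fun j => funext fun x => e3 j x
  refine ⟨∫ t in Ioo 0 T', enstrophy (u t), isOpen_Ioo, subset_rfl, by simp,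
    h.smooth_u.mono (Set.prod_mono hsub (le_refl _)),
    h.smooth_p.mono (Set.prod_mono hsub (le_refl _)), fun t ht => h.per_u t (hsub ht),
    fun t ht => h.per_p t (hsub ht), fun t ht => h.divfree t (hsub ht), fun t ht =>
    h.momentum t ⟨ht.1, ht.2.trans hTT⟩, fun t ht => (h.energy_le one_pos (hsub ht)).trans hE,
    ice, le_rfl, ?_, ?_, ?_⟩
  · have cp : ContinuousOn (fun t => ∫ x in cube, |p t x| ^ (3 / 2 : ℝ)) (Icc 0 T') := by
      refine cint_cont (F := fun t x => |p t x| ^ (3 / 2 : ℝ)) ?_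
      refine ContinuousOn.rpow_const ?_ fun _ _ => Or.inr (by norm_num)
      exact (h.smooth_p.continuousOn.mono (Set.prod_mono hsubc (le_refl _))).abs
    exact (cp.integrableOn_compact isCompact_Icc).mono_set Ioo_subset_Icc_self
  · intro φ hφ i
    obtain ⟨K, R, hK, hKs, hR, h0, hsz⟩ := hsupp φ hφ
    have hKT : K ⊆ Ioo 0 T := hKs.trans (Ioo_subset_Ioo le_rfl hTT.le)
    have sφ : ContDiffOn ℝ ∞ (fun z : ℝ × V => φ z.1 z.2) (Ioo 0 T ×ˢ univ) :=
      hφ.smooth.contDiffOn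
    have hN0 : ∀ t ∉ K, DM 1 u p φ i t = 0 := by
      intro t ht
      obtain ⟨a1, a2⟩ := hz0 φ K hK h0 t ht
      unfold DM lap adv
      simp only [a1, a2, e3, e4]
      simp
    rw [setIntegral_eq_integral_of_forall_compl_eq_zero fun t ht => hN0 t fun hk => ht (hKs hk)]
    refine line_zero (F := fun s => ∫ z, u s z i * φ s z) hK hKT
      (fun t ht => mom_id isOpen_Ioo su sp hdiv hmom i sφ hR (fun t _ => hsz t) ht) ?_
      fun t ht => ⟨?_, hN0 t ht⟩
    · exact pint_cont_c isOpen_Ioo (md_joint 1 i isOpen_Ioo su sp sφ).continuousOn 0 R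
        fun t ht z hz => md_zero 1 i isOpen_Ioo sφ hR (fun t _ => hsz t) ht hz
    · simp only [h0 t ht]
      simp
  · intro φ hφ _
    obtain ⟨K, R, hK, hKs, hR, h0, hsz⟩ := hsupp φ hφ
    have hKT : K ⊆ Ioo 0 T := hKs.trans (Ioo_subset_Ioo le_rfl hTT.le)
    have sφ : ContDiffOn ℝ ∞ (fun z : ℝ × V => φ z.1 z.2) (Ioo 0 T ×ˢ univ) :=
      hφ.smooth.contDiffOn
    have hN0 : ∀ t ∉ K, DD 1 u p φ t = 0 := by
      intro t ht
      obtain ⟨a1, a2⟩ := hz0 φ K hK h0 t ht
      unfold DD lap adv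
      simp only [a1, a2, e3, e4]
      simp
    rw [setIntegral_eq_integral_of_forall_compl_eq_zero fun t ht => hN0 t fun hk => ht (hKs hk)]
    refine le_of_eq (Eq.symm ?_)
    refine line_zero (F := fun s => ∫ z, nsq (u s) z * φ s z) hK hKT
      (fun t ht => en_id isOpen_Ioo su sp hdiv hmom sφ hR (fun t _ => hsz t) ht) ?_
      fun t ht => ⟨?_, hN0 t ht⟩
    · have c := pint_cont_c isOpen_Ioo (ed_joint 1 isOpen_Ioo su sp sφ).continuousOn 0 R
        fun t ht z hz => ed_zero 1 isOpen_Ioo sφ hR (fun t _ => hsz t) ht hz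
      exact c.congr fun t ht => DD_eq 1 isOpen_Ioo su sp sφ hR (fun t _ => hsz t) ht
    · simp only [h0 t ht]
      simp

end Pool.Agent.Helper33S
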